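import Pool.Agent.H313.SL.Cub
import Pool.Graph.R_pool_sql_team_seeded_c8625f6e.K4H8.JG.Smo3
import Pool.Graph.R_pool_sql_team_seeded_3997aac3.Q97.UM.Stm10

set_option autoImplicit false

/-! The remainder term of the counting function of the zeros against the sum over the primes, pointwise, first power
(after K4H8.JG.Smo3), and the majorants in terms of the local sum over the zeros. -/

namespace Pool.Agent.H313.SL

open Filter Topology MeasureTheory Complex Finset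
open H370 (zset mult NN Zf zz mem_Zf good_zeta zz_im NN_eq NN_add NN_mono zcount nn_asymp)
open Pool.Agent.Y745.SW (VF Wf P_KER P_MVB Py Px)
open Pool.Agent.Y746.OJ (KerOK VH S_LI S_RV S0 pt ZR)
open Pool.Agent.Y923.OJ (GG GG_im GG_int cc)
open Pool.Agent.K4H8.JG
open Pool.Agent.Q97.UM (SS ZD mz)

noncomputable section

lemma PS_py1 {B : ℝ → ℝ} {K : ℝ} (h : KD B K) {a : ℝ} (ha : 1 ≤ a) (t : ℝ) {y : ℝ}
    (hy : Real.exp (8 * a) ≤ y) :
    |PS (KV B a) t - I0 B a * (Py y t).im| ≤ 8 * K * Z54 + 1 + ‖DDp B a ⌊y⌋₊ t‖ := by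
  have h1 := PS_tail h ha t (X := ⌊y⌋₊) (hy.trans (Nat.lt_floor_add_one y).le)
  have h2 : (DDp B a ⌊y⌋₊ t).im = (∑ n ∈ Icc 1 ⌊y⌋₊, c0 n * (cc (KV B a) t n).im) - I0 B a * (Py y t).im := by
    rw [DDp_eq, Complex.sub_im, Complex.im_sum, Complex.im_ofReal_mul]
    congr 1
    refine sum_congr rfl fun n _ => ?_
    rw [Complex.im_ofReal_mul]
  have h3 : |(DDp B a ⌊y⌋₊ t).im| ≤ 1 + ‖DDp B a ⌊y⌋₊ t‖ := by
    refine (Complex.abs_im_le_norm _).trans ?_
    linarith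
  have e : PS (KV B a) t - I0 B a * (Py y t).im =
      (PS (KV B a) t - ∑ n ∈ Icc 1 ⌊y⌋₊, c0 n * (cc (KV B a) t n).im) + (DDp B a ⌊y⌋₊ t).im := by
    rw [h2]; ring
  rw [e]
  refine (abs_add_le _ _).trans ?_
  linarith

/-- the majorant of the difference -/
def WW1 (B : ℝ → ℝ) (K C3 T a y U1 U2 t : ℝ) : ℝ :=
  K * Real.pi * W0 T a t + 2 * MZ K a U1 U2 t + ‖DDp B a ⌊y⌋₊ t‖ + C3

theorem ptw1 (hRV : S_RV) {B : ℝ → ℝ} {K : ℝ} (h : KD B K) {τ : ℝ} (hτ : 0 < τ) (hτ1 : τ ≤ 1 / 32) :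
    ∃ C3 T0 : ℝ, 1 ≤ C3 ∧ 10 ≤ T0 ∧ ∀ T : ℝ, T0 ≤ T →
      ∃ U1 U2 : ℝ, T ≤ U1 ∧ U1 ≤ T + 1 ∧ 2 * T - 1 ≤ U2 ∧ U2 ≤ 2 * T ∧
        ∀ t : ℝ, T + Real.log T ≤ t → t ≤ 2 * T - Real.log T →
        |E1 t - (Py (T ^ (8 * τ)) t).im / Real.pi| ≤
          WW1 B K C3 T (τ * Real.log T) (T ^ (8 * τ)) U1 U2 t := by
  obtain ⟨C2, T2, hC2, hT2, hsfp⟩ := sfp
  obtain ⟨C1, hC1, hES⟩ := E1_S0 hRV
  obtain ⟨C4, hC4, hcr⟩ := E1_crude
  have hK := h.K1
  have hpi := Real.pi_gt_three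
  have hZ := Z54_nonneg
  set C3 : ℝ := K * Real.pi * (1 + 1 / τ) + C1 * (K * Real.pi) + C2 * (K * Real.pi + 2 * K) +
    (8 * K * Z54 + 1) with hC3
  have hev1 : ∀ᶠ T : ℝ in atTop, 4 ≤ τ * Real.log T :=
    (Real.tendsto_log_atTop.const_mul_atTop hτ).eventually_ge_atTop 4
  have hev2 : ∀ᶠ T : ℝ in atTop, 4 * C4 * T ^ 2 * Real.exp (-(Real.log T - 1) ^ 2 / 2) ≤ 1 := by
    filter_upwards [Real.tendsto_log_atTop.eventually_ge_atTop (8 + Real.log (4 * C4)),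
      Real.tendsto_log_atTop.eventually_ge_atTop 10, eventually_ge_atTop 1] with T h1 h2 h3
    have hT0 : 0 < T := by linarith
    have e1 : 4 * C4 * T ^ 2 = Real.exp (Real.log (4 * C4) + 2 * Real.log T) := by
      rw [Real.exp_add, Real.exp_log (by positivity)]
      congr 1
      rw [two_mul, Real.exp_add, Real.exp_log hT0, sq]
    rw [e1, ← Real.exp_add, Real.exp_le_one_iff]
    nlinarith
  obtain ⟨T3, hT3⟩ := eventually_atTop.1 (hev1.and hev2)
  have hC31 : 1 ≤ C3 := by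
    have h1 : 0 ≤ K * Real.pi * (1 + 1 / τ) := by positivity
    have h2 : 0 ≤ C1 * (K * Real.pi) := by positivity
    have h3 : 0 ≤ C2 * (K * Real.pi + 2 * K) := by positivity
    have h4 : 0 ≤ 8 * K * Z54 := by positivity
    rw [hC3]; linarith
  refine ⟨C3, max T2 T3, hC31, hT2.trans (le_max_left _ _), fun T hT => ?_⟩
  obtain ⟨ha4, hsm⟩ := hT3 T ((le_max_right _ _).trans hT)
  have hTT2 : T2 ≤ T := (le_max_left _ _).trans hT
  have hT10 : 10 ≤ T := hT2.trans hTT2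
  have hT0 : 0 < T := by linarith
  obtain ⟨U1, U2, hU1, hU1', hU2, hU2', hs⟩ := hsfp T hTT2
  refine ⟨U1, U2, hU1, hU1', hU2, hU2', fun t ht1 ht2 => ?_⟩
  set L := Real.log T with hL
  have hL1 : 1 ≤ L := by
    by_contra hc
    push Not at hc
    have : τ * L ≤ 1 / 32 * 1 := by
      rcases le_total 0 L with h0 | h0
      · exact mul_le_mul hτ1 hc.le h0 (by norm_num)
      · nlinarith
    linarith
  set a := τ * L with ha
  have ha1 : 1 ≤ a := by linarith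
  have ha0 : 0 < a := by linarith
  have hI0 := I0_ge h ha4
  have hker := KerOK_KV h ha1
  have h1 := hs (KV B a) (K * a) (K * a * (2 * Real.exp a)) (K * Real.pi) (by positivity) (by positivity) hker
    (VH_le h ha1) t ht1 ht2
  have h2 := hES B K h a ha1 t U1 U2 (by linarith) (by linarith)
  have h3 := smooth_aux h ha1 (m := L - 1) hT10 hU1 hU2' (by linarith) (by linarith) (by linarith) (t := t)
  have h4 := ZS_le h ha1 U1 U2 t
  have hy : Real.exp (8 * a) = T ^ (8 * τ) := by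
    rw [Real.rpow_def_of_pos hT0, ha, ← hL]
    congr 1
    ring
  have h5 := PS_py1 h ha1 t (y := T ^ (8 * τ)) hy.le
  -- the small terms
  have h6 : |E1 t| * Real.exp (-(L - 1) ^ 2 / 2) ≤ 1 := by
    refine le_trans ?_ hsm
    have h7 := hcr t (by linarith)
    have h8 : t ^ 2 ≤ (2 * T) ^ 2 := pow_le_pow_left₀ (by linarith) (by linarith) 2
    refine mul_le_mul_of_nonneg_right ?_ (Real.exp_pos _).le
    nlinarith
  have h9 : K * a * (2 * Real.exp a) / T ≤ 2 * K := by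
    rw [div_le_iff₀ hT0]
    have h10 : a ≤ Real.exp a := by linarith [Real.add_one_le_exp a]
    have h11 : Real.exp a * Real.exp a ≤ T := by
      rw [← Real.exp_add]
      have h12 : a + a ≤ L := by
        rw [ha]
        nlinarith
      calc Real.exp (a + a) ≤ Real.exp L := Real.exp_le_exp.2 h12
        _ = T := by rw [hL, Real.exp_log hT0]
    have h13 : a * Real.exp a ≤ T := (mul_le_mul_of_nonneg_right h10 (Real.exp_pos a).le).trans h11
    nlinarith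
  have h14 : L / a = 1 / τ := by
    rw [ha]
    field_simp
  set PYi := (Py (T ^ (8 * τ)) t).im with hPYi
  set IE := ∫ y in U1..U2, E1 y * (KV B a ((y - t : ℝ) : ℂ)).re with hIE
  set IS := ∫ y in U1..U2, S0 y * (KV B a ((y - t : ℝ) : ℂ)).re with hIS
  have hpi0 : 0 < Real.pi := by linarith
  have e1 : I0 B a * (E1 t - PYi / Real.pi) = (I0 B a * E1 t - IE) + (IE - IS) +
      (IS - 1 / Real.pi * PS (KV B a) t - 2 * ZS (KV B a) U1 U2 t) + 2 * ZS (KV B a) U1 U2 t +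
      (1 / Real.pi) * (PS (KV B a) t - I0 B a * PYi) := by
    field_simp
    ring
  have h15 : |E1 t - PYi / Real.pi| ≤ |I0 B a * (E1 t - PYi / Real.pi)| := by
    rw [abs_mul, abs_of_pos (by linarith : 0 < I0 B a)]
    nlinarith [abs_nonneg (E1 t - PYi / Real.pi)]
  refine h15.trans ?_
  rw [e1]
  have h16 : |(1 / Real.pi) * (PS (KV B a) t - I0 B a * PYi)| ≤ 8 * K * Z54 + 1 +
      ‖DDp B a ⌊T ^ (8 * τ)⌋₊ t‖ := by
    rw [abs_mul, abs_of_pos (by positivity : 0 < 1 / Real.pi)]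
    have h17 : 1 / Real.pi ≤ 1 := by rw [div_le_one hpi0]; linarith
    calc 1 / Real.pi * |PS (KV B a) t - I0 B a * PYi| ≤ 1 * |PS (KV B a) t - I0 B a * PYi| :=
          mul_le_mul_of_nonneg_right h17 (abs_nonneg _)
      _ ≤ _ := by rw [one_mul]; exact h5
  have h18 : |2 * ZS (KV B a) U1 U2 t| ≤ 2 * MZ K a U1 U2 t := by
    rw [abs_mul, abs_of_pos (by norm_num : (0:ℝ) < 2)]
    linarith
  have h19 : C2 * (K * Real.pi + K * a * (2 * Real.exp a) / T) ≤ C2 * (K * Real.pi + 2 * K) := by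
    gcongr
  have h20 : K * Real.pi * (|E1 t| * Real.exp (-(L - 1) ^ 2 / 2) + W0 T a t + L / a) ≤
      K * Real.pi * (1 + 1 / τ) + K * Real.pi * W0 T a t := by
    rw [h14]
    have : K * Real.pi * (|E1 t| * Real.exp (-(L - 1) ^ 2 / 2)) ≤ K * Real.pi * 1 :=
      mul_le_mul_of_nonneg_left h6 (by positivity)
    nlinarith
  refine (abs_add_le _ _).trans ?_
  refine (add_le_add ((abs_add_le _ _).trans (add_le_add ((abs_add_le _ _).trans (add_le_add
    (abs_add_le _ _) le_rfl)) le_rfl)) le_rfl).trans ?_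
  unfold WW1
  rw [hC3]
  linarith


lemma SS_mono {δ δ' : ℝ} (h : δ ≤ δ') {T : ℝ} (hT : 1 ≤ T) (t : ℝ) : SS δ T t ≤ SS δ' T t := by
  have hL : 0 ≤ Real.log T := Real.log_nonneg hT
  unfold SS
  refine sum_le_sum fun s _ => ?_
  refine mul_le_mul_of_nonneg_left (div_le_div_of_nonneg_right (Real.exp_le_exp.2 ?_) (by positivity)) (Nat.cast_nonneg _)
  have h0 : 0 ≤ Real.log T * |s.re - 1 / 2| := by positivity
  nlinarith

/-- the elementary comparison -/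
lemma ker_cmp {τ L x : ℝ} (hτ : 0 < τ) (hτ1 : τ ≤ 1) (hL : 0 ≤ L) :
    (1 + (τ * L * x) ^ 2)⁻¹ ≤ 2 / τ ^ 2 * (1 / (1 + L * |x|) ^ 2) := by
  have h0 : 0 ≤ L * |x| := by positivity
  have e1 : (τ * L * x) ^ 2 = τ ^ 2 * (L * |x|) ^ 2 := by
    rw [mul_pow, mul_pow, mul_pow, sq_abs]
    ring
  rw [e1, div_mul_div_comm, mul_one, le_div_iff₀ (by positivity), inv_mul_le_iff₀ (by positivity)]
  have hτ2 : τ ^ 2 ≤ 1 := pow_le_one₀ hτ.le hτ1
  set y := L * |x| with hy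
  have h1 : (1 + y) ^ 2 ≤ 2 * (1 + y ^ 2) := by nlinarith [sq_nonneg (1 - y)]
  have h2 : τ ^ 2 * (1 + y) ^ 2 ≤ τ ^ 2 * (2 * (1 + y ^ 2)) := mul_le_mul_of_nonneg_left h1 (by positivity)
  have h3 : τ ^ 2 * (2 * (1 + y ^ 2)) = 2 * τ ^ 2 + 2 * (τ ^ 2 * y ^ 2) := by ring
  linarith

lemma ZD_of {T : ℝ} (hT : 16 ≤ T) {s : ℂ} (hs : s ∈ Zf riemannZeta T (2 * T)) : s ∈ ZD T := by
  unfold ZD
  rw [mem_Zf good_zeta (by linarith)] at hs
  rw [mem_Zf good_zeta (by linarith)]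
  exact ⟨hs.1, hs.2.1, by linarith [hs.2.2.1], by linarith [hs.2.2.2.1], hs.2.2.2.2⟩

lemma W0_le_SS {T : ℝ} (hT : 16 ≤ T) {τ : ℝ} (hτ : 0 < τ) (hτ1 : τ ≤ 1) (t : ℝ) :
    W0 T (τ * Real.log T) t ≤ 2 / τ ^ 2 * SS τ T t := by
  have hL : 0 ≤ Real.log T := Real.log_nonneg (by linarith)
  unfold W0 SS
  rw [mul_sum]
  refine le_trans ?_ (sum_le_sum_of_subset_of_nonneg (fun s hs => ZD_of hT hs) fun s _ _ => by positivity)
  refine sum_le_sum fun s _ => ?_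
  have h1 := ker_cmp (x := s.im - t) hτ hτ1 hL
  have h2 : (1 : ℝ) ≤ Real.exp (2 * τ * (Real.log T * |s.re - 1 / 2|)) := Real.one_le_exp (by positivity)
  have h3 : 1 / (1 + Real.log T * |s.im - t|) ^ 2 ≤
      Real.exp (2 * τ * (Real.log T * |s.re - 1 / 2|)) / (1 + Real.log T * |s.im - t|) ^ 2 :=
    div_le_div_of_nonneg_right h2 (by positivity)
  calc (mult riemannZeta s : ℝ) * (1 + (τ * Real.log T * (s.im - t)) ^ 2)⁻¹ ≤
      (mult riemannZeta s : ℝ) * (2 / τ ^ 2 * (Real.exp (2 * τ * (Real.log T * |s.re - 1 / 2|)) /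
        (1 + Real.log T * |s.im - t|) ^ 2)) := by
        refine mul_le_mul_of_nonneg_left (h1.trans ?_) (Nat.cast_nonneg _)
        exact mul_le_mul_of_nonneg_left h3 (by positivity)
    _ = 2 / τ ^ 2 * ((mult riemannZeta s : ℝ) * (Real.exp (2 * τ * (Real.log T * |s.re - 1 / 2|)) /
        (1 + Real.log T * |s.im - t|) ^ 2)) := by ring

lemma MZ_le_SS {T : ℝ} (hT : 16 ≤ T) {τ : ℝ} (hτ : 0 < τ) (hτ1 : τ ≤ 1) {K : ℝ} (hK : 0 ≤ K) {U1 U2 : ℝ} (hU1 : T ≤ U1)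
    (hU2 : U2 ≤ 2 * T) (t : ℝ) :
    MZ K (τ * Real.log T) U1 U2 t ≤ 4 * K / τ ^ 2 * SS τ T t := by
  have hL : 0 ≤ Real.log T := Real.log_nonneg (by linarith)
  set L := Real.log T with hLd
  unfold MZ SS
  rw [mul_sum]
  have hsub : ZR U1 U2 (1 / 2) ⊆ ZD T := by
    intro s hs
    refine ZD_of hT ?_
    have h1 := (mem_ZR hs).1
    rw [mem_Zf good_zeta (by linarith)] at h1
    rw [mem_Zf good_zeta (by linarith)]
    exact ⟨h1.1, h1.2.1, hU1.trans_lt h1.2.2.1, h1.2.2.2.1.trans hU2, h1.2.2.2.2⟩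
  refine le_trans ?_ (sum_le_sum_of_subset_of_nonneg hsub fun s _ _ => by positivity)
  refine sum_le_sum fun s hs => ?_
  obtain ⟨-, hs1, -⟩ := mem_ZR hs
  set y := s.re - 1 / 2 with hy
  have hy0 : 0 < y := by rw [hy]; linarith
  have h1 := ker_cmp (x := s.im - t) hτ hτ1 hL
  have h4 : τ * L * y * Real.exp (τ * L * y) ≤ Real.exp (2 * τ * (L * y)) := by
    have h5 : τ * L * y ≤ Real.exp (τ * L * y) := by linarith [Real.add_one_le_exp (τ * L * y)]
    calc τ * L * y * Real.exp (τ * L * y) ≤ Real.exp (τ * L * y) * Real.exp (τ * L * y) :=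
          mul_le_mul_of_nonneg_right h5 (Real.exp_pos _).le
      _ = _ := by rw [← Real.exp_add]; congr 1; ring
  have e1 : y * (2 * K * Real.exp (τ * L * y) * gg (τ * L) (s.im - t)) =
      2 * K * (τ * L * y * Real.exp (τ * L * y)) * (1 + (τ * L * (s.im - t)) ^ 2)⁻¹ := by
    unfold gg
    ring
  have e2 : |y| = y := abs_of_pos hy0
  rw [e1, e2]
  calc (mult riemannZeta s : ℝ) * (2 * K * (τ * L * y * Real.exp (τ * L * y)) * (1 + (τ * L * (s.im - t)) ^ 2)⁻¹) ≤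
      (mult riemannZeta s : ℝ) * (2 * K * Real.exp (2 * τ * (L * y)) * (2 / τ ^ 2 * (1 / (1 + L * |s.im - t|) ^ 2))) := by
        refine mul_le_mul_of_nonneg_left ?_ (Nat.cast_nonneg _)
        exact mul_le_mul (mul_le_mul_of_nonneg_left h4 (by positivity)) h1 (by positivity) (by positivity)
    _ = 4 * K / τ ^ 2 * ((mult riemannZeta s : ℝ) * (Real.exp (2 * τ * (L * y)) / (1 + L * |s.im - t|) ^ 2)) := by ring

end

end Pool.Agent.H313.SL
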