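import Pool.Agent.H313.SL.CohC
import Pool.Graph.R_pool_sql_team_seeded_3997aac3.Q97.UM.Coh2

set_option autoImplicit false

/-! Complex coherent states at the zeros (after Q97.UM.Coh). -/

namespace Pool.Agent.H313.SL

open Filter Topology MeasureTheory Complex
open Pool.Agent.Q97.UM

noncomputable section

open Classical in
/-- the zeros of the test set with the required local data -/
def Gdc (α : ℂ) (A δ : ℝ) (D : ℝ → ℝ → ℂ → ℝ) (Z : ℝ → Finset ℂ) (T : ℝ) : Finset ℂ := (Z T).filter (fun s =>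
  |EP ⌊T ^ δ⌋₊ s.im - α.re * Real.log (Real.log T)| ≤ A * Real.sqrt (Real.log (Real.log T)) ∧
  |(dp ⌊T ^ δ⌋₊ (pc ⌊T ^ δ⌋₊) s.im).im - α.im * Real.log (Real.log T)| ≤ A * Real.sqrt (Real.log (Real.log T)) ∧
  |LM T s.im - EP ⌊T ^ δ⌋₊ s.im| ≤ A ∧ |D δ T s| ≤ A)

open Classical in
theorem coh_core2 (hCOH : S_COHC) (hCLW : S_CLW) (hDPM : S_DPM) (hS : S_SAMP) (α : ℂ) (Z : ℝ → Finset ℂ) (w : ℝ → ℂ → ℝ)
    (hZs : ∀ T, Z T ⊆ H370.Zf riemannZeta T (2 * T)) (hw0 : ∀ T, ∀ s ∈ Z T, 0 ≤ w T s)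
    (hw : ∀ᶠ T : ℝ in atTop, ∀ s ∈ Z T, w T s ≤ mz s)
    (hlow : ∃ θ c : ℝ, 0 < θ ∧ 0 < c ∧ ∀ᶠ T : ℝ in atTop, ∀ N : ℕ, (N : ℝ) ≤ T ^ θ → ∀ b : ℕ → ℂ,
      c * Real.log T * (T * N2 N b) ≤ ∑ s ∈ Z T, w T s * ‖dp N b s.im‖ ^ 2)
    (D : ℝ → ℝ → ℂ → ℝ) (hD : ∃ θ δ₀ : ℝ, 0 < θ ∧ 0 < δ₀ ∧ ∀ δ : ℝ, 0 < δ → δ ≤ δ₀ → ∀ C' : ℝ, 0 ≤ C' → ∃ C : ℝ, 0 ≤ C ∧ ∀ᶠ T : ℝ in atTop,
      ∀ N : ℕ, (N : ℝ) ≤ T ^ θ → ∀ b : ℕ → ℂ, (∀ n, b n ≠ 0 → 1 ≤ n ∧ n ≤ N) → SqB C' ⌊T ^ δ⌋₊ N b → ∑ s ∈ Z T, w T s * (D δ T s ^ 2 * ‖dp N b s.im‖ ^ 2) ≤ C * Real.log T * (T * N2 N b)) :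
    ∃ A C δ : ℝ, 0 < A ∧ 0 ≤ C ∧ 0 < δ ∧ ∀ᶠ T : ℝ in atTop,
      T * Real.exp ((1 - ‖α‖ ^ 2) * Real.log (Real.log T) - C * Real.sqrt (Real.log (Real.log T))) ≤ ∑ s ∈ Gdc α A δ D Z T, w T s := by
  obtain ⟨k, hk⟩ : ∃ k, k = ‖α‖ := ⟨_, rfl⟩
  have hk0 : 0 ≤ k := by rw [hk]; exact norm_nonneg _
  rw [← hk]
  obtain ⟨ω, hω, hωα⟩ : ∃ ω : ℂ, ‖ω‖ = 1 ∧ starRingEnd ℂ ω * (k : ℂ) = α := by
    rcases eq_or_ne α 0 with h | h
    · refine ⟨1, norm_one, ?_⟩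
      rw [hk, h]
      simp
    · have hn : (‖α‖ : ℂ) ≠ 0 := by exact_mod_cast norm_ne_zero_iff.2 h
      refine ⟨starRingEnd ℂ α / (‖α‖ : ℂ), ?_, ?_⟩
      · rw [norm_div, RCLike.norm_conj, Complex.norm_real, norm_norm, div_self (norm_ne_zero_iff.2 h)]
      · rw [hk, map_div₀, Complex.conj_conj, Complex.conj_ofReal, div_mul_cancel₀ _ hn]
  have hωα2 : ω * α = (k : ℂ) := by
    rw [← hωα, ← mul_assoc, Complex.mul_conj, Complex.normSq_eq_norm_sq, hω]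
    norm_num
  obtain ⟨θa, c, hθa, hc, hlow⟩ := hlow
  obtain ⟨θb, δb, hθb, hδb, hD⟩ := hD
  obtain ⟨θc, δc, hθc, hδc, hCLW⟩ := hCLW
  obtain ⟨θs, hθs, hθs1, hS⟩ := hS 1 one_pos
  obtain ⟨δ, hδ⟩ : ∃ δ, δ = min (min δb δc) (min (θs / 4) (1 / 2)) := ⟨_, rfl⟩
  have hδ0 : 0 < δ := by rw [hδ]; positivity
  have hδ1 : δ ≤ δb := by rw [hδ]; exact (min_le_left _ _).trans (min_le_left _ _)
  have hδ2 : δ ≤ δc := by rw [hδ]; exact (min_le_left _ _).trans (min_le_right _ _)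
  have hδ3 : δ ≤ θs / 4 := by rw [hδ]; exact (min_le_right _ _).trans (min_le_left _ _)
  have hδ4 : δ ≤ 1 / 2 := by rw [hδ]; exact (min_le_right _ _).trans (min_le_right _ _)
  obtain ⟨CW, hCW, hCLW⟩ := hCLW δ hδ0 hδ2
  obtain ⟨θ, hθ⟩ : ∃ θ, θ = min (min θa θb) (min θc (δ / 2)) := ⟨_, rfl⟩
  have hθ0 : 0 < θ := by rw [hθ]; positivity
  have hθ1 : θ ≤ θa := by rw [hθ]; exact (min_le_left _ _).trans (min_le_left _ _)
  have hθ2 : θ ≤ θb := by rw [hθ]; exact (min_le_left _ _).trans (min_le_right _ _)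
  have hθ3 : θ ≤ θc := by rw [hθ]; exact (min_le_right _ _).trans (min_le_left _ _)
  have hθ4 : θ ≤ δ / 2 := by rw [hθ]; exact (min_le_right _ _).trans (min_le_right _ _)
  obtain ⟨C, hC, hCOH⟩ := hCOH k θ ω hω hθ0 (by linarith)
  obtain ⟨CD, hCD, hD⟩ := hD δ hδ0 hδ1 C hC
  -- the constant `A`
  obtain ⟨A₀, hA₀⟩ : ∃ A₀, A₀ = 1 + 4 * Pool.Agent.Q96.UM.Z0 + 2 * (6 * C + CD + CW) / c := ⟨_, rfl⟩
  have hZ0 : 0 ≤ Pool.Agent.Q96.UM.Z0 := tsum_nonneg fun n => by positivity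
  have hA1 : 1 ≤ A₀ := by
    rw [hA₀]
    have : 0 ≤ 2 * (6 * C + CD + CW) / c := by positivity
    linarith
  have hA2 : 4 * Pool.Agent.Q96.UM.Z0 ≤ A₀ := by
    rw [hA₀]
    have : 0 ≤ 2 * (6 * C + CD + CW) / c := by positivity
    linarith
  have hA3 : (6 * C + CD + CW) ≤ c / 2 * A₀ := by
    have h1 : 2 * (6 * C + CD + CW) / c ≤ A₀ := by rw [hA₀]; linarith
    rw [div_le_iff₀ hc] at h1
    linarith
  obtain ⟨C₃, hC₃⟩ : ∃ C₃, C₃ = |Real.log (c / 8)| := ⟨_, rfl⟩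
  have hC₃0 : 0 ≤ C₃ := by rw [hC₃]; exact abs_nonneg _
  have hC₃1 : Real.exp (-C₃) ≤ c / 8 := by
    rw [← Real.exp_log (show (0 : ℝ) < c / 8 by positivity), hC₃]
    exact Real.exp_le_exp.2 (neg_abs_le _)
  refine ⟨2 * A₀, 2 * C + 2 * k * A₀ + C₃, δ, by positivity, by positivity, hδ0, ?_⟩
  have hll : Tendsto (fun T : ℝ => Real.log (Real.log T)) atTop atTop :=
    Real.tendsto_log_atTop.comp Real.tendsto_log_atTop
  have hpow : Tendsto (fun T : ℝ => T ^ (δ / 2)) atTop atTop := tendsto_rpow_atTop (by positivity)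
  filter_upwards [hlow, hD, hCLW, hS, hCOH, eventually_ge_atTop (3 : ℝ), hll.eventually_ge_atTop 1, hll.eventually_ge_atTop (A₀ ^ 2),
    hpow.eventually_ge_atTop 2, hw] with T hlow hD hCLW hS hCOH hT hS1 hS2 hT2 hw
  obtain ⟨X, N, e, hX1, hX2, hN, he, hNe, hpt, hX'⟩ := hCOH
  have hT0 : 0 < T := by linarith
  have hL0 : 0 < Real.log T := Real.log_pos (by linarith)
  set L := Real.log T with hL
  set S := Real.log L with hSd
  obtain ⟨Y, hY⟩ : ∃ Y, Y = ⌊T ^ δ⌋₊ := ⟨_, rfl⟩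
  have hYle : (Y : ℝ) ≤ T ^ δ := by rw [hY]; exact Nat.floor_le (by positivity)
  have hmono : ∀ {a b : ℝ}, a ≤ b → T ^ a ≤ T ^ b := fun h => Real.rpow_le_rpow_of_exponent_le (by linarith) h
  have hXY : X ≤ Y := by
    rw [hY]
    apply Nat.le_floor
    exact hX2.trans (hmono (by linarith))
  have hY1 : 1 ≤ Y := hX1.trans hXY
  have hYT : (Y : ℝ) ≤ T := hYle.trans (by
    calc T ^ δ ≤ T ^ (1 : ℝ) := hmono (by linarith)
      _ = T := Real.rpow_one T)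
  have hXT : (X : ℝ) ≤ T := by
    have : (X : ℝ) ≤ Y := by exact_mod_cast hXY
    linarith
  -- lengths
  have hYN : ((Y * N : ℕ) : ℝ) ≤ T ^ θs := by
    push_cast
    calc (Y : ℝ) * N ≤ T ^ δ * T ^ θ := by gcongr
      _ = T ^ (δ + θ) := by rw [Real.rpow_add hT0]
      _ ≤ T ^ θs := hmono (by linarith)
  have hXN : ((X * N : ℕ) : ℝ) ≤ T ^ θs := by
    refine le_trans ?_ hYN
    have : X * N ≤ Y * N := Nat.mul_le_mul_right _ hXY
    exact_mod_cast this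
  have hY2N : ((Y ^ 2 * N : ℕ) : ℝ) ≤ T ^ θs := by
    push_cast
    calc (Y : ℝ) ^ 2 * N ≤ (T ^ δ) ^ 2 * T ^ θ := by gcongr
      _ = T ^ (δ * 2 + θ) := by rw [← Real.rpow_natCast, ← Real.rpow_mul hT0.le, ← Real.rpow_add hT0]; norm_num
      _ ≤ T ^ θs := hmono (by linarith)
  have hN2 : 0 < N2 N e := lt_of_lt_of_le (Real.exp_pos _) hNe
  set M := L * (T * N2 N e) with hM
  have hM0 : 0 < M := by positivity
  set F := H370.Zf riemannZeta T (2 * T) with hF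
  have hm : ∀ s ∈ F, (0 : ℝ) ≤ mz s := fun s _ => Nat.cast_nonneg _
  have hq : ∀ s : ℂ, 0 ≤ ‖dp N e s.im‖ ^ 2 := fun s => by positivity
  have hpi := Real.pi_gt_three
  -- S_SAMP from above
  have samp : ∀ (K : ℕ) (f : ℕ → ℂ), (K : ℝ) ≤ T ^ θs → ∑ s ∈ F, (mz s : ℝ) * ‖dp K f s.im‖ ^ 2 ≤ 2 * L * (T * N2 K f) := by
    intro K f hK
    have h1 := (abs_le.1 (hS K hK f).2.2).2
    have h2 : L / (2 * Real.pi) * (T * N2 K f) ≤ L * (T * N2 K f) := by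
      have h3 : 0 ≤ T * N2 K f := by unfold N2; positivity
      apply mul_le_mul_of_nonneg_right _ h3
      apply div_le_self hL0.le
      linarith
    linarith
  have hSq : 0 < Real.sqrt S := Real.sqrt_pos.2 (by linarith)
  have hSq1 : 1 ≤ Real.sqrt S := Real.one_le_sqrt.2 hS1
  have hSqA : A₀ ≤ Real.sqrt S := Real.le_sqrt_of_sq_le hS2
  have hSS : Real.sqrt S ^ 2 = S := Real.sq_sqrt (by linarith)
  have hαS : starRingEnd ℂ ω * ((k * S : ℝ) : ℂ) = α * (S : ℂ) := by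
    rw [← hωα]
    push_cast
    ring
  rw [hαS] at hX'
  -- bad zeros
  have badP : ∀ W : ℕ, X ≤ W → (W : ℝ) ≤ T → ((W * N : ℕ) : ℝ) ≤ T ^ θs →
      ∑ s ∈ (Z T).filter (fun s => A₀ * Real.sqrt S < |‖dp W (pc W) s.im - (α * (S : ℂ))‖|), w T s * ‖dp N e s.im‖ ^ 2 ≤
        2 * C * M / A₀ ^ 2 := by
    intro W hXW hWT hWN
    have h1 := cheb_Z (hZs T) (fun s => (mz s : ℝ)) (fun s => w T s) (fun s => ‖dp N e s.im‖ ^ 2)
      (fun s => ‖dp W (pc W) s.im - (α * (S : ℂ))‖) (hw0 T) hw hm hq (A₀ * Real.sqrt S) (2 * L * (T * (C * S * N2 N e)))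
      (by positivity) (by
        have h2 := samp (W * N) (fun n => cv (pc W) e n - (α * (S : ℂ)) * e n) hWN
        have h3 := (hX' W hXW hWT).1
        calc ∑ s ∈ F, (mz s : ℝ) * (‖dp W (pc W) s.im - (α * (S : ℂ))‖ ^ 2 * ‖dp N e s.im‖ ^ 2) =
              ∑ s ∈ F, (mz s : ℝ) * ‖dp (W * N) (fun n => cv (pc W) e n - (α * (S : ℂ)) * e n) s.im‖ ^ 2 := by
              refine Finset.sum_congr rfl fun s _ => ?_
              rw [dev_P hDPM (hX1.trans hXW) he]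
          _ ≤ _ := h2
          _ ≤ _ := by gcongr)
    refine h1.trans (le_of_eq ?_)
    rw [mul_pow, hSS, hM]
    have : S ≠ 0 := by linarith
    field_simp
  have bad1 := badP Y hXY hYT hYN
  have bad2 := badP X le_rfl hXT hXN
  have bad3 := cheb_Z (hZs T) (fun s => (mz s : ℝ)) (fun s => w T s) (fun s => ‖dp N e s.im‖ ^ 2)
    (fun s => ‖dp (Y ^ 2) (cq Y) s.im‖) (hw0 T) hw hm hq A₀ (2 * L * (T * (C * N2 N e)))
    (by linarith) (by
      have h2 := samp (Y ^ 2 * N) (cv (cq Y) e) hY2N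
      have h3 := (hX' Y hXY hYT).2 (cq Y) (fun n => by unfold cq; split_ifs <;> simp) (fun n hn => by
        unfold cq at hn
        by_contra hc
        rw [if_neg hc] at hn
        exact hn rfl)
      calc ∑ s ∈ F, (mz s : ℝ) * (‖dp (Y ^ 2) (cq Y) s.im‖ ^ 2 * ‖dp N e s.im‖ ^ 2) =
            ∑ s ∈ F, (mz s : ℝ) * ‖dp (Y ^ 2 * N) (cv (cq Y) e) s.im‖ ^ 2 := by
            refine Finset.sum_congr rfl fun s _ => ?_
            rw [dev_Q hDPM he]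
        _ ≤ _ := h2
        _ ≤ _ := by gcongr)
  have bad4 := cheb_Z (hZs T) (fun s => (mz s : ℝ)) (fun s => w T s) (fun s => ‖dp N e s.im‖ ^ 2)
    (fun s => LM T s.im - EP Y s.im) (hw0 T) hw hm hq A₀ (CW * M)
    (by linarith) (by
      have h2 := hCLW N (hN.trans (hmono hθ3)) e 0 (by simp)
      simp only [add_zero] at h2
      rw [hY, hM]
      exact h2.trans (le_of_eq (by ring)))
  have bad5 := cheb_Z' (fun s => w T s) (fun s => ‖dp N e s.im‖ ^ 2) (fun s => D δ T s) (hw0 T) hq A₀ (CD * M) (by linarith) (by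
      have h2 := hD N (hN.trans (hmono hθ2)) e he (by rw [← hY]; exact (hX' Y hXY hYT).2)
      rw [hM]
      exact h2.trans (le_of_eq (by ring)))
  have hlowe := hlow N (hN.trans (hmono hθ1)) e
  set q : ℂ → ℝ := fun s => w T s * ‖dp N e s.im‖ ^ 2 with hqd
  -- the good zeros
  obtain ⟨G, hG⟩ : ∃ G, G = (Z T).filter (fun s => (‖dp Y (pc Y) s.im - (α * (S : ℂ))‖ ≤ A₀ * Real.sqrt S ∧
    ‖dp X (pc X) s.im - (α * (S : ℂ))‖ ≤ A₀ * Real.sqrt S) ∧ ‖dp (Y ^ 2) (cq Y) s.im‖ ≤ A₀ ∧ |LM T s.im - EP Y s.im| ≤ A₀ ∧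
      |D δ T s| ≤ A₀) := ⟨_, rfl⟩
  have hqZ : ∀ s ∈ Z T, 0 ≤ q s := fun s hs => mul_nonneg (hw0 T s hs) (by positivity)
  have hsplit : ∑ s ∈ Z T, q s ≤ ∑ s ∈ G, q s +
      (∑ s ∈ (Z T).filter (fun s => A₀ * Real.sqrt S < |‖dp Y (pc Y) s.im - (α * (S : ℂ))‖|), q s +
      (∑ s ∈ (Z T).filter (fun s => A₀ * Real.sqrt S < |‖dp X (pc X) s.im - (α * (S : ℂ))‖|), q s +
      (∑ s ∈ (Z T).filter (fun s => A₀ < |‖dp (Y ^ 2) (cq Y) s.im‖|), q s +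
      (∑ s ∈ (Z T).filter (fun s => A₀ < |LM T s.im - EP Y s.im|), q s +
      ∑ s ∈ (Z T).filter (fun s => A₀ < |D δ T s|), q s)))) := by
    rw [hG]
    refine split5 (Z T) q hqZ _ _ _ _ _ _ fun s => ?_
    by_cases g1 : A₀ * Real.sqrt S < |‖dp Y (pc Y) s.im - (α * (S : ℂ))‖|
    · exact Or.inr (Or.inl g1)
    by_cases g2 : A₀ * Real.sqrt S < |‖dp X (pc X) s.im - (α * (S : ℂ))‖|
    · exact Or.inr (Or.inr (Or.inl g2))
    by_cases g3 : A₀ < |‖dp (Y ^ 2) (cq Y) s.im‖|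
    · exact Or.inr (Or.inr (Or.inr (Or.inl g3)))
    by_cases g4 : A₀ < |LM T s.im - EP Y s.im|
    · exact Or.inr (Or.inr (Or.inr (Or.inr (Or.inl g4))))
    by_cases g5 : A₀ < |D δ T s|
    · exact Or.inr (Or.inr (Or.inr (Or.inr (Or.inr g5))))
    rw [abs_norm, not_lt] at g1 g2 g3
    rw [not_lt] at g4 g5
    exact Or.inl ⟨⟨g1, g2⟩, g3, g4, g5⟩
  -- total mass of the bad zeros
  have hbad : 2 * C * M / A₀ ^ 2 + (2 * C * M / A₀ ^ 2 + (2 * L * (T * (C * N2 N e)) / A₀ ^ 2 + (CW * M / A₀ ^ 2 + CD * M / A₀ ^ 2))) ≤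
      c / 2 * M := by
    have e1 : 2 * L * (T * (C * N2 N e)) = 2 * C * M := by rw [hM]; ring
    rw [e1]
    have e2 : 2 * C * M / A₀ ^ 2 + (2 * C * M / A₀ ^ 2 + (2 * C * M / A₀ ^ 2 + (CW * M / A₀ ^ 2 + CD * M / A₀ ^ 2))) =
        (6 * C + CD + CW) * M / A₀ ^ 2 := by ring
    rw [e2, div_le_iff₀ (by positivity)]
    have h1 : (6 * C + CD + CW) ≤ c / 2 * A₀ ^ 2 := by
      refine hA3.trans ?_
      have : A₀ ≤ A₀ ^ 2 := le_self_pow₀ hA1 two_ne_zero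
      gcongr
    calc (6 * C + CD + CW) * M ≤ (c / 2 * A₀ ^ 2) * M := by gcongr
      _ = c / 2 * M * A₀ ^ 2 := by ring
  have hGmass : c / 2 * M ≤ ∑ s ∈ G, q s := by
    have e1 : c * L * (T * N2 N e) = c * M := by rw [hM]; ring
    rw [e1] at hlowe
    linarith
  -- pointwise bound
  have hGpt : ∀ s ∈ G, ‖dp N e s.im‖ ^ 2 ≤ 4 * Real.exp (2 * k ^ 2 * S + 2 * k * A₀ * Real.sqrt S) := by
    intro s hs
    rw [hG, Finset.mem_filter] at hs
    have h1 := hs.2.1.2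
    have h2 : ‖dp X (pc X) s.im‖ ≤ 2 * (|k| + 1) * S := by
      rw [abs_of_nonneg hk0]
      have h3 : ‖dp X (pc X) s.im‖ ≤ ‖dp X (pc X) s.im - (α * (S : ℂ))‖ + ‖(α * (S : ℂ))‖ := by
        have := norm_add_le (dp X (pc X) s.im - (α * (S : ℂ))) (α * (S : ℂ))
        rwa [sub_add_cancel] at this
      have h4 : ‖(α * (S : ℂ))‖ = k * S := by
        rw [norm_mul, Complex.norm_real, Real.norm_eq_abs, abs_of_pos (show 0 < S by linarith), ← hk]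
      rw [h4] at h3
      have h5 : A₀ * Real.sqrt S ≤ S := by
        calc A₀ * Real.sqrt S ≤ Real.sqrt S * Real.sqrt S := by gcongr
          _ = S := by rw [← sq, hSS]
      have h6 : 0 ≤ k * S := mul_nonneg hk0 (by linarith)
      linarith
    have h3 := hpt s.im h2
    have h4 : |(ω * dp X (pc X) s.im).re - k * S| ≤ A₀ * Real.sqrt S := by
      have e1 : ω * (dp X (pc X) s.im - α * (S : ℂ)) = ω * dp X (pc X) s.im - (k : ℂ) * (S : ℂ) := by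
        rw [mul_sub, ← mul_assoc, hωα2]
      have e2 : (ω * dp X (pc X) s.im).re - k * S = (ω * (dp X (pc X) s.im - α * (S : ℂ))).re := by
        rw [e1]
        simp
      rw [e2]
      refine (Complex.abs_re_le_norm _).trans ?_
      rw [norm_mul, hω, one_mul]
      exact h1
    have h5 : k * (ω * dp X (pc X) s.im).re ≤ k ^ 2 * S + k * A₀ * Real.sqrt S := by
      have h6 : k * (ω * dp X (pc X) s.im).re = k ^ 2 * S + k * ((ω * dp X (pc X) s.im).re - k * S) := by ring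
      rw [h6]
      have h7 : k * ((ω * dp X (pc X) s.im).re - k * S) ≤ k * (A₀ * Real.sqrt S) :=
        mul_le_mul_of_nonneg_left ((le_abs_self _).trans h4) hk0
      linarith
    calc ‖dp N e s.im‖ ^ 2 ≤ (2 * Real.exp (k * (ω * dp X (pc X) s.im).re)) ^ 2 := by gcongr
      _ ≤ (2 * Real.exp (k ^ 2 * S + k * A₀ * Real.sqrt S)) ^ 2 := by gcongr
      _ = 4 * Real.exp (2 * k ^ 2 * S + 2 * k * A₀ * Real.sqrt S) := by
        rw [mul_pow, ← Real.exp_nat_mul]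
        norm_num
        ring
  -- the good zeros have the required local data
  have hsub : G ⊆ Gdc α (2 * A₀) δ D Z T := by
    intro s hs
    rw [hG, Finset.mem_filter] at hs
    obtain ⟨hs0, ⟨g1, g2⟩, g3, g4, g5⟩ := hs
    unfold Gdc
    rw [Finset.mem_filter, ← hY]
    have g1i : |(dp Y (pc Y) s.im).im - α.im * S| ≤ A₀ * Real.sqrt S := by
      have : (dp Y (pc Y) s.im).im - α.im * S = (dp Y (pc Y) s.im - α * (S : ℂ)).im := by simp
      rw [this]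
      exact (Complex.abs_im_le_norm _).trans g1
    have hAS : 0 ≤ A₀ * Real.sqrt S := by positivity
    refine ⟨hs0, ?_, by linarith, by linarith, by linarith⟩
    have h1 := Pool.Agent.Q151.UM.EP_lin Y s.im
    have h1' : |EP Y s.im - (dp Y (pc Y) s.im).re - 1 / 2 * (dp (Y ^ 2) (cq Y) s.im).re| ≤ 2 * Pool.Agent.Q96.UM.Z0 := h1
    have h2 : |(dp Y (pc Y) s.im).re - α.re * S| ≤ A₀ * Real.sqrt S := by
      have : (dp Y (pc Y) s.im).re - α.re * S = (dp Y (pc Y) s.im - (α * (S : ℂ))).re := by simp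
      rw [this]
      exact (Complex.abs_re_le_norm _).trans g1
    have h3 : |(dp (Y ^ 2) (cq Y) s.im).re| ≤ A₀ := (Complex.abs_re_le_norm _).trans g3
    rw [abs_le] at h1' h2 h3 ⊢
    have h4 : A₀ ≤ A₀ * Real.sqrt S := le_mul_of_one_le_right (by linarith) hSq1
    constructor <;> linarith [h1'.1, h1'.2, h2.1, h2.2, h3.1, h3.2]
  -- conclusion
  set Ex := Real.exp (2 * k ^ 2 * S + 2 * k * A₀ * Real.sqrt S) with hEx
  have hExp : 0 < Ex := Real.exp_pos _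
  have h1 : ∑ s ∈ G, q s ≤ (∑ s ∈ G, w T s) * (4 * Ex) := by
    rw [Finset.sum_mul]
    refine Finset.sum_le_sum fun s hs => ?_
    have hsZ : s ∈ Z T := by
      rw [hG, Finset.mem_filter] at hs
      exact hs.1
    exact mul_le_mul_of_nonneg_left (hGpt s hs) (hw0 T s hsZ)
  have h2 : ∑ s ∈ G, w T s ≤ ∑ s ∈ Gdc α (2 * A₀) δ D Z T, w T s := by
    refine Finset.sum_le_sum_of_subset_of_nonneg hsub fun s hs _ => ?_
    unfold Gdc at hs
    exact hw0 T s (Finset.mem_filter.1 hs).1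
  refine le_trans ?_ h2
  have h3 : c / 2 * M ≤ (∑ s ∈ G, w T s) * (4 * Ex) := hGmass.trans h1
  have h4 : c / 8 * M / Ex ≤ ∑ s ∈ G, w T s := by
    rw [div_le_iff₀ hExp]
    linarith
  refine le_trans ?_ h4
  rw [le_div_iff₀ hExp]
  have hLexp : L = Real.exp S := by rw [hSd, Real.exp_log hL0]
  have hlogS : Real.log S ≤ 2 * Real.sqrt S := by
    have h5 : Real.log S = 2 * Real.log (Real.sqrt S) := by
      rw [← Real.log_rpow hSq]
      congr 1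
      rw [Real.rpow_two, hSS]
    rw [h5]
    have := Real.log_le_sub_one_of_pos hSq
    linarith
  calc T * Real.exp ((1 - k ^ 2) * S - (2 * C + 2 * k * A₀ + C₃) * Real.sqrt S) * Ex =
        T * Real.exp (S + k ^ 2 * S - 2 * C * Real.sqrt S - C₃ * Real.sqrt S) := by
        rw [hEx, mul_assoc, ← Real.exp_add]
        congr 2
        ring
    _ ≤ T * Real.exp (-C₃ + S + (k ^ 2 * S - C * Real.log S)) := by
        have h6 : C * Real.log S ≤ C * (2 * Real.sqrt S) := by gcongr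
        have h7 : C₃ ≤ C₃ * Real.sqrt S := le_mul_of_one_le_right hC₃0 hSq1
        gcongr
        linarith
    _ = T * (Real.exp (-C₃) * Real.exp S * Real.exp (k ^ 2 * S - C * Real.log S)) := by
        rw [Real.exp_add, Real.exp_add]
    _ ≤ T * (c / 8 * L * N2 N e) := by
        rw [hLexp]
        gcongr
    _ = c / 8 * M := by rw [hM]; ring

end

end Pool.Agent.H313.SL
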