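import Pool.Agent.H313.SL.Arg1
import Pool.Agent.H313.SL.Core
import Pool.Agent.H313.JG.Up2

set_option autoImplicit false

/-! The difference on the primes, the squares of the primes and the other prime powers; the zeros near the end points. -/

namespace Pool.Agent.H313.SL

open Filter Topology MeasureTheory Complex Finset
open H370 (zset mult NN Zf zz mem_Zf good_zeta zz_im NN_eq NN_add NN_mono zcount nn_asymp)
open Pool.Agent.K4H8.JG
open Pool.Agent.Q97.UM (SS ZD mz dp N2 cv pc)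

noncomputable section

/-- normalised coefficients -/
def gn (B : ℝ → ℝ) (a : ℝ) (n : ℕ) : ℂ := ((Real.sqrt n : ℝ) : ℂ) * dd B a n

/-- primes -/
def gp (B : ℝ → ℝ) (a : ℝ) (X n : ℕ) : ℂ := if n.Prime ∧ n ≤ X then gn B a n else 0

open Classical in
/-- squares of primes -/
def gs (B : ℝ → ℝ) (a : ℝ) (X n : ℕ) : ℂ := if ¬ n.Prime ∧ (∃ p : ℕ, p.Prime ∧ n = p ^ 2) ∧ n ≤ X then gn B a n else 0

lemma gn_pow (B : ℝ → ℝ) (a t : ℝ) {n : ℕ} (hn : 1 ≤ n) :
    gn B a n * (n : ℂ) ^ (-(1 / 2 + (t : ℂ) * I)) = dd B a n * (n : ℂ) ^ (-(t : ℂ) * I) := by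
  have hn0 : (n : ℂ) ≠ 0 := by exact_mod_cast (by omega : n ≠ 0)
  have hnr : (0 : ℝ) < n := by exact_mod_cast hn
  have e2 : (n : ℂ) ^ (-(1 / 2 + (t : ℂ) * I)) = (((Real.sqrt n)⁻¹ : ℝ) : ℂ) * (n : ℂ) ^ (-(t : ℂ) * I) := by
    have e3 : -(1 / 2 + (t : ℂ) * I) = -(1 / 2 : ℂ) + -(t : ℂ) * I := by ring
    rw [e3, Complex.cpow_add _ _ hn0]
    congr 1
    rw [Real.sqrt_eq_rpow, ← Real.rpow_neg (Nat.cast_nonneg n), Complex.ofReal_cpow (Nat.cast_nonneg n)]
    push_cast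
    rfl
  rw [e2]
  unfold gn
  have hs : ((Real.sqrt n : ℝ) : ℂ) ≠ 0 := by
    exact_mod_cast (Real.sqrt_pos.2 hnr).ne'
  push_cast
  field_simp

/-- bound for the coefficients at numbers which are not prime -/
lemma dd_np {B : ℝ → ℝ} {K : ℝ} (h : KD B K) {a : ℝ} (ha : 4 ≤ a) {n : ℕ} (hn : 1 ≤ n) (hp : ¬ n.Prime)
    (hna : Real.log n ≤ 8 * a) : ‖dd B a n‖ ≤ 12 * (K * Real.pi) * (Real.sqrt n)⁻¹ ∧ (dd B a n ≠ 0 → IsPrimePow n) := by
  have h1 := dd_le h ha n hn
  have hK := h.K1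
  have hpi := Real.pi_pos
  have hn0 : (0 : ℝ) < n := by exact_mod_cast hn
  have ha0 : 0 < a := by linarith
  have hs : 0 < Real.sqrt n := Real.sqrt_pos.2 hn0
  by_cases hpp : IsPrimePow n
  · refine ⟨?_, fun _ => hpp⟩
    rw [if_pos ⟨hpp, hp⟩] at h1
    have h2 : ArithmeticFunction.vonMangoldt n ^ 2 ≤ 64 * a ^ 2 := by
      have h3 : ArithmeticFunction.vonMangoldt n ≤ 8 * a := ArithmeticFunction.vonMangoldt_le_log.trans hna
      calc ArithmeticFunction.vonMangoldt n ^ 2 ≤ (8 * a) ^ 2 := pow_le_pow_left₀ ArithmeticFunction.vonMangoldt_nonneg h3 2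
        _ = _ := by ring
    have h4 : 2 * (K * Real.pi / a) ^ 2 * (ArithmeticFunction.vonMangoldt n ^ 2 / n) ≤ 128 * (K * Real.pi) ^ 2 * (1 / n) := by
      calc 2 * (K * Real.pi / a) ^ 2 * (ArithmeticFunction.vonMangoldt n ^ 2 / n) ≤
          2 * (K * Real.pi / a) ^ 2 * (64 * a ^ 2 / n) := by gcongr
        _ = _ := by field_simp; norm_num
    have h5 : ‖dd B a n‖ ^ 2 ≤ (12 * (K * Real.pi) * (Real.sqrt n)⁻¹) ^ 2 := by
      have e : (12 * (K * Real.pi) * (Real.sqrt n)⁻¹) ^ 2 = 144 * (K * Real.pi) ^ 2 * (1 / n) := by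
        rw [mul_pow, inv_pow, Real.sq_sqrt hn0.le]
        ring
      rw [e]
      have h6 : 0 ≤ (K * Real.pi) ^ 2 * (1 / (n : ℝ)) := by positivity
      linarith
    exact (pow_le_pow_iff_left₀ (norm_nonneg _) (by positivity) two_ne_zero).1 h5
  · have h8 : ArithmeticFunction.vonMangoldt n = 0 := ArithmeticFunction.vonMangoldt_eq_zero_iff.2 hpp
    rw [h8, if_neg (by tauto)] at h1
    have h9 : ‖dd B a n‖ ^ 2 ≤ 0 := by
      refine h1.trans (le_of_eq ?_)
      simp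
    have h10 : dd B a n = 0 := by
      have := pow_eq_zero_iff (two_ne_zero) |>.1 (le_antisymm h9 (by positivity))
      exact norm_eq_zero.1 this
    rw [h10]
    refine ⟨?_, fun h => absurd rfl h⟩
    rw [norm_zero]
    positivity

lemma gp_supp {B : ℝ → ℝ} {a : ℝ} {X n : ℕ} (h : gp B a X n ≠ 0) : n.Prime ∧ n ≤ X := by
  unfold gp at h
  by_contra hc
  rw [if_neg hc] at h
  exact h rfl

lemma gp_le {B : ℝ → ℝ} {K : ℝ} (h : KD B K) {a : ℝ} (ha : 4 ≤ a) {X : ℕ} (hX : 2 ≤ X) (hXa : Real.log X ≤ 8 * a) (n : ℕ) :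
    ‖gp B a X n‖ ≤ 16 * (K * Real.pi) * (Real.log n / Real.log X) := by
  have hK := h.K1
  have hpi := Real.pi_pos
  have ha0 : 0 < a := by linarith
  have hlX : 0 < Real.log X := Real.log_pos (by exact_mod_cast (by omega : 1 < X))
  unfold gp
  split_ifs with hc
  · obtain ⟨hp, hnX⟩ := hc
    have hn : 1 ≤ n := hp.one_lt.le
    have hn0 : (0 : ℝ) < n := by exact_mod_cast hn
    have hln : 0 ≤ Real.log n := Real.log_nonneg (by exact_mod_cast hn)
    have h1 := dd_le h ha n hn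
    rw [if_neg (by tauto), mul_zero, add_zero, ArithmeticFunction.vonMangoldt_apply_prime hp] at h1
    have h2 : ‖gn B a n‖ ^ 2 ≤ (2 * (K * Real.pi / a) * Real.log n) ^ 2 := by
      unfold gn
      rw [norm_mul, mul_pow, Complex.norm_real, Real.norm_eq_abs, sq_abs, Real.sq_sqrt hn0.le]
      calc (n : ℝ) * ‖dd B a n‖ ^ 2 ≤ n * (2 * (K * Real.pi / a) ^ 2 * (Real.log n ^ 2 / n)) :=
            mul_le_mul_of_nonneg_left h1 hn0.le
        _ = 2 * ((K * Real.pi / a) ^ 2 * Real.log n ^ 2) := by field_simp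
        _ ≤ 4 * ((K * Real.pi / a) ^ 2 * Real.log n ^ 2) := by
            have : 0 ≤ (K * Real.pi / a) ^ 2 * Real.log n ^ 2 := by positivity
            linarith
        _ = _ := by ring
    have h3 := (pow_le_pow_iff_left₀ (norm_nonneg _) (by positivity) two_ne_zero).1 h2
    refine h3.trans ?_
    have h4 : 1 / a ≤ 8 / Real.log X := by
      rw [div_le_div_iff₀ ha0 hlX]
      linarith
    calc 2 * (K * Real.pi / a) * Real.log n = 2 * (K * Real.pi) * Real.log n * (1 / a) := by ring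
      _ ≤ 2 * (K * Real.pi) * Real.log n * (8 / Real.log X) := by gcongr
      _ = _ := by ring
  · rw [norm_zero]
    have : 0 ≤ Real.log n := Real.log_natCast_nonneg n
    positivity

lemma gs_supp {B : ℝ → ℝ} {a : ℝ} {X n : ℕ} (h : gs B a X n ≠ 0) : ¬ n.Prime ∧ (∃ p : ℕ, p.Prime ∧ n = p ^ 2) ∧ n ≤ X := by
  unfold gs at h
  by_contra hc
  rw [if_neg hc] at h
  exact h rfl

lemma gs_le {B : ℝ → ℝ} {K : ℝ} (h : KD B K) {a : ℝ} (ha : 4 ≤ a) {X : ℕ} (hXa : Real.log X ≤ 8 * a) (n : ℕ) :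
    ‖gs B a X n‖ ≤ 12 * (K * Real.pi) := by
  have hK := h.K1
  have hpi := Real.pi_pos
  by_cases hc : gs B a X n = 0
  · rw [hc, norm_zero]
    positivity
  · obtain ⟨hp, ⟨p, hpp, hn2⟩, hnX⟩ := gs_supp hc
    have hn : 1 ≤ n := by rw [hn2]; exact Nat.one_le_pow _ _ hpp.pos
    have hn0 : (0 : ℝ) < n := by exact_mod_cast hn
    have hna : Real.log n ≤ 8 * a := (Real.log_le_log hn0 (by exact_mod_cast hnX)).trans hXa
    have h1 := (dd_np h ha hn hp hna).1
    have hs : 0 < Real.sqrt n := Real.sqrt_pos.2 hn0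
    have e : gs B a X n = gn B a n := by
      unfold gs
      rw [if_pos ⟨hp, ⟨p, hpp, hn2⟩, hnX⟩]
    rw [e]
    unfold gn
    rw [norm_mul, Complex.norm_real, Real.norm_eq_abs, abs_of_pos hs]
    calc Real.sqrt n * ‖dd B a n‖ ≤ Real.sqrt n * (12 * (K * Real.pi) * (Real.sqrt n)⁻¹) :=
          mul_le_mul_of_nonneg_left h1 hs.le
      _ = _ := by field_simp

/-- the decomposition -/
lemma DDp_split {B : ℝ → ℝ} {K : ℝ} (h : KD B K) {a : ℝ} (ha : 4 ≤ a) {X : ℕ} (hXa : Real.log X ≤ 8 * a) (t : ℝ) :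
    ‖DDp B a X t‖ ≤ ‖dp X (gp B a X) t‖ + ‖dp X (gs B a X) t‖ + 48 * (K * Real.pi) * Z32 := by
  classical
  have hK := h.K1
  have hpi := Real.pi_pos
  have e1 : DDp B a X t = dp X (gp B a X) t + dp X (gs B a X) t +
      ∑ n ∈ (Icc 1 X).filter (fun n => ¬ n.Prime ∧ ¬ ∃ p : ℕ, p.Prime ∧ n = p ^ 2), dd B a n * (n : ℂ) ^ (-(t : ℂ) * I) := by
    unfold DDp dp
    rw [sum_filter, ← sum_add_distrib, ← sum_add_distrib]
    refine sum_congr rfl fun n hn => ?_
    have hn1 := (mem_Icc.1 hn).1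
    have hn2 := (mem_Icc.1 hn).2
    have e2 := gn_pow B a t hn1
    unfold gp gs
    by_cases c1 : n.Prime
    · rw [if_pos ⟨c1, hn2⟩, if_neg (by tauto), if_neg (by tauto), e2]
      ring
    · rw [if_neg (by tauto)]
      by_cases c2 : ∃ p : ℕ, p.Prime ∧ n = p ^ 2
      · rw [if_pos ⟨c1, c2, hn2⟩, if_neg (fun hh => hh.2 c2), e2]
        ring
      · rw [if_neg (fun hh => c2 hh.2.1), if_pos ⟨c1, c2⟩]
        ring
  rw [e1]
  refine (norm_add_le _ _).trans (add_le_add (norm_add_le _ _) ?_)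
  refine (norm_sum_le _ _).trans ?_
  have h2 : ∑ n ∈ (Icc 1 X).filter (fun n => ¬ n.Prime ∧ ¬ ∃ p : ℕ, p.Prime ∧ n = p ^ 2),
      ‖dd B a n * (n : ℂ) ^ (-(t : ℂ) * I)‖ ≤
      ∑ n ∈ (Icc 1 X).filter (fun n => ∃ p k : ℕ, p.Prime ∧ 3 ≤ k ∧ n = p ^ k), 12 * (K * Real.pi) * (Real.sqrt n)⁻¹ := by
    rw [sum_filter, sum_filter]
    refine sum_le_sum fun n hn => ?_
    have hn1 := (mem_Icc.1 hn).1
    have hn2 := (mem_Icc.1 hn).2
    have hn0 : (0 : ℝ) < n := by exact_mod_cast hn1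
    have hna : Real.log n ≤ 8 * a := (Real.log_le_log hn0 (by exact_mod_cast hn2)).trans hXa
    have hr : 0 ≤ (if ∃ p k : ℕ, p.Prime ∧ 3 ≤ k ∧ n = p ^ k then 12 * (K * Real.pi) * (Real.sqrt n)⁻¹ else 0) := by
      split_ifs
      · positivity
      · exact le_rfl
    by_cases c : ¬ n.Prime ∧ ¬ ∃ p : ℕ, p.Prime ∧ n = p ^ 2
    · rw [if_pos c]
      obtain ⟨h3, h4⟩ := dd_np h ha hn1 c.1 hna
      by_cases c3 : dd B a n = 0
      · rw [c3, zero_mul, norm_zero]
        exact hr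
      · have h5 := h4 c3
        rw [isPrimePow_nat_iff] at h5
        obtain ⟨p, k, hp, hk, hpk⟩ := h5
        have hk3 : 3 ≤ k := by
          by_contra hc
          have : k = 1 ∨ k = 2 := by omega
          rcases this with rfl | rfl
          · rw [pow_one] at hpk
            exact c.1 (hpk ▸ hp)
          · exact c.2 ⟨p, hp, hpk.symm⟩
        rw [if_pos ⟨p, k, hp, hk3, hpk.symm⟩, norm_mul]
        have h6 : ‖(n : ℂ) ^ (-(t : ℂ) * I)‖ = 1 := by
          rw [Complex.norm_natCast_cpow_of_pos (by omega)]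
          simp
        rw [h6, mul_one]
        exact h3
    · rw [if_neg c]
      exact hr
  refine h2.trans ?_
  rw [← mul_sum]
  calc 12 * (K * Real.pi) * ∑ n ∈ (Icc 1 X).filter (fun n => ∃ p k : ℕ, p.Prime ∧ 3 ≤ k ∧ n = p ^ k), (Real.sqrt (n : ℝ))⁻¹ ≤
      12 * (K * Real.pi) * (4 * Z32) := mul_le_mul_of_nonneg_left (cub_sum X) (by positivity)
    _ = _ := by ring

open Classical in
/-- the zeros near the end points -/
lemma edges2 : ∀ᶠ T : ℝ in atTop,
    ∑ s ∈ (Zf riemannZeta T (2 * T)).filter (fun s => ¬ (T + Real.log T ≤ s.im ∧ s.im ≤ 2 * T - Real.log T)), (mz s : ℝ) ≤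
      T ^ (1 / 4 : ℝ) := by
  obtain ⟨C, hC, h⟩ := Pool.Agent.H313.JG.NN_steps
  have h1 := (Real.isLittleO_log_id_atTop.def (c := 1 / 4) (by norm_num))
  have h2 := ((isLittleO_log_rpow_atTop (show (0:ℝ) < 1 / 8 by norm_num)).def (c := 1 / (1 + 40 * C)) (by positivity))
  filter_upwards [h1, h2, Real.tendsto_log_atTop.eventually_ge_atTop 8, eventually_ge_atTop (100:ℝ)] with T hT hT2 tL tT
  set L := Real.log T with hL
  rw [Real.norm_eq_abs, Real.norm_eq_abs, id, abs_of_pos (by linarith : 0 < T), abs_of_pos (by linarith : 0 < L)] at hT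
  rw [Real.norm_eq_abs, Real.norm_eq_abs, abs_of_pos (by linarith : 0 < L), abs_of_nonneg (by positivity)] at hT2
  have hT1 : L ≤ T / 4 := by linarith
  have hLL : 40 * C * L * L ≤ T ^ (1 / 4 : ℝ) := by
    have hp : 0 ≤ T ^ (1 / 8 : ℝ) := by positivity
    have e : T ^ (1 / 4 : ℝ) = T ^ (1 / 8 : ℝ) * T ^ (1 / 8 : ℝ) := by
      rw [← Real.rpow_add (by linarith)]; norm_num
    have h3 : (1 + 40 * C) * L ≤ T ^ (1 / 8 : ℝ) := by
      rw [div_mul_eq_mul_div, one_mul, le_div_iff₀ (by positivity)] at hT2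
      linarith
    have h4 : L ≤ (1 + 40 * C) * L := le_mul_of_one_le_left (by linarith) (by linarith)
    have h5 : 40 * C * L ≤ (1 + 40 * C) * L := mul_le_mul_of_nonneg_right (by linarith) (by linarith)
    rw [e]
    exact mul_le_mul (h5.trans h3) (h4.trans h3) (by linarith) hp
  set n := ⌈L + 3⌉₊ with hn
  have hn1 : L + 3 ≤ n := Nat.le_ceil _
  have hn2 : (n : ℝ) < L + 4 := by
    have := Nat.ceil_lt_add_one (by linarith : 0 ≤ L + 3)
    linarith
  have hlog : Real.log (3 * T) ≤ 2 * L := by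
    rw [Real.log_mul (by norm_num) (by linarith), ← hL]
    have : Real.log 3 ≤ 3 - 1 := Real.log_le_sub_one_of_pos (by norm_num)
    linarith
  have key : ∀ x : ℝ, 3 ≤ x → x + n ≤ 3 * T → (NN riemannZeta x (x + n) : ℝ) ≤ 20 * C * L * L := by
    intro x hx hx2
    refine (h x n hx).trans ?_
    have h4 : Real.log (x + n) ≤ 2 * L := (Real.log_le_log (by positivity) hx2).trans hlog
    have h5 : (n:ℝ) ≤ 2 * L := by linarith
    have h6 : 0 ≤ Real.log (x + n) := Real.log_nonneg (by linarith)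
    calc (n:ℝ) * (C * Real.log (x + n)) ≤ (2 * L) * (C * (2 * L)) := by gcongr
      _ = 4 * C * L * L := by ring
      _ ≤ 20 * C * L * L := by
          have : 0 ≤ C * L * L := by positivity
          linarith
  have k1 : (NN riemannZeta T (T + L + 3) : ℝ) ≤ 20 * C * L * L := by
    refine le_trans ?_ (key T (by linarith) (by linarith))
    have := NN_mono good_zeta (a := T) (b := T + L + 3) (a' := T) (b' := T + n) (by linarith) le_rfl (by linarith)
    exact_mod_cast this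
  have k2 : (NN riemannZeta (2 * T - L - 3) (2 * T) : ℝ) ≤ 20 * C * L * L := by
    refine le_trans ?_ (key (2 * T - L - 3) (by linarith) (by linarith))
    have := NN_mono good_zeta (a := 2 * T - L - 3) (b := 2 * T) (a' := 2 * T - L - 3) (b' := 2 * T - L - 3 + n)
      (by linarith) le_rfl (by linarith)
    exact_mod_cast this
  have hsub : (Zf riemannZeta T (2 * T)).filter (fun s => ¬ (T + L ≤ s.im ∧ s.im ≤ 2 * T - L)) ⊆
      Zf riemannZeta T (T + L + 3) ∪ Zf riemannZeta (2 * T - L - 3) (2 * T) := by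
    intro s hs
    rw [Finset.mem_filter] at hs
    obtain ⟨hs1, hs2⟩ := hs
    have h2 := (mem_Zf good_zeta (by linarith : 1 ≤ T)).mp hs1
    rw [Finset.mem_union]
    by_cases h3 : T + L ≤ s.im
    · right
      have h4 : 2 * T - L < s.im := by
        by_contra hc
        push Not at hc
        exact hs2 ⟨h3, hc⟩
      exact (mem_Zf good_zeta (by linarith)).mpr ⟨h2.1, h2.2.1, by linarith, h2.2.2.2.1, h2.2.2.2.2⟩
    · left
      push Not at h3
      exact (mem_Zf good_zeta (by linarith)).mpr ⟨h2.1, h2.2.1, h2.2.2.1, by linarith, h2.2.2.2.2⟩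
  have h3 : ∑ s ∈ (Zf riemannZeta T (2 * T)).filter (fun s => ¬ (T + L ≤ s.im ∧ s.im ≤ 2 * T - L)), (mz s : ℝ) ≤
      ∑ s ∈ Zf riemannZeta T (T + L + 3), (mz s : ℝ) + ∑ s ∈ Zf riemannZeta (2 * T - L - 3) (2 * T), (mz s : ℝ) := by
    refine (Finset.sum_le_sum_of_subset_of_nonneg hsub fun _ _ _ => Nat.cast_nonneg _).trans ?_
    have := Finset.sum_union_inter (s₁ := Zf riemannZeta T (T + L + 3))
      (s₂ := Zf riemannZeta (2 * T - L - 3) (2 * T)) (f := fun s => (mz s : ℝ))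
    rw [← this]
    have h3 : 0 ≤ ∑ s ∈ Zf riemannZeta T (T + L + 3) ∩ Zf riemannZeta (2 * T - L - 3) (2 * T),
      (mz s : ℝ) := Finset.sum_nonneg fun _ _ => Nat.cast_nonneg _
    linarith
  have e1 : ∑ s ∈ Zf riemannZeta T (T + L + 3), (mz s : ℝ) = NN riemannZeta T (T + L + 3) := by
    rw [NN_eq good_zeta (by linarith)]
    push_cast
    rfl
  have e2 : ∑ s ∈ Zf riemannZeta (2 * T - L - 3) (2 * T), (mz s : ℝ) =
      NN riemannZeta (2 * T - L - 3) (2 * T) := by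
    rw [NN_eq good_zeta (by linarith)]
    push_cast
    rfl
  rw [e1, e2] at h3
  linarith

end

end Pool.Agent.H313.SL
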