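import Pool.Agent.H313.SL.Arg2
import Pool.Agent.H313.JG.Asm
import Pool.Graph.R_pool_sql_team_seeded_3997aac3.Q97.UM.Base7
import Pool.Graph.R_pool_sql_team_seeded_3997aac3.Q97.UM.Base10

set_option autoImplicit false

/-! The remainder term of the counting function of the zeros at the zeros, in mean square relative to a coherent state. -/

namespace Pool.Agent.H313.SL

open Filter Topology MeasureTheory Complex Finset
open H370 (zset mult NN Zf zz mem_Zf good_zeta zz_im NN_eq NN_add NN_mono zcount nn_asymp)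
open Pool.Agent.Y745.SW (P_KER Py)
open Pool.Agent.K4H8.JG
open Pool.Agent.Q97.UM (SS ZD mz dp N2 cv pc b_SSZ b_SAMP b_PMD dp_ext_top)

noncomputable section

open Classical in
/-- the difference at a zero -/
def DA (δ T : ℝ) (s : ℂ) : ℝ := if T + Real.log T ≤ s.im ∧ s.im ≤ 2 * T - Real.log T then
  |E1 s.im - (Py (T ^ δ) s.im).im / Real.pi| else T ^ (1 / 4 : ℝ)

lemma dp_smul (M : ℕ) (c : ℂ) (f : ℕ → ℂ) (t : ℝ) : dp M (fun n => c * f n) t = c * dp M f t := by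
  unfold dp
  rw [mul_sum]
  exact sum_congr rfl fun n _ => by ring

lemma four_sq (x y z w : ℝ) : (x + y + z + w) ^ 2 ≤ 4 * (x ^ 2 + y ^ 2 + z ^ 2 + w ^ 2) := by
  nlinarith [sq_nonneg (x - y), sq_nonneg (x - z), sq_nonneg (x - w), sq_nonneg (y - z), sq_nonneg (y - w), sq_nonneg (z - w)]

/-- the sum over the squares of the primes -/
lemma sq_bound {θs T : ℝ} (hL : 0 ≤ Real.log T)
    (samp : ∀ (K : ℕ) (f : ℕ → ℂ), (K : ℝ) ≤ T ^ θs →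
      ∑ s ∈ Zf riemannZeta T (2 * T), (mz s : ℝ) * ‖dp K f s.im‖ ^ 2 ≤ 2 * Real.log T * (T * N2 K f)) (hT : 0 ≤ T)
    {B : ℝ → ℝ} {K : ℝ} (h : KD B K) {a : ℝ} (ha : 4 ≤ a) {X N : ℕ} (hXa : Real.log X ≤ 8 * a)
    (hXN : ((X ^ 2 * N : ℕ) : ℝ) ≤ T ^ θs) {b : ℕ → ℂ} (hb : ∀ n, b n ≠ 0 → 1 ≤ n ∧ n ≤ N) {C' : ℝ} (hq : SqB C' X N b) :
    ∑ s ∈ Zf riemannZeta T (2 * T), (mz s : ℝ) * (‖dp X (gs B a X) s.im‖ ^ 2 * ‖dp N b s.im‖ ^ 2) ≤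
      288 * (K * Real.pi) ^ 2 * C' * (Real.log T * (T * N2 N b)) := by
  have hK := h.K1
  have hpi := Real.pi_pos
  have hc0 : 0 < 12 * (K * Real.pi) := by positivity
  obtain ⟨c, hc⟩ : ∃ c : ℝ, c = 12 * (K * Real.pi) := ⟨_, rfl⟩
  have hcc : 0 < c := by rw [hc]; exact hc0
  have hccC : (c : ℂ) ≠ 0 := by exact_mod_cast hcc.ne'
  obtain ⟨g, hg⟩ : ∃ g : ℕ → ℂ, g = fun n => (c : ℂ)⁻¹ * gs B a X n := ⟨_, rfl⟩
  have hg1 : ∀ n, ‖g n‖ ≤ 1 := by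
    intro n
    rw [hg]
    simp only
    rw [norm_mul, norm_inv, Complex.norm_real, Real.norm_eq_abs, abs_of_pos hcc, inv_mul_le_iff₀ hcc, mul_one, hc]
    exact gs_le h ha hXa n
  have hg2 : ∀ n, g n ≠ 0 → ∃ p : ℕ, p.Prime ∧ p ≤ X ∧ n = p ^ 2 := by
    intro n hn
    rw [hg] at hn
    obtain ⟨_, ⟨p, hp, hpn⟩, hnX⟩ := gs_supp (right_ne_zero_of_mul hn)
    refine ⟨p, hp, ?_, hpn⟩
    have : p ≤ p ^ 2 := Nat.le_self_pow two_ne_zero p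
    omega
  have hgX : ∀ n, gs B a X n ≠ 0 → 1 ≤ n ∧ n ≤ X := by
    intro n hn
    obtain ⟨_, ⟨p, hp, hpn⟩, hnX⟩ := gs_supp hn
    refine ⟨?_, hnX⟩
    rw [hpn]
    exact Nat.one_le_pow _ _ hp.pos
  have hX2 : X ≤ X ^ 2 := Nat.le_self_pow two_ne_zero X
  have e1 : ∀ t : ℝ, ‖dp X (gs B a X) t‖ ^ 2 * ‖dp N b t‖ ^ 2 = c ^ 2 * ‖dp (X ^ 2 * N) (cv g b) t‖ ^ 2 := by
    intro t
    have h1 := Pool.Agent.Q84.UM.t_DPM.1 (X ^ 2) N g b t (fun n hn => by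
      by_contra hc2
      obtain ⟨p, hp, hpX, hpn⟩ := hg2 n hc2
      have : p ^ 2 ≤ X ^ 2 := Nat.pow_le_pow_left hpX 2
      omega) (fun n hn => by
      by_contra hc2
      have := (hb n hc2).2
      omega)
    rw [← h1, ← dp_ext_top hX2 hgX t]
    have h2 : dp (X ^ 2) (gs B a X) t = (c : ℂ) * dp (X ^ 2) g t := by
      rw [hg, dp_smul, ← mul_assoc, mul_inv_cancel₀ hccC, one_mul]
    rw [h2, norm_mul, norm_mul, Complex.norm_real, Real.norm_eq_abs, abs_of_pos hcc]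
    ring
  have h3 := samp (X ^ 2 * N) (cv g b) hXN
  have h4 := hq g hg1 hg2
  calc ∑ s ∈ Zf riemannZeta T (2 * T), (mz s : ℝ) * (‖dp X (gs B a X) s.im‖ ^ 2 * ‖dp N b s.im‖ ^ 2) =
      c ^ 2 * ∑ s ∈ Zf riemannZeta T (2 * T), (mz s : ℝ) * ‖dp (X ^ 2 * N) (cv g b) s.im‖ ^ 2 := by
        rw [mul_sum]
        refine sum_congr rfl fun s _ => ?_
        rw [e1]
        ring
    _ ≤ c ^ 2 * (2 * Real.log T * (T * (C' * N2 N b))) := by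
        refine mul_le_mul_of_nonneg_left (h3.trans ?_) (by positivity)
        gcongr
    _ = _ := by rw [hc]; ring

theorem arg_ms : ∃ θ δ₀ : ℝ, 0 < θ ∧ 0 < δ₀ ∧ ∀ δ : ℝ, 0 < δ → δ ≤ δ₀ → ∀ C' : ℝ, 0 ≤ C' → ∃ C : ℝ, 0 ≤ C ∧ ∀ᶠ T : ℝ in atTop,
      ∀ N : ℕ, (N : ℝ) ≤ T ^ θ → ∀ b : ℕ → ℂ, (∀ n, b n ≠ 0 → 1 ≤ n ∧ n ≤ N) → SqB C' ⌊T ^ δ⌋₊ N b →
        ∑ s ∈ Zf riemannZeta T (2 * T), (mz s : ℝ) * (DA δ T s ^ 2 * ‖dp N b s.im‖ ^ 2) ≤ C * Real.log T * (T * N2 N b) := by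
  obtain ⟨B, K, hKD⟩ := exists_KD Pool.Agent.Y248.SW.t_KER
  obtain ⟨θz, δz, Cz, hθz, hδz, hCz, hSSZ⟩ := b_SSZ
  obtain ⟨θs, hθs, hθs1, hS⟩ := b_SAMP 1 one_pos
  obtain ⟨θp, hθp, hθp1, hPMD⟩ := b_PMD
  have hK := hKD.K1
  have hpi := Real.pi_pos
  have hZ := Z32_nonneg
  refine ⟨min (min θz (θs / 2)) (min θp (1 / 8)), min (min (1 / 8) δz) (min (θs / 4) θp), by positivity, by positivity,
    fun δ hδ hδ₀ C' hC' => ?_⟩
  have hδ1 : δ ≤ 1 / 8 := hδ₀.trans ((min_le_left _ _).trans (min_le_left _ _))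
  have hδ2 : δ ≤ δz := hδ₀.trans ((min_le_left _ _).trans (min_le_right _ _))
  have hδ3 : δ ≤ θs / 4 := hδ₀.trans ((min_le_right _ _).trans (min_le_left _ _))
  have hδ4 : δ ≤ θp := hδ₀.trans ((min_le_right _ _).trans (min_le_right _ _))
  obtain ⟨τ, hτd⟩ : ∃ τ, τ = δ / 8 := ⟨_, rfl⟩
  have hτ : 0 < τ := by rw [hτd]; positivity
  have hτ1 : τ ≤ 1 / 32 := by rw [hτd]; linarith
  have hτδ : 8 * τ = δ := by rw [hτd]; ring
  obtain ⟨C3, T3, hC3, hT3, hptw⟩ := ptw1 Pool.Agent.H313.JG.rv hKD hτ hτ1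
  obtain ⟨CP, hCP, hP⟩ := hPMD 1 (16 * (K * Real.pi)) δ (δ / 2) (by positivity) (by positivity) (by linarith)
    (by push_cast; linarith)
  obtain ⟨c₁, hc₁⟩ : ∃ c₁, c₁ = K * Real.pi * (2 / τ ^ 2) + 2 * (4 * K / τ ^ 2) := ⟨_, rfl⟩
  obtain ⟨c₂, hc₂⟩ : ∃ c₂, c₂ = C3 + 48 * (K * Real.pi) * Z32 := ⟨_, rfl⟩
  have hc₁0 : 0 ≤ c₁ := by rw [hc₁]; positivity
  have hc₂0 : 0 ≤ c₂ := by rw [hc₂]; positivity
  refine ⟨4 * (c₁ ^ 2 * Cz + CP + 288 * (K * Real.pi) ^ 2 * C' + 2 * c₂ ^ 2) + 1, by positivity, ?_⟩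
  have hpow : Tendsto (fun T : ℝ => T ^ (δ / 2)) atTop atTop := tendsto_rpow_atTop (by positivity)
  have hlog : ∀ᶠ T : ℝ in atTop, 4 ≤ τ * Real.log T := (Real.tendsto_log_atTop.const_mul_atTop hτ).eventually_ge_atTop 4
  filter_upwards [hSSZ, hS, hP, edges2, eventually_ge_atTop T3, eventually_ge_atTop (16 : ℝ), hpow.eventually_ge_atTop 2, hlog,
    Real.tendsto_log_atTop.eventually_ge_atTop 1] with T hSSZ hS hP hE hT3' hT16 hT2 ha4 hL1 N hN b hb hq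
  classical
  have hT0 : 0 < T := by linarith
  have hT1 : 1 ≤ T := by linarith
  have hmono : ∀ {x y : ℝ}, x ≤ y → T ^ x ≤ T ^ y := fun h => Real.rpow_le_rpow_of_exponent_le hT1 h
  have hNz : (N : ℝ) ≤ T ^ θz := hN.trans (hmono ((min_le_left _ _).trans (min_le_left _ _)))
  have hNs : (N : ℝ) ≤ T ^ (θs / 2) := hN.trans (hmono ((min_le_left _ _).trans (min_le_right _ _)))
  have hNp : (N : ℝ) ≤ T ^ θp := hN.trans (hmono ((min_le_right _ _).trans (min_le_left _ _)))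
  have hN8 : (N : ℝ) ≤ T ^ (1 / 8 : ℝ) := hN.trans (hmono ((min_le_right _ _).trans (min_le_right _ _)))
  have hNs1 : (N : ℝ) ≤ T ^ θs := hNs.trans (hmono (by linarith))
  set L := Real.log T with hL
  have hL0 : 0 < L := by linarith
  set F := Zf riemannZeta T (2 * T) with hF
  obtain ⟨X, hX⟩ : ∃ X, X = ⌊T ^ δ⌋₊ := ⟨_, rfl⟩
  have hXle : (X : ℝ) ≤ T ^ δ := by rw [hX]; exact Nat.floor_le (by positivity)
  have hTd : T ^ δ = T ^ (δ / 2) * T ^ (δ / 2) := by rw [← Real.rpow_add hT0]; congr 1; ring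
  have hXge : T ^ (δ / 2) ≤ X := by
    have h1 : T ^ δ - 1 < X := by rw [hX]; exact Nat.sub_one_lt_floor _
    have h2 : 2 * T ^ (δ / 2) ≤ T ^ δ := by
      rw [hTd]
      exact mul_le_mul_of_nonneg_right hT2 (by positivity)
    linarith
  have hX2 : 2 ≤ X := by
    have : (2 : ℝ) ≤ X := hT2.trans hXge
    exact_mod_cast this
  have hX0 : (0 : ℝ) < X := by
    have : (2 : ℝ) ≤ X := by exact_mod_cast hX2
    linarith
  have hXa : Real.log X ≤ 8 * (τ * L) := by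
    have h1 : Real.log X ≤ Real.log (T ^ δ) := Real.log_le_log hX0 hXle
    rw [Real.log_rpow hT0] at h1
    calc Real.log X ≤ δ * L := h1
      _ = 8 * (τ * L) := by rw [← hτδ]; ring
  have samp : ∀ (M : ℕ) (f : ℕ → ℂ), (M : ℝ) ≤ T ^ θs → ∑ s ∈ F, (mz s : ℝ) * ‖dp M f s.im‖ ^ 2 ≤ 2 * L * (T * N2 M f) := by
    intro M f hM
    have h1 := (abs_le.1 (hS M hM f).2.2).2
    have h2 : L / (2 * Real.pi) * (T * N2 M f) ≤ L * (T * N2 M f) := by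
      have h3 : 0 ≤ T * N2 M f := by unfold N2; positivity
      apply mul_le_mul_of_nonneg_right _ h3
      apply div_le_self hL0.le
      linarith [Real.pi_gt_three]
    linarith
  have hX2N : ((X ^ 2 * N : ℕ) : ℝ) ≤ T ^ θs := by
    push_cast
    calc (X : ℝ) ^ 2 * N ≤ (T ^ δ) ^ 2 * T ^ (θs / 2) := by gcongr
      _ = T ^ (δ * 2 + θs / 2) := by rw [← Real.rpow_natCast, ← Real.rpow_mul hT0.le, ← Real.rpow_add hT0]; norm_num
      _ ≤ T ^ θs := hmono (by linarith)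
  have s1 := hSSZ N hNz b
  have s2 := hP N X hNp hXge hXle b (gp B (τ * L) X) (fun n hn => gp_supp hn) (fun n => gp_le hKD ha4 hX2 hXa n)
  have s3 := sq_bound hL0.le samp hT0.le hKD ha4 hXa hX2N hb (by rw [hX]; exact hq)
  have s4 := samp N b hNs1
  have hN2 : 0 ≤ N2 N b := by unfold N2; positivity
  obtain ⟨U1, U2, hU1, hU1', hU2, hU2', hpt⟩ := hptw T hT3'
  -- pointwise
  have hpw : ∀ s ∈ F, DA δ T s ^ 2 ≤ 4 * (c₁ ^ 2 * SS δz T s.im ^ 2 + ‖dp X (gp B (τ * L) X) s.im‖ ^ (2 * 1) +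
      ‖dp X (gs B (τ * L) X) s.im‖ ^ 2 + c₂ ^ 2) +
      (if ¬ (T + L ≤ s.im ∧ s.im ≤ 2 * T - L) then T ^ (1 / 2 : ℝ) else 0) := by
    intro s _
    unfold DA
    by_cases hc : T + L ≤ s.im ∧ s.im ≤ 2 * T - L
    · rw [if_pos hc, if_neg (by tauto), add_zero]
      have h1 := hpt s.im hc.1 hc.2
      rw [hτδ] at h1
      have h2 : WW1 B K C3 T (τ * L) (T ^ δ) U1 U2 s.im ≤ c₁ * SS δz T s.im + ‖dp X (gp B (τ * L) X) s.im‖ +
          ‖dp X (gs B (τ * L) X) s.im‖ + c₂ := by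
        unfold WW1
        rw [← hX]
        have h3 := W0_le_SS hT16 hτ (by linarith) s.im
        have h4 := MZ_le_SS hT16 hτ (by linarith) (by linarith : 0 ≤ K) hU1 hU2' s.im
        have h5 := DDp_split hKD ha4 hXa s.im
        have h6 := SS_mono (δ := τ) (δ' := δz) (by linarith) hT1 s.im
        rw [← hL] at h3 h4
        have h7 : K * Real.pi * W0 T (τ * L) s.im ≤ K * Real.pi * (2 / τ ^ 2 * SS δz T s.im) := by
          refine mul_le_mul_of_nonneg_left (h3.trans ?_) (by positivity)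
          exact mul_le_mul_of_nonneg_left h6 (by positivity)
        have h8 : MZ K (τ * L) U1 U2 s.im ≤ 4 * K / τ ^ 2 * SS δz T s.im :=
          h4.trans (mul_le_mul_of_nonneg_left h6 (by positivity))
        rw [hc₁, hc₂]
        linarith
      have h9 := h1.trans h2
      refine (pow_le_pow_left₀ (abs_nonneg _) h9 2).trans ((four_sq _ _ _ _).trans (le_of_eq ?_))
      ring
    · rw [if_neg hc, if_pos hc]
      have h1 : (T ^ (1 / 4 : ℝ)) ^ 2 = T ^ (1 / 2 : ℝ) := by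
        rw [← Real.rpow_natCast, ← Real.rpow_mul hT0.le]
        norm_num
      rw [h1]
      have h2 : 0 ≤ 4 * (c₁ ^ 2 * SS δz T s.im ^ 2 + ‖dp X (gp B (τ * L) X) s.im‖ ^ (2 * 1) +
        ‖dp X (gs B (τ * L) X) s.im‖ ^ 2 + c₂ ^ 2) := by positivity
      exact le_add_of_nonneg_left h2
  -- the edges
  have hB : ∀ t : ℝ, ‖dp N b t‖ ^ 2 ≤ T ^ (1 / 8 : ℝ) * N2 N b := fun t =>
    (Pool.Agent.Q84.UM.t_DPM.2.2 N b t).1.trans (mul_le_mul_of_nonneg_right hN8 hN2)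
  have hedge : ∑ s ∈ F, (mz s : ℝ) * ((if ¬ (T + L ≤ s.im ∧ s.im ≤ 2 * T - L) then T ^ (1 / 2 : ℝ) else 0) * ‖dp N b s.im‖ ^ 2) ≤
      L * (T * N2 N b) := by
    have h1 : ∀ s ∈ F, (mz s : ℝ) * ((if ¬ (T + L ≤ s.im ∧ s.im ≤ 2 * T - L) then T ^ (1 / 2 : ℝ) else 0) * ‖dp N b s.im‖ ^ 2) ≤
        (T ^ (1 / 2 : ℝ) * (T ^ (1 / 8 : ℝ) * N2 N b)) * (if ¬ (T + L ≤ s.im ∧ s.im ≤ 2 * T - L) then (mz s : ℝ) else 0) := by
      intro s _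
      split_ifs
      · rw [zero_mul, mul_zero, mul_zero]
      · calc (mz s : ℝ) * (T ^ (1 / 2 : ℝ) * ‖dp N b s.im‖ ^ 2) ≤ (mz s : ℝ) * (T ^ (1 / 2 : ℝ) * (T ^ (1 / 8 : ℝ) * N2 N b)) := by
              have := hB s.im
              gcongr
          _ = _ := by ring
    refine (sum_le_sum h1).trans ?_
    rw [← mul_sum, ← sum_filter]
    calc T ^ (1 / 2 : ℝ) * (T ^ (1 / 8 : ℝ) * N2 N b) *
          ∑ s ∈ F.filter (fun s => ¬ (T + L ≤ s.im ∧ s.im ≤ 2 * T - L)), (mz s : ℝ) ≤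
        T ^ (1 / 2 : ℝ) * (T ^ (1 / 8 : ℝ) * N2 N b) * T ^ (1 / 4 : ℝ) := mul_le_mul_of_nonneg_left hE (by positivity)
      _ = (T ^ (1 / 2 : ℝ) * T ^ (1 / 8 : ℝ) * T ^ (1 / 4 : ℝ)) * N2 N b := by ring
      _ = T ^ (7 / 8 : ℝ) * N2 N b := by
          rw [← Real.rpow_add hT0, ← Real.rpow_add hT0]
          norm_num
      _ ≤ T ^ (1 : ℝ) * N2 N b := mul_le_mul_of_nonneg_right (hmono (by norm_num)) hN2
      _ = 1 * (T * N2 N b) := by rw [Real.rpow_one]; ring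
      _ ≤ L * (T * N2 N b) := mul_le_mul_of_nonneg_right hL1 (by positivity)
  calc ∑ s ∈ F, (mz s : ℝ) * (DA δ T s ^ 2 * ‖dp N b s.im‖ ^ 2) ≤
      ∑ s ∈ F, (4 * (c₁ ^ 2 * ((mz s : ℝ) * (SS δz T s.im ^ 2 * ‖dp N b s.im‖ ^ 2)) +
        (mz s : ℝ) * (‖dp X (gp B (τ * L) X) s.im‖ ^ (2 * 1) * ‖dp N b s.im‖ ^ 2) +
        (mz s : ℝ) * (‖dp X (gs B (τ * L) X) s.im‖ ^ 2 * ‖dp N b s.im‖ ^ 2) +
        c₂ ^ 2 * ((mz s : ℝ) * ‖dp N b s.im‖ ^ 2)) +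
        (mz s : ℝ) * ((if ¬ (T + L ≤ s.im ∧ s.im ≤ 2 * T - L) then T ^ (1 / 2 : ℝ) else 0) * ‖dp N b s.im‖ ^ 2)) := by
        refine sum_le_sum fun s hs => ?_
        have h1 := hpw s hs
        have h2 : (0 : ℝ) ≤ (mz s : ℝ) * ‖dp N b s.im‖ ^ 2 := by positivity
        have h3 := mul_le_mul_of_nonneg_left h1 h2
        refine (le_of_eq ?_).trans (h3.trans (le_of_eq ?_))
        · ring
        · ring
    _ = 4 * (c₁ ^ 2 * ∑ s ∈ F, (mz s : ℝ) * (SS δz T s.im ^ 2 * ‖dp N b s.im‖ ^ 2) +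
        ∑ s ∈ F, (mz s : ℝ) * (‖dp X (gp B (τ * L) X) s.im‖ ^ (2 * 1) * ‖dp N b s.im‖ ^ 2) +
        ∑ s ∈ F, (mz s : ℝ) * (‖dp X (gs B (τ * L) X) s.im‖ ^ 2 * ‖dp N b s.im‖ ^ 2) +
        c₂ ^ 2 * ∑ s ∈ F, (mz s : ℝ) * ‖dp N b s.im‖ ^ 2) +
        ∑ s ∈ F, (mz s : ℝ) * ((if ¬ (T + L ≤ s.im ∧ s.im ≤ 2 * T - L) then T ^ (1 / 2 : ℝ) else 0) * ‖dp N b s.im‖ ^ 2) := by
        rw [sum_add_distrib, ← mul_sum, sum_add_distrib, sum_add_distrib, sum_add_distrib, ← mul_sum, ← mul_sum]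
    _ ≤ 4 * (c₁ ^ 2 * (Cz * L * (T * N2 N b)) + CP * L * (T * N2 N b) +
        288 * (K * Real.pi) ^ 2 * C' * (L * (T * N2 N b)) + c₂ ^ 2 * (2 * L * (T * N2 N b))) + L * (T * N2 N b) := by
        gcongr
    _ = _ := by ring

end

end Pool.Agent.H313.SL
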