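import Pool.Agent.H313.SL.Tw

set_option autoImplicit false

/-! Complex coherent states, part 2 (after Q38.UM.COH). -/

namespace Pool.Agent.H313.SL

open Filter Topology Complex
open Pool.Agent.Q97.UM Pool.Agent.Q190.UM Pool.Agent.Q38.UM

noncomputable section

/-- complex coherent states: `P` is close to `conj ω * k * S` -/
def S_COHC : Prop := ∀ (k θ : ℝ) (ω : ℂ), ‖ω‖ = 1 → 0 < θ → θ ≤ 1 → ∃ C : ℝ, 0 ≤ C ∧ ∀ᶠ T : ℝ in atTop,
  ∃ (X N : ℕ) (e : ℕ → ℂ), 1 ≤ X ∧ (X : ℝ) ≤ T ^ θ ∧ (N : ℝ) ≤ T ^ θ ∧ (∀ n, e n ≠ 0 → 1 ≤ n ∧ n ≤ N) ∧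
  Real.exp (k ^ 2 * Real.log (Real.log T) - C * Real.log (Real.log (Real.log T))) ≤ N2 N e ∧
  (∀ t : ℝ, ‖dp X (pc X) t‖ ≤ 2 * (|k| + 1) * Real.log (Real.log T) → ‖dp N e t‖ ≤ 2 * Real.exp (k * (ω * dp X (pc X) t).re)) ∧
  ∀ X' : ℕ, X ≤ X' → (X' : ℝ) ≤ T →
    N2 (X' * N) (fun n => cv (pc X') e n - (starRingEnd ℂ ω * ((k * Real.log (Real.log T) : ℝ) : ℂ)) * e n) ≤
      C * Real.log (Real.log T) * N2 N e ∧ SqB C X' N e

/-- complex coherent states -/
theorem t_COHC (hD : S_DPM) (hTX : S_TEX) : S_COHC := by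
  intro k θ ω hω hθ0 hθ1
  obtain ⟨CM, hCM'⟩ := Pool.Agent.Helper601.Mertens.mertens_inv
  have hCM : ∀ N : ℕ, 3 ≤ N → |SX N - Real.log (Real.log N)| ≤ CM := hCM'
  have hCM0 : 0 ≤ CM := (abs_nonneg _).trans (hCM 3 le_rfl)
  have hll : Tendsto (fun T : ℝ => Real.log (Real.log T)) atTop atTop :=
    Real.tendsto_log_atTop.comp Real.tendsto_log_atTop
  have hlog1 : ∀ {S : ℝ}, 3 ≤ S → 1 ≤ Real.log S := by
    intro S hS
    rw [Real.le_log_iff_exp_le (by linarith)]
    exact Real.exp_one_lt_three.le.trans hS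
  rcases eq_or_ne k 0 with hk | hk
  · subst hk
    refine ⟨2 + CM, by positivity, ?_⟩
    filter_upwards [hll.eventually_ge_atTop 3, eventually_ge_atTop (3 : ℝ)] with T hS hT
    have hT1 : (1 : ℝ) ≤ T ^ θ := Real.one_le_rpow (by linarith) hθ0.le
    have hN0 : 0 ≤ N2 1 (ee 0 1 0) := by
      rw [N2_ee]
      exact Finset.sum_nonneg fun _ _ => by positivity
    refine ⟨1, 1, tw ω (ee 0 1 0), le_rfl, by simpa using hT1, by simpa using hT1, fun n hn => ?_, ?_, ?_, ?_⟩
    · simpa using ee_supp le_rfl (tw_ne hn)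
    · have h1 := N2_zero
      rw [one_pow] at h1
      rw [N2_tw hω, h1, Real.exp_le_one_iff]
      have h2 := hlog1 hS
      have h3 : 0 ≤ (2 + CM) * Real.log (Real.log (Real.log T)) := by positivity
      linarith
    · intro t _
      have h1 := dp_tw hD ω 0 (X := 1) (K := 0) le_rfl t
      rw [one_pow] at h1
      rw [h1]
      simp [TEx]
    · intro X' _ hX'
      constructor
      · have h1 := coh_zero hCM0 hCM hD hT hS hX'
        rw [one_pow] at h1
        rw [N2_main_tw hω, N2_tw hω]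
        refine h1.trans (mul_le_mul_of_nonneg_right ?_ ?_)
        · exact mul_le_mul_of_nonneg_right (by linarith) (by linarith)
        · exact hN0
      · have h1 := SqB_tw hω 0 (X := 1) (K := 0) (X' := X') (C := 2 + CM) le_rfl (by norm_num; linarith)
        rw [one_pow] at h1
        exact h1
  · set A : ℝ := (|k| + 1) ^ 2 with hA
    have hk0 : 0 ≤ |k| := abs_nonneg k
    have hA1 : 1 ≤ A := by rw [hA]; nlinarith
    have hkA : k ^ 2 ≤ A := by
      rw [hA, ← sq_abs k]
      exact pow_le_pow_left₀ hk0 (by linarith) 2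
    have hkA2 : |k| * (|k| + 1) ≤ A := by rw [hA]; nlinarith
    have hk2 : 0 < k ^ 2 := by positivity
    set C2 : ℝ := Real.log (42 * A) - Real.log θ + CM with hC2
    have hC20 : 0 ≤ C2 := by
      have h1 : 0 ≤ Real.log (42 * A) := Real.log_nonneg (by linarith)
      have h2 : Real.log θ ≤ 0 := Real.log_nonpos hθ0.le hθ1
      rw [hC2]
      linarith
    set G : ℝ := k ^ 2 * (1 + CM) + 4 * k ^ 4 * (1 + C2) ^ 2 with hG
    have hG0 : 0 ≤ G := by positivity
    set C : ℝ := (k ^ 2 + k ^ 2 * C2 + k ^ 4 + 1) + (16 / k ^ 2 * Real.exp (k ^ 4) * G + 2 * (1 + CM)) +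
      (2 + 4 * k ^ 4) with hC
    have hC0 : 0 ≤ C := by positivity
    refine ⟨C, hC0, ?_⟩
    filter_upwards [hll.eventually_ge_atTop (3 + 84 * A / θ + (2 * A * CM + 1 + k ^ 4)),
      eventually_ge_atTop (3 : ℝ)] with T hS hT
    obtain ⟨S, hSd⟩ : ∃ S, S = Real.log (Real.log T) := ⟨_, rfl⟩
    rw [← hSd] at hS ⊢
    have z1 : 0 ≤ 84 * A / θ := by positivity
    have z2 : 0 ≤ 2 * A * CM + 1 + k ^ 4 := by positivity
    have hS3 : 3 ≤ S := by linarith
    have hS0 : 0 < S := by linarith
    have hS1 : 84 * A / θ ≤ S := by linarith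
    have hS2 : 2 * A * CM + 1 + k ^ 4 ≤ S := by linarith
    obtain ⟨K, X, hK1, hK2, hX3, hXT, hNT, hSX⟩ := sizes hCM0 hCM hA1 hθ0 hθ1 hT hSd hS3 hS1
    have hlS := hlog1 hS3
    have hX1 : 1 ≤ X := by omega
    set x : ℝ := k ^ 2 * SX X with hx
    have hSXn := SX_nonneg X
    have hx0 : 0 ≤ x := by positivity
    have hTθ : T ^ θ ≤ T := by
      calc T ^ θ ≤ T ^ (1 : ℝ) := Real.rpow_le_rpow_of_exponent_le (by linarith) hθ1
        _ = T := Real.rpow_one T
    have hSXu : ∀ {X' : ℕ}, (X' : ℝ) ≤ T → SX X' ≤ S + CM := by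
      intro X' hX'
      have := SX_le hCM hT hX'
      rwa [← hSd] at this
    have hxu : x ≤ k ^ 2 * (S + CM) := mul_le_mul_of_nonneg_left (hSXu (hXT.trans hTθ)) hk2.le
    set L : ℝ := N2 (X ^ K) (ee k X K) with hL
    have hL0 : 0 ≤ L := by
      rw [hL, N2_ee]
      exact Finset.sum_nonneg fun _ _ => by positivity
    -- the lower bound
    have hlow : Real.exp (-k ^ 4) * Real.exp x ≤ 2 * L := by
      have h1 := EA_low k X K hX1
      rw [← N2_ee, ← hL] at h1
      have h2 : Real.exp (-(K : ℝ)) * Real.exp (Real.exp 1 * k ^ 2 * SX X) ≤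
          1 / 2 * (Real.exp (-k ^ 4) * Real.exp x) := by
        rw [← Real.exp_add, ← Real.exp_add]
        have h3 : (1 / 2 : ℝ) = Real.exp (-Real.log 2) := by
          rw [Real.exp_neg, Real.exp_log (by norm_num)]; norm_num
        rw [h3, ← Real.exp_add]
        refine Real.exp_le_exp.2 ?_
        have h4 : Real.log 2 ≤ 1 := by
          have := Real.log_two_lt_d9
          linarith
        have h5 := Real.exp_one_lt_three
        have h6 : Real.exp 1 * k ^ 2 * SX X ≤ 3 * x := by
          rw [mul_assoc]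
          exact mul_le_mul_of_nonneg_right h5.le hx0
        have h7 : 2 * x ≤ 2 * (A * (S + CM)) := by
          have : k ^ 2 * (S + CM) ≤ A * (S + CM) := mul_le_mul_of_nonneg_right hkA (by linarith)
          linarith
        have h8 : S ≤ A * S := le_mul_of_one_le_left hS0.le hA1
        linarith
      have h3 : Real.exp (k ^ 2 * SX X) = Real.exp x := rfl
      rw [h3] at h1
      linarith
    have hexp : Real.exp x ≤ 2 * Real.exp (k ^ 4) * L := by
      have h1 : Real.exp (k ^ 4) * (Real.exp (-k ^ 4) * Real.exp x) = Real.exp x := by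
        rw [← mul_assoc, ← Real.exp_add]
        simp
      calc Real.exp x = Real.exp (k ^ 4) * (Real.exp (-k ^ 4) * Real.exp x) := h1.symm
        _ ≤ Real.exp (k ^ 4) * (2 * L) := mul_le_mul_of_nonneg_left hlow (Real.exp_pos _).le
        _ = _ := by ring
    refine ⟨X, X ^ K, tw ω (ee k X K), hX1, hXT, hNT, fun n hn => ee_supp hX1 (tw_ne hn), ?_, ?_, ?_⟩
    · -- the size
      rw [N2_tw hω]
      have h1 := (abs_le.1 hSX).1
      have h2 : k ^ 2 * (S - Real.log S - C2) ≤ x := mul_le_mul_of_nonneg_left (by linarith) hk2.le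
      have h3 : Real.exp (k ^ 2 * S - C * Real.log S) ≤ Real.exp (-Real.log 2) * (Real.exp (-k ^ 4) * Real.exp x) := by
        rw [← Real.exp_add, ← Real.exp_add]
        refine Real.exp_le_exp.2 ?_
        have h4 : Real.log 2 ≤ 1 := by
          have := Real.log_two_lt_d9
          linarith
        have h5 : (k ^ 2 + k ^ 2 * C2 + k ^ 4 + 1) * Real.log S ≤ C * Real.log S := by
          refine mul_le_mul_of_nonneg_right ?_ (by linarith)
          have i1 : 0 ≤ 16 / k ^ 2 * Real.exp (k ^ 4) * G + 2 * (1 + CM) := by positivity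
          have i2 : 0 ≤ 2 + 4 * k ^ 4 := by positivity
          rw [hC]
          linarith
        have h6 : k ^ 2 * C2 + k ^ 4 + 1 ≤ (k ^ 2 * C2 + k ^ 4 + 1) * Real.log S :=
          le_mul_of_one_le_right (by positivity) hlS
        linarith
      refine h3.trans ?_
      rw [Real.exp_neg, Real.exp_log (by norm_num)]
      linarith
    · -- the pointwise bound
      intro t ht
      rw [dp_tw hD ω k hX1 t]
      set P := dp X (pc X) t
      have h1 : ‖(k : ℂ) * (ω * P)‖ ≤ (K : ℝ) / 10 := by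
        rw [norm_mul, norm_mul, hω, one_mul, Complex.norm_real, Real.norm_eq_abs]
        calc |k| * ‖P‖ ≤ |k| * (2 * (|k| + 1) * S) := mul_le_mul_of_nonneg_left ht hk0
          _ = 2 * (|k| * (|k| + 1)) * S := by ring
          _ ≤ 2 * A * S := by gcongr
          _ ≤ (K : ℝ) / 10 := by linarith
      have h2 := (hTX K ((k : ℂ) * (ω * P)) hK1).2 h1
      have h3 : Real.exp (-(K : ℝ) / 2) ≤ 1 := by
        rw [Real.exp_le_one_iff]
        have : (0 : ℝ) ≤ K := Nat.cast_nonneg K
        linarith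
      have h4 : ‖TEx K ((k : ℂ) * (ω * P))‖ ≤ ‖cexp ((k : ℂ) * (ω * P))‖ + ‖cexp ((k : ℂ) * (ω * P))‖ := by
        have h5 : TEx K ((k : ℂ) * (ω * P)) = cexp ((k : ℂ) * (ω * P)) + (TEx K ((k : ℂ) * (ω * P)) - cexp ((k : ℂ) * (ω * P))) := by ring
        rw [h5]
        refine (norm_add_le _ _).trans (add_le_add le_rfl (h2.trans ?_))
        exact mul_le_of_le_one_left (norm_nonneg _) h3
      have h5 : ‖cexp ((k : ℂ) * (ω * P))‖ = Real.exp (k * (ω * P).re) := by
        rw [Complex.norm_exp, Complex.re_ofReal_mul]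
      rw [h5] at h4
      linarith
    · intro X' hXX' hX'T
      constructor
      · -- the eigenvalue equation
        rw [N2_main_tw hω, N2_tw hω]
        have hb0 : 0 ≤ k * (k * S) := by
          have : k * (k * S) = k ^ 2 * S := by ring
          rw [this]
          positivity
        have hb : 2 * (k * (k * S)) ≤ K + 1 := by
          have e : 2 * (k * (k * S)) = 2 * (k ^ 2 * S) := by ring
          rw [e]
          have i1 : k ^ 2 * S ≤ A * S := mul_le_mul_of_nonneg_right hkA hS0.le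
          have i2 : 0 ≤ A * S := by positivity
          linarith
        have h1 := N2_main hk (X := X) (K := K) (X' := X') (M := X' * X ^ K) hX1 hXX' hb0 hb
        rw [← hL, ← hx] at h1
        refine h1.trans ?_
        have h2 : SX X' ≤ (1 + CM) * S := by
          have i1 := hSXu hX'T
          have i2 : CM ≤ CM * S := le_mul_of_one_le_right hCM0 (by linarith)
          linarith
        have h3 : x ≤ k ^ 2 * (1 + CM) * S := by
          have i1 : S + CM ≤ (1 + CM) * S := by
            have i2 : CM ≤ CM * S := le_mul_of_one_le_right hCM0 (by linarith)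
            linarith
          calc x ≤ k ^ 2 * (S + CM) := hxu
            _ ≤ k ^ 2 * ((1 + CM) * S) := mul_le_mul_of_nonneg_left i1 hk2.le
            _ = _ := by ring
        have h4 : (x - k * (k * S)) ^ 2 ≤ 4 * k ^ 4 * (1 + C2) ^ 2 * S := by
          have e : (x - k * (k * S)) ^ 2 = k ^ 4 * (SX X - S) ^ 2 := by rw [hx]; ring
          have h5 : (SX X - S) ^ 2 ≤ ((1 + C2) * Real.log S) ^ 2 := by
            rw [← sq_abs]
            refine pow_le_pow_left₀ (abs_nonneg _) (hSX.trans ?_) 2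
            have i2 : C2 ≤ C2 * Real.log S := le_mul_of_one_le_right hC20 hlS
            linarith
          have h6 : Real.log S ^ 2 ≤ 4 * S := by
            have h7 : Real.log S ≤ 2 * Real.sqrt S := by
              have h8 := Real.log_le_sub_one_of_pos (Real.sqrt_pos.2 hS0)
              rw [Real.log_sqrt hS0.le] at h8
              linarith
            calc Real.log S ^ 2 ≤ (2 * Real.sqrt S) ^ 2 := pow_le_pow_left₀ (by linarith) h7 2
              _ = 4 * S := by rw [mul_pow, Real.sq_sqrt hS0.le]; ring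
          rw [e]
          calc k ^ 4 * (SX X - S) ^ 2 ≤ k ^ 4 * ((1 + C2) * Real.log S) ^ 2 := by gcongr
            _ = k ^ 4 * (1 + C2) ^ 2 * Real.log S ^ 2 := by ring
            _ ≤ k ^ 4 * (1 + C2) ^ 2 * (4 * S) := by gcongr
            _ = _ := by ring
        have h5 : x + (x - k * (k * S)) ^ 2 ≤ G * S := by rw [hG, add_mul]; linarith
        have h6 : Real.exp x * (x + (x - k * (k * S)) ^ 2) ≤ 2 * Real.exp (k ^ 4) * L * (G * S) :=
          mul_le_mul hexp h5 (by positivity) (by positivity)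
        have h7 : 2 * (4 / k ^ 2 * (Real.exp x * (x + (x - k * (k * S)) ^ 2))) ≤
            16 / k ^ 2 * Real.exp (k ^ 4) * G * S * L := by
          calc 2 * (4 / k ^ 2 * (Real.exp x * (x + (x - k * (k * S)) ^ 2))) ≤
              2 * (4 / k ^ 2 * (2 * Real.exp (k ^ 4) * L * (G * S))) := by gcongr
            _ = _ := by ring
        have h8 : 2 * (SX X' * L) ≤ 2 * (1 + CM) * S * L := by
          have := mul_le_mul_of_nonneg_right h2 hL0
          linarith
        have h9 : (16 / k ^ 2 * Real.exp (k ^ 4) * G + 2 * (1 + CM)) * (S * L) ≤ C * (S * L) := by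
          refine mul_le_mul_of_nonneg_right ?_ (by positivity)
          have i1 : 0 ≤ k ^ 2 + k ^ 2 * C2 + k ^ 4 + 1 := by positivity
          have i2 : 0 ≤ 2 + 4 * k ^ 4 := by positivity
          rw [hC]
          linarith
        calc _ ≤ 16 / k ^ 2 * Real.exp (k ^ 4) * G * S * L + 2 * (1 + CM) * S * L := add_le_add h7 h8
          _ = (16 / k ^ 2 * Real.exp (k ^ 4) * G + 2 * (1 + CM)) * (S * L) := by ring
          _ ≤ C * (S * L) := h9
          _ = _ := by ring
      · refine SqB_tw hω k hX1 ?_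
        have i1 : 0 ≤ k ^ 2 + k ^ 2 * C2 + k ^ 4 + 1 := by positivity
        have i2 : 0 ≤ 16 / k ^ 2 * Real.exp (k ^ 4) * G + 2 * (1 + CM) := by positivity
        rw [hC]
        linarith

end

end Pool.Agent.H313.SL
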