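import Pool.Agent.H313.SL.Gaps

set_option autoImplicit false

/-! The remainder term of the counting function of the zeros in mean square on the line, relative to a coherent state. -/

namespace Pool.Agent.H313.SL

open Filter Topology MeasureTheory Complex Finset
open Pool.Agent.Y745.SW (P_KER Py)
open Pool.Agent.K4H8.JG
open Pool.Agent.Q97.UM (SS ZD mz dp N2 cv pc b_STM b_PMM b_TAIL dp_ext_top)

noncomputable section

lemma SS_cont (η : ℝ) {T : ℝ} (hT : 1 ≤ T) : Continuous (SS η T) := by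
  have hL : 0 ≤ Real.log T := Real.log_nonneg hT
  unfold SS
  refine continuous_finsetSum _ fun s _ => continuous_const.mul ?_
  refine Continuous.div continuous_const (by fun_prop) fun t => ?_
  have : 0 ≤ Real.log T * |s.im - t| := by positivity
  positivity

lemma dp_cont (N : ℕ) (b : ℕ → ℂ) : Continuous (dp N b) := (Pool.Agent.Q84.UM.t_DPM.2.2 N b 0).2

/-- the sum over the squares of the primes -/
lemma sq_bound_c {T : ℝ} (hT : 16 ≤ T) {B : ℝ → ℝ} {K : ℝ} (h : KD B K) {a : ℝ} (ha : 4 ≤ a) {X N : ℕ} (hXa : Real.log X ≤ 8 * a)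
    (hXN : ((X ^ 2 * N : ℕ) : ℝ) ≤ T ^ (1 / 4 : ℝ)) {b : ℕ → ℂ} (hb : ∀ n, b n ≠ 0 → 1 ≤ n ∧ n ≤ N) {C' : ℝ} (hq : SqB C' X N b) :
    ∫ t in T..(2 * T), ‖dp X (gs B a X) t‖ ^ 2 * ‖dp N b t‖ ^ 2 ≤ 288 * (K * Real.pi) ^ 2 * C' * (T * N2 N b) := by
  have hK := h.K1
  have hpi := Real.pi_pos
  have hc0 : 0 < 12 * (K * Real.pi) := by positivity
  obtain ⟨c, hc⟩ : ∃ c : ℝ, c = 12 * (K * Real.pi) := ⟨_, rfl⟩
  have hcc : 0 < c := by rw [hc]; exact hc0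
  have hccC : (c : ℂ) ≠ 0 := by exact_mod_cast hcc.ne'
  obtain ⟨g, hg⟩ : ∃ g : ℕ → ℂ, g = fun n => (c : ℂ)⁻¹ * gs B a X n := ⟨_, rfl⟩
  have hg1 : ∀ n, ‖g n‖ ≤ 1 := by
    intro n
    rw [hg]
    simp only
    rw [norm_mul, norm_inv, Complex.norm_real, Real.norm_eq_abs, abs_of_pos hcc, inv_mul_le_iff₀ hcc, mul_one, hc]
    exact gs_le h ha hXa n
  have hg2 : ∀ n, g n ≠ 0 → ∃ p : ℕ, p.Prime ∧ p ≤ X ∧ n = p ^ 2 := by
    intro n hn
    rw [hg] at hn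
    obtain ⟨_, ⟨p, hp, hpn⟩, hnX⟩ := gs_supp (right_ne_zero_of_mul hn)
    refine ⟨p, hp, ?_, hpn⟩
    have : p ≤ p ^ 2 := Nat.le_self_pow two_ne_zero p
    omega
  have hgX : ∀ n, gs B a X n ≠ 0 → 1 ≤ n ∧ n ≤ X := by
    intro n hn
    obtain ⟨_, ⟨p, hp, hpn⟩, hnX⟩ := gs_supp hn
    refine ⟨?_, hnX⟩
    rw [hpn]
    exact Nat.one_le_pow _ _ hp.pos
  have hX2 : X ≤ X ^ 2 := Nat.le_self_pow two_ne_zero X
  have e1 : ∀ t : ℝ, ‖dp X (gs B a X) t‖ ^ 2 * ‖dp N b t‖ ^ 2 = c ^ 2 * ‖dp (X ^ 2 * N) (cv g b) t‖ ^ 2 := by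
    intro t
    have h1 := Pool.Agent.Q84.UM.t_DPM.1 (X ^ 2) N g b t (fun n hn => by
      by_contra hc2
      obtain ⟨p, hp, hpX, hpn⟩ := hg2 n hc2
      have : p ^ 2 ≤ X ^ 2 := Nat.pow_le_pow_left hpX 2
      omega) (fun n hn => by
      by_contra hc2
      have := (hb n hc2).2
      omega)
    rw [← h1, ← dp_ext_top hX2 hgX t]
    have h2 : dp (X ^ 2) (gs B a X) t = (c : ℂ) * dp (X ^ 2) g t := by
      rw [hg, dp_smul, ← mul_assoc, mul_inv_cancel₀ hccC, one_mul]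
    rw [h2, norm_mul, norm_mul, Complex.norm_real, Real.norm_eq_abs, abs_of_pos hcc]
    ring
  have h3 := (Pool.Agent.Q84.UM.t_MVL T hT (X ^ 2 * N) hXN (cv g b)).2
  have h4 := hq g hg1 hg2
  simp only [e1]
  rw [intervalIntegral.integral_const_mul]
  calc c ^ 2 * ∫ t in T..(2 * T), ‖dp (X ^ 2 * N) (cv g b) t‖ ^ 2 ≤ c ^ 2 * (2 * T * (C' * N2 N b)) := by
        refine mul_le_mul_of_nonneg_left (h3.trans ?_) (by positivity)
        gcongr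
    _ = _ := by rw [hc]; ring

theorem arg_ms_c : ∃ θ δ₀ : ℝ, 0 < θ ∧ 0 < δ₀ ∧ ∀ δ : ℝ, 0 < δ → δ ≤ δ₀ → ∀ C' : ℝ, 0 ≤ C' → ∃ C : ℝ, 0 ≤ C ∧ ∀ᶠ T : ℝ in atTop,
      ∀ N : ℕ, (N : ℝ) ≤ T ^ θ → ∀ b : ℕ → ℂ, (∀ n, b n ≠ 0 → 1 ≤ n ∧ n ≤ N) → SqB C' ⌊T ^ δ⌋₊ N b →
        ∃ M : ℝ → ℝ, Continuous M ∧ (∀ t, T + Real.log T ≤ t → t ≤ 2 * T - Real.log T →
          |E1 t - (Py (T ^ δ) t).im / Real.pi| ≤ M t) ∧
        ∫ t in T..(2 * T), M t ^ 2 * ‖dp N b t‖ ^ 2 ≤ C * (T * N2 N b) := by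
  obtain ⟨B, K, hKD⟩ := exists_KD Pool.Agent.Y248.SW.t_KER
  obtain ⟨θt, ct, Ct, hθt, hθt1, hct, hCt, hTail⟩ := b_TAIL
  obtain ⟨Cz, hCz, hSS⟩ := b_STM θt ct Ct hθt hθt1 hct hCt hTail 2 (ct / 64) (by positivity) (by push_cast; linarith)
  obtain ⟨δz, hδzd⟩ : ∃ δz, δz = ct / 64 := ⟨_, rfl⟩
  rw [← hδzd] at hSS
  have hδz : 0 < δz := by rw [hδzd]; positivity
  have hK := hKD.K1
  have hpi := Real.pi_pos
  have hZ := Z32_nonneg
  refine ⟨min (θt / 2) (1 / 16), min (1 / 32) δz, by positivity, by positivity,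
    fun δ hδ hδ₀ C' hC' => ?_⟩
  have hδ1 : δ ≤ 1 / 32 := hδ₀.trans (min_le_left _ _)
  have hδ2 : δ ≤ δz := hδ₀.trans (min_le_right _ _)
  obtain ⟨τ, hτd⟩ : ∃ τ, τ = δ / 8 := ⟨_, rfl⟩
  have hτ : 0 < τ := by rw [hτd]; positivity
  have hτ1 : τ ≤ 1 / 32 := by rw [hτd]; linarith
  have hτδ : 8 * τ = δ := by rw [hτd]; ring
  obtain ⟨C3, T3, hC3, hT3, hptw⟩ := ptw1 Pool.Agent.H313.JG.rv hKD hτ hτ1
  obtain ⟨CP, hCP, hP⟩ := b_PMM 1 (16 * (K * Real.pi)) δ (δ / 2) (by positivity) (by positivity) (by linarith)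
    (by push_cast; linarith)
  obtain ⟨c₁, hc₁⟩ : ∃ c₁, c₁ = K * Real.pi * (2 / τ ^ 2) + 2 * (4 * K / τ ^ 2) := ⟨_, rfl⟩
  obtain ⟨c₂, hc₂⟩ : ∃ c₂, c₂ = C3 + 48 * (K * Real.pi) * Z32 := ⟨_, rfl⟩
  have hc₁0 : 0 ≤ c₁ := by rw [hc₁]; positivity
  have hc₂0 : 0 ≤ c₂ := by rw [hc₂]; positivity
  refine ⟨4 * (c₁ ^ 2 * Cz + CP + 288 * (K * Real.pi) ^ 2 * C' + 2 * c₂ ^ 2), by positivity, ?_⟩
  have hpow : Tendsto (fun T : ℝ => T ^ (δ / 2)) atTop atTop := tendsto_rpow_atTop (by positivity)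
  have hlog : ∀ᶠ T : ℝ in atTop, 4 ≤ τ * Real.log T := (Real.tendsto_log_atTop.const_mul_atTop hτ).eventually_ge_atTop 4
  filter_upwards [hSS, hP, eventually_ge_atTop T3, eventually_ge_atTop (16 : ℝ), hpow.eventually_ge_atTop 2, hlog,
    Real.tendsto_log_atTop.eventually_ge_atTop 1] with T hSS hP hT3' hT16 hT2 ha4 hL1 N hN b hb hq
  have hT0 : 0 < T := by linarith
  have hT1 : 1 ≤ T := by linarith
  have hmono : ∀ {x y : ℝ}, x ≤ y → T ^ x ≤ T ^ y := fun h => Real.rpow_le_rpow_of_exponent_le hT1 h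
  have hNz : (N : ℝ) ≤ T ^ (θt / 2) := hN.trans (hmono (min_le_left _ _))
  have hNp : (N : ℝ) ≤ T ^ (1 / 16 : ℝ) := hN.trans (hmono (min_le_right _ _))
  have hN4 : (N : ℝ) ≤ T ^ (1 / 4 : ℝ) := hNp.trans (hmono (by norm_num))
  set L := Real.log T with hL
  have hL0 : 0 < L := by linarith
  obtain ⟨X, hX⟩ : ∃ X, X = ⌊T ^ δ⌋₊ := ⟨_, rfl⟩
  have hXle : (X : ℝ) ≤ T ^ δ := by rw [hX]; exact Nat.floor_le (by positivity)
  have hTd : T ^ δ = T ^ (δ / 2) * T ^ (δ / 2) := by rw [← Real.rpow_add hT0]; congr 1; ring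
  have hXge : T ^ (δ / 2) ≤ X := by
    have h1 : T ^ δ - 1 < X := by rw [hX]; exact Nat.sub_one_lt_floor _
    have h2 : 2 * T ^ (δ / 2) ≤ T ^ δ := by
      rw [hTd]
      exact mul_le_mul_of_nonneg_right hT2 (by positivity)
    linarith
  have hX2 : 2 ≤ X := by
    have : (2 : ℝ) ≤ X := hT2.trans hXge
    exact_mod_cast this
  have hX0 : (0 : ℝ) < X := by
    have : (2 : ℝ) ≤ X := by exact_mod_cast hX2
    linarith
  have hXa : Real.log X ≤ 8 * (τ * L) := by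
    have h1 : Real.log X ≤ Real.log (T ^ δ) := Real.log_le_log hX0 hXle
    rw [Real.log_rpow hT0] at h1
    calc Real.log X ≤ δ * L := h1
      _ = 8 * (τ * L) := by rw [← hτδ]; ring
  have hX2N : ((X ^ 2 * N : ℕ) : ℝ) ≤ T ^ (1 / 4 : ℝ) := by
    push_cast
    calc (X : ℝ) ^ 2 * N ≤ (T ^ δ) ^ 2 * T ^ (1 / 16 : ℝ) := by gcongr
      _ = T ^ (δ * 2 + 1 / 16) := by rw [← Real.rpow_natCast, ← Real.rpow_mul hT0.le, ← Real.rpow_add hT0]; norm_num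
      _ ≤ T ^ (1 / 4 : ℝ) := hmono (by linarith)
  have hN2 : 0 ≤ N2 N b := by unfold N2; positivity
  obtain ⟨U1, U2, hU1, hU1', hU2, hU2', hpt⟩ := hptw T hT3'
  have cS := SS_cont δz hT1
  have cB := dp_cont N b
  have c1 := dp_cont X (gp B (τ * L) X)
  have c2 := dp_cont X (gs B (τ * L) X)
  have s1 : ∫ t in T..(2 * T), SS δz T t ^ 2 * ‖dp N b t‖ ^ 2 ≤ Cz * T * N2 N b := by
    refine le_trans ?_ (hSS N hNz b)
    refine intervalIntegral.integral_mono_interval (by linarith) (by linarith) (by linarith)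
      (Eventually.of_forall fun t => ?_) (Continuous.intervalIntegrable (by fun_prop) _ _)
    show 0 ≤ SS δz T t ^ 2 * ‖dp N b t‖ ^ 2
    positivity
  have s2 : ∫ t in T..(2 * T), ‖dp X (gp B (τ * L) X) t‖ ^ (2 * 1) * ‖dp N b t‖ ^ 2 ≤ CP * T * N2 N b := by
    refine le_trans ?_ (hP N X hNp hXge hXle b (gp B (τ * L) X) (fun n hn => gp_supp hn) (fun n => gp_le hKD ha4 hX2 hXa n))
    refine intervalIntegral.integral_mono_interval (by linarith) (by linarith) (by linarith)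
      (Eventually.of_forall fun t => ?_) (Continuous.intervalIntegrable (by fun_prop) _ _)
    show 0 ≤ ‖dp X (gp B (τ * L) X) t‖ ^ (2 * 1) * ‖dp N b t‖ ^ 2
    positivity
  have s3 := sq_bound_c hT16 hKD ha4 hXa hX2N hb (by rw [hX]; exact hq)
  have s4 := (Pool.Agent.Q84.UM.t_MVL T hT16 N hN4 b).2
  refine ⟨fun t => c₁ * SS δz T t + ‖dp X (gp B (τ * L) X) t‖ + ‖dp X (gs B (τ * L) X) t‖ + c₂, by fun_prop, ?_, ?_⟩
  · intro t ht1 ht2
    have h1 := hpt t ht1 ht2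
    rw [hτδ] at h1
    refine h1.trans ?_
    unfold WW1
    rw [← hX]
    have h3 := W0_le_SS hT16 hτ (by linarith) t
    have h4 := MZ_le_SS hT16 hτ (by linarith) (by linarith : 0 ≤ K) hU1 hU2' t
    have h5 := DDp_split hKD ha4 hXa t
    have h6 := SS_mono (δ := τ) (δ' := δz) (by linarith) hT1 t
    rw [← hL] at h3 h4
    have h7 : K * Real.pi * W0 T (τ * L) t ≤ K * Real.pi * (2 / τ ^ 2 * SS δz T t) := by
      refine mul_le_mul_of_nonneg_left (h3.trans ?_) (by positivity)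
      exact mul_le_mul_of_nonneg_left h6 (by positivity)
    have h8 : MZ K (τ * L) U1 U2 t ≤ 4 * K / τ ^ 2 * SS δz T t :=
      h4.trans (mul_le_mul_of_nonneg_left h6 (by positivity))
    show K * Real.pi * W0 T (τ * L) t + 2 * MZ K (τ * L) U1 U2 t + ‖DDp B (τ * L) X t‖ + C3 ≤
      c₁ * SS δz T t + ‖dp X (gp B (τ * L) X) t‖ + ‖dp X (gs B (τ * L) X) t‖ + c₂
    rw [hc₁, hc₂]
    linarith
  · have hmon : ∫ t in T..(2 * T), (c₁ * SS δz T t + ‖dp X (gp B (τ * L) X) t‖ + ‖dp X (gs B (τ * L) X) t‖ + c₂) ^ 2 *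
        ‖dp N b t‖ ^ 2 ≤ ∫ t in T..(2 * T), (4 * c₁ ^ 2 * (SS δz T t ^ 2 * ‖dp N b t‖ ^ 2) +
          4 * (‖dp X (gp B (τ * L) X) t‖ ^ (2 * 1) * ‖dp N b t‖ ^ 2) +
          4 * (‖dp X (gs B (τ * L) X) t‖ ^ 2 * ‖dp N b t‖ ^ 2) + 4 * c₂ ^ 2 * ‖dp N b t‖ ^ 2) := by
      refine intervalIntegral.integral_mono_on (by linarith) (Continuous.intervalIntegrable (by fun_prop) _ _)
        (Continuous.intervalIntegrable (by fun_prop) _ _) fun t _ => ?_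
      have h1 := four_sq (c₁ * SS δz T t) ‖dp X (gp B (τ * L) X) t‖ ‖dp X (gs B (τ * L) X) t‖ c₂
      have h2 : (0 : ℝ) ≤ ‖dp N b t‖ ^ 2 := by positivity
      have h3 := mul_le_mul_of_nonneg_right h1 h2
      refine h3.trans (le_of_eq ?_)
      ring
    refine hmon.trans ?_
    rw [intervalIntegral.integral_add (Continuous.intervalIntegrable (by fun_prop) _ _) (Continuous.intervalIntegrable (by fun_prop) _ _),
      intervalIntegral.integral_add (Continuous.intervalIntegrable (by fun_prop) _ _) (Continuous.intervalIntegrable (by fun_prop) _ _),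
      intervalIntegral.integral_add (Continuous.intervalIntegrable (by fun_prop) _ _) (Continuous.intervalIntegrable (by fun_prop) _ _),
      intervalIntegral.integral_const_mul, intervalIntegral.integral_const_mul, intervalIntegral.integral_const_mul,
      intervalIntegral.integral_const_mul]
    calc 4 * c₁ ^ 2 * (∫ t in T..(2 * T), SS δz T t ^ 2 * ‖dp N b t‖ ^ 2) +
          4 * (∫ t in T..(2 * T), ‖dp X (gp B (τ * L) X) t‖ ^ (2 * 1) * ‖dp N b t‖ ^ 2) +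
          4 * (∫ t in T..(2 * T), ‖dp X (gs B (τ * L) X) t‖ ^ 2 * ‖dp N b t‖ ^ 2) +
          4 * c₂ ^ 2 * (∫ t in T..(2 * T), ‖dp N b t‖ ^ 2) ≤
        4 * c₁ ^ 2 * (Cz * T * N2 N b) + 4 * (CP * T * N2 N b) + 4 * (288 * (K * Real.pi) ^ 2 * C' * (T * N2 N b)) +
          4 * c₂ ^ 2 * (2 * T * N2 N b) := by gcongr
      _ = _ := by ring

end

end Pool.Agent.H313.SL
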