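import Pool.Agent.H313.SL.Cont1
import Pool.Graph.R_pool_sql_team_seeded_3997aac3.Q151.UM.CLAb

set_option autoImplicit false

/-! Joint large deviations of `log |ζ|` and of the remainder term of the counting function, on the line. -/

namespace Pool.Agent.H313.SL

open Filter Topology MeasureTheory Complex
open Pool.Agent.Y745.SW (Py)
open Pool.Agent.K4H8.JG (E1)
open Pool.Agent.Q97.UM

noncomputable section

/-- the level set on the line -/
def LevT (α : ℂ) (A T : ℝ) : Set ℝ := {t : ℝ | t ∈ Set.Icc T (2 * T) ∧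
  |Real.log ‖zt t‖ - α.re * Real.log (Real.log T)| ≤ A * Real.sqrt (Real.log (Real.log T)) ∧
  |Real.pi * E1 t - α.im * Real.log (Real.log T)| ≤ A * Real.sqrt (Real.log (Real.log T))}

/-- from a pointwise inequality to a lower bound for the measure -/
lemma vol_ge {a b K₀ : ℝ} (hab : a ≤ b) (hK : 0 ≤ K₀) {f g : ℝ → ℝ} (hf : Continuous f) {G : Set ℝ} (hG : MeasurableSet G)
    (hGf : volume G ≠ ⊤) (hg : IntervalIntegrable g volume a b)
    (h : ∀ t, a ≤ t → t ≤ b → f t ≤ G.indicator (fun _ => K₀) t + g t) :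
    ∫ t in a..b, f t ≤ K₀ * volume.real G + ∫ t in a..b, g t := by
  have hi : IntervalIntegrable (G.indicator (fun _ => K₀)) volume a b := by
    rw [intervalIntegrable_iff_integrableOn_Ioc_of_le hab]
    exact ((integrable_indicator_iff hG).2 (integrableOn_const hGf)).integrableOn
  have h1 : ∫ t in a..b, f t ≤ ∫ t in a..b, (G.indicator (fun _ => K₀) t + g t) :=
    intervalIntegral.integral_mono_on hab (hf.intervalIntegrable _ _) (hi.add hg) fun t ht => h t ht.1 ht.2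
  rw [intervalIntegral.integral_add hi hg] at h1
  refine h1.trans (add_le_add ?_ le_rfl)
  rw [intervalIntegral.integral_of_le hab]
  calc ∫ t in Set.Ioc a b, G.indicator (fun _ => K₀) t ≤ ∫ t, G.indicator (fun _ => K₀) t :=
        setIntegral_le_integral ((integrable_indicator_iff hG).2 (integrableOn_const hGf))
          (Eventually.of_forall fun t => by
            show 0 ≤ G.indicator (fun _ => K₀) t
            exact Set.indicator_nonneg (fun _ _ => hK) t)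
    _ = K₀ * volume.real G := by
        rw [integral_indicator hG, setIntegral_const, smul_eq_mul, mul_comm]

theorem core_cont (α : ℂ) : ∃ A C : ℝ, 0 < A ∧ 0 ≤ C ∧ ∀ᶠ T : ℝ in atTop,
    ∃ G : Set ℝ, MeasurableSet G ∧ G ⊆ LevT α A T ∧
      T * Real.exp (-(‖α‖ ^ 2) * Real.log (Real.log T) - C * Real.sqrt (Real.log (Real.log T))) ≤ volume.real G := by
  obtain ⟨k, hk⟩ : ∃ k, k = ‖α‖ := ⟨_, rfl⟩
  have hk0 : 0 ≤ k := by rw [hk]; exact norm_nonneg _
  rw [← hk]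
  obtain ⟨ω, hω, hωα⟩ : ∃ ω : ℂ, ‖ω‖ = 1 ∧ starRingEnd ℂ ω * (k : ℂ) = α := by
    rcases eq_or_ne α 0 with h | h
    · refine ⟨1, norm_one, ?_⟩
      rw [hk, h]
      simp
    · have hn : (‖α‖ : ℂ) ≠ 0 := by exact_mod_cast norm_ne_zero_iff.2 h
      refine ⟨starRingEnd ℂ α / (‖α‖ : ℂ), ?_, ?_⟩
      · rw [norm_div, RCLike.norm_conj, Complex.norm_real, norm_norm, div_self (norm_ne_zero_iff.2 h)]
      · rw [hk, map_div₀, Complex.conj_conj, Complex.conj_ofReal, div_mul_cancel₀ _ hn]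
  have hωα2 : ω * α = (k : ℂ) := by
    rw [← hωα, ← mul_assoc, Complex.mul_conj, Complex.normSq_eq_norm_sq, hω]
    norm_num
  have hDPM := Pool.Agent.Q84.UM.t_DPM
  obtain ⟨θa, δa, hθa, hδa, hTHP⟩ := b_THP 2
  obtain ⟨θb, δb, hθb, hδb, hARG⟩ := arg_ms_c
  obtain ⟨δ, hδ⟩ : ∃ δ, δ = min (min δa δb) (1 / 16) := ⟨_, rfl⟩
  have hδ0 : 0 < δ := by rw [hδ]; positivity
  have hδ1 : δ ≤ δa := by rw [hδ]; exact (min_le_left _ _).trans (min_le_left _ _)
  have hδ2 : δ ≤ δb := by rw [hδ]; exact (min_le_left _ _).trans (min_le_right _ _)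
  have hδ3 : δ ≤ 1 / 16 := by rw [hδ]; exact min_le_right _ _
  obtain ⟨CH, hCH, hTHP⟩ := hTHP δ hδ0 hδ1
  obtain ⟨θ, hθ⟩ : ∃ θ, θ = min (min θa θb) (δ / 2) := ⟨_, rfl⟩
  have hθ0 : 0 < θ := by rw [hθ]; positivity
  have hθ1 : θ ≤ θa := by rw [hθ]; exact (min_le_left _ _).trans (min_le_left _ _)
  have hθ2 : θ ≤ θb := by rw [hθ]; exact (min_le_left _ _).trans (min_le_right _ _)
  have hθ4 : θ ≤ δ / 2 := by rw [hθ]; exact min_le_right _ _
  obtain ⟨C, hC, hCOH⟩ := t_COHC hDPM b_TEX k θ ω hω hθ0 (by linarith)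
  obtain ⟨CM, hCM, hARG⟩ := hARG δ hδ0 hδ2 C hC
  -- the constant `A`
  obtain ⟨A₀, hA₀⟩ : ∃ A₀, A₀ = 1 + 4 * Pool.Agent.Q96.UM.Z0 + 8 * (6 * C + CH + CM) := ⟨_, rfl⟩
  have hZ0 : 0 ≤ Pool.Agent.Q96.UM.Z0 := tsum_nonneg fun n => by positivity
  have hA1 : 1 ≤ A₀ := by rw [hA₀]; linarith
  have hA2 : 4 * Pool.Agent.Q96.UM.Z0 ≤ A₀ := by rw [hA₀]; linarith
  have hA3 : 8 * (6 * C + CH + CM) ≤ A₀ := by rw [hA₀]; linarith
  obtain ⟨C₃, hC₃⟩ : ∃ C₃ : ℝ, C₃ = |Real.log (1 / 16)| := ⟨_, rfl⟩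
  have hC₃0 : 0 ≤ C₃ := by rw [hC₃]; exact abs_nonneg _
  have hC₃1 : Real.exp (-C₃) ≤ 1 / 16 := by
    rw [← Real.exp_log (show (0 : ℝ) < 1 / 16 by norm_num), hC₃]
    exact Real.exp_le_exp.2 (neg_abs_le _)
  refine ⟨5 * A₀, 2 * C + 2 * k * A₀ + C₃, by positivity, by positivity, ?_⟩
  have hll : Tendsto (fun T : ℝ => Real.log (Real.log T)) atTop atTop :=
    Real.tendsto_log_atTop.comp Real.tendsto_log_atTop
  have hlit := (Real.isLittleO_log_id_atTop.def (c := 1 / 4) (by norm_num))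
  have hlit2 := ((isLittleO_log_rpow_atTop (show (0:ℝ) < 1 / 2 by norm_num)).def (c := 1 / 16) (by norm_num))
  filter_upwards [hTHP, hARG, hCOH, eventually_ge_atTop (16 : ℝ), hll.eventually_ge_atTop 1, hll.eventually_ge_atTop (A₀ ^ 2),
    hlit, hlit2] with T hTHP hARG hCOH hT hS1 hS2 hlit hlit2
  obtain ⟨X, N, e, hX1, hX2, hN, he, hNe, hpt, hX'⟩ := hCOH
  have hT0 : 0 < T := by linarith
  have hL0 : 0 < Real.log T := Real.log_pos (by linarith)
  set L := Real.log T with hL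
  set S := Real.log L with hSd
  rw [Real.norm_eq_abs, Real.norm_eq_abs, id, abs_of_pos hT0, abs_of_pos hL0] at hlit
  rw [Real.norm_eq_abs, Real.norm_eq_abs, abs_of_pos hL0, abs_of_nonneg (by positivity)] at hlit2
  obtain ⟨Y, hY⟩ : ∃ Y, Y = ⌊T ^ δ⌋₊ := ⟨_, rfl⟩
  have hYle : (Y : ℝ) ≤ T ^ δ := by rw [hY]; exact Nat.floor_le (by positivity)
  have hmono : ∀ {a b : ℝ}, a ≤ b → T ^ a ≤ T ^ b := fun h => Real.rpow_le_rpow_of_exponent_le (by linarith) h
  have hXY : X ≤ Y := by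
    rw [hY]
    apply Nat.le_floor
    exact hX2.trans (hmono (by linarith))
  have hYT : (Y : ℝ) ≤ T := hYle.trans (by
    calc T ^ δ ≤ T ^ (1 : ℝ) := hmono (by linarith)
      _ = T := Real.rpow_one T)
  have hXT : (X : ℝ) ≤ T := by
    have : (X : ℝ) ≤ Y := by exact_mod_cast hXY
    linarith
  have hYN : ((Y * N : ℕ) : ℝ) ≤ T ^ (1 / 4 : ℝ) := by
    push_cast
    calc (Y : ℝ) * N ≤ T ^ δ * T ^ θ := by gcongr
      _ = T ^ (δ + θ) := by rw [Real.rpow_add hT0]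
      _ ≤ T ^ (1 / 4 : ℝ) := hmono (by linarith)
  have hXN : ((X * N : ℕ) : ℝ) ≤ T ^ (1 / 4 : ℝ) := by
    refine le_trans ?_ hYN
    have : X * N ≤ Y * N := Nat.mul_le_mul_right _ hXY
    exact_mod_cast this
  have hY2N : ((Y ^ 2 * N : ℕ) : ℝ) ≤ T ^ (1 / 4 : ℝ) := by
    push_cast
    calc (Y : ℝ) ^ 2 * N ≤ (T ^ δ) ^ 2 * T ^ θ := by gcongr
      _ = T ^ (δ * 2 + θ) := by rw [← Real.rpow_natCast, ← Real.rpow_mul hT0.le, ← Real.rpow_add hT0]; norm_num
      _ ≤ T ^ (1 / 4 : ℝ) := hmono (by linarith)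
  have hN4 : (N : ℝ) ≤ T ^ (1 / 4 : ℝ) := hN.trans (hmono (by linarith))
  have hN2 : 0 < N2 N e := lt_of_lt_of_le (Real.exp_pos _) hNe
  have hS0 : 0 < S := by linarith
  have hSq : 0 < Real.sqrt S := Real.sqrt_pos.2 (by linarith)
  have hSq1 : 1 ≤ Real.sqrt S := Real.one_le_sqrt.2 hS1
  have hSqA : A₀ ≤ Real.sqrt S := Real.le_sqrt_of_sq_le hS2
  have hSS : Real.sqrt S ^ 2 = S := Real.sq_sqrt (by linarith)
  have hαS : starRingEnd ℂ ω * ((k * S : ℝ) : ℂ) = α * (S : ℂ) := by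
    rw [← hωα]
    push_cast
    ring
  rw [hαS] at hX'
  have hqY := (hX' Y hXY hYT).2
  obtain ⟨M, hMc, hMpt, hMint⟩ := hARG N (hN.trans (hmono hθ2)) e he (by rw [← hY]; exact hqY)
  have hHI := hTHP N (hN.trans (hmono hθ1)) e
  rw [← hY] at hHI
  have cB := dp_cont N e
  have cPY := dp_cont Y (pc Y)
  have cPX := dp_cont X (pc X)
  have cQ := dp_cont (Y ^ 2) (cq Y)
  -- the five mean squares
  have g1 : ∫ t in T..(2 * T), ‖dp Y (pc Y) t - α * (S : ℂ)‖ ^ 2 * ‖dp N e t‖ ^ 2 ≤ 2 * T * (C * S * N2 N e) := by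
    have h1 := (Pool.Agent.Q84.UM.t_MVL T hT (Y * N) hYN (fun n => cv (pc Y) e n - α * (S : ℂ) * e n)).2
    have h3 := (hX' Y hXY hYT).1
    have e1 : (fun t => ‖dp Y (pc Y) t - α * (S : ℂ)‖ ^ 2 * ‖dp N e t‖ ^ 2) =
        fun t => ‖dp (Y * N) (fun n => cv (pc Y) e n - α * (S : ℂ) * e n) t‖ ^ 2 := by
      funext t
      rw [dev_P hDPM (hX1.trans hXY) he]
    rw [e1]
    refine h1.trans ?_
    gcongr
  have g2 : ∫ t in T..(2 * T), ‖dp X (pc X) t - α * (S : ℂ)‖ ^ 2 * ‖dp N e t‖ ^ 2 ≤ 2 * T * (C * S * N2 N e) := by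
    have h1 := (Pool.Agent.Q84.UM.t_MVL T hT (X * N) hXN (fun n => cv (pc X) e n - α * (S : ℂ) * e n)).2
    have h3 := (hX' X le_rfl hXT).1
    have e1 : (fun t => ‖dp X (pc X) t - α * (S : ℂ)‖ ^ 2 * ‖dp N e t‖ ^ 2) =
        fun t => ‖dp (X * N) (fun n => cv (pc X) e n - α * (S : ℂ) * e n) t‖ ^ 2 := by
      funext t
      rw [dev_P hDPM hX1 he]
    rw [e1]
    refine h1.trans ?_
    gcongr
  have g3 : ∫ t in T..(2 * T), ‖dp (Y ^ 2) (cq Y) t‖ ^ 2 * ‖dp N e t‖ ^ 2 ≤ 2 * T * (C * N2 N e) := by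
    have h1 := (Pool.Agent.Q84.UM.t_MVL T hT (Y ^ 2 * N) hY2N (cv (cq Y) e)).2
    have h3 := hqY (cq Y) (fun n => by unfold cq; split_ifs <;> simp) (fun n hn => by
        unfold cq at hn
        by_contra hc
        rw [if_neg hc] at hn
        exact hn rfl)
    have e1 : (fun t => ‖dp (Y ^ 2) (cq Y) t‖ ^ 2 * ‖dp N e t‖ ^ 2) = fun t => ‖dp (Y ^ 2 * N) (cv (cq Y) e) t‖ ^ 2 := by
      funext t
      rw [dev_Q hDPM he]
    rw [e1]
    refine h1.trans ?_
    gcongr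
  have i4 : IntervalIntegrable (fun t => |Real.log ‖zt t‖ - EP Y t| ^ 2 * ‖dp N e t‖ ^ 2) volume T (2 * T) := by
    refine hHI.1.mono_set ?_
    rw [Set.uIcc_of_le (by linarith), Set.uIcc_of_le (by linarith)]
    exact Set.Icc_subset_Icc (by linarith) (by linarith)
  have g4 : ∫ t in T..(2 * T), |Real.log ‖zt t‖ - EP Y t| ^ 2 * ‖dp N e t‖ ^ 2 ≤ CH * T * N2 N e := by
    refine le_trans ?_ hHI.2
    refine intervalIntegral.integral_mono_interval (by linarith) (by linarith) (by linarith)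
      (Eventually.of_forall fun t => ?_) hHI.1
    show 0 ≤ |Real.log ‖zt t‖ - EP Y t| ^ 2 * ‖dp N e t‖ ^ 2
    positivity
  have g0 := (Pool.Agent.Q84.UM.t_MVL T hT N hN4 e).1
  -- the total
  obtain ⟨g, hg⟩ : ∃ g : ℝ → ℝ, g = fun t => (1 / A₀ ^ 2) * (1 / S * (‖dp Y (pc Y) t - α * (S : ℂ)‖ ^ 2 * ‖dp N e t‖ ^ 2) +
    1 / S * (‖dp X (pc X) t - α * (S : ℂ)‖ ^ 2 * ‖dp N e t‖ ^ 2) + ‖dp (Y ^ 2) (cq Y) t‖ ^ 2 * ‖dp N e t‖ ^ 2 +
    M t ^ 2 * ‖dp N e t‖ ^ 2 + |Real.log ‖zt t‖ - EP Y t| ^ 2 * ‖dp N e t‖ ^ 2) := ⟨_, rfl⟩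
  have hgi : IntervalIntegrable g volume T (2 * T) := by
    rw [hg]
    refine IntervalIntegrable.const_mul ?_ _
    exact (Continuous.intervalIntegrable (by fun_prop) _ _).add i4
  have hgI : ∫ t in T..(2 * T), g t ≤ 1 / 8 * (T * N2 N e) := by
    rw [hg, intervalIntegral.integral_const_mul,
      intervalIntegral.integral_add (Continuous.intervalIntegrable (by fun_prop) _ _) i4,
      intervalIntegral.integral_add (Continuous.intervalIntegrable (by fun_prop) _ _) (Continuous.intervalIntegrable (by fun_prop) _ _),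
      intervalIntegral.integral_add (Continuous.intervalIntegrable (by fun_prop) _ _) (Continuous.intervalIntegrable (by fun_prop) _ _),
      intervalIntegral.integral_add (Continuous.intervalIntegrable (by fun_prop) _ _) (Continuous.intervalIntegrable (by fun_prop) _ _),
      intervalIntegral.integral_const_mul, intervalIntegral.integral_const_mul]
    have h1 : 1 / S * (∫ t in T..(2 * T), ‖dp Y (pc Y) t - α * (S : ℂ)‖ ^ 2 * ‖dp N e t‖ ^ 2) ≤ 2 * C * (T * N2 N e) := by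
      refine (mul_le_mul_of_nonneg_left g1 (by positivity)).trans (le_of_eq ?_)
      field_simp
    have h2 : 1 / S * (∫ t in T..(2 * T), ‖dp X (pc X) t - α * (S : ℂ)‖ ^ 2 * ‖dp N e t‖ ^ 2) ≤ 2 * C * (T * N2 N e) := by
      refine (mul_le_mul_of_nonneg_left g2 (by positivity)).trans (le_of_eq ?_)
      field_simp
    have hTN : 0 ≤ T * N2 N e := by positivity
    have hA4 : 8 * (6 * C + CH + CM) ≤ A₀ ^ 2 := hA3.trans (le_self_pow₀ hA1 two_ne_zero)
    rw [one_div_mul_eq_div, div_le_iff₀ (by positivity)]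
    calc _ ≤ 2 * C * (T * N2 N e) + 2 * C * (T * N2 N e) + 2 * T * (C * N2 N e) + CM * (T * N2 N e) + CH * T * N2 N e :=
          add_le_add (add_le_add (add_le_add (add_le_add h1 h2) g3) hMint) g4
      _ = (6 * C + CH + CM) * (T * N2 N e) := by ring
      _ ≤ (1 / 8 * A₀ ^ 2) * (T * N2 N e) := mul_le_mul_of_nonneg_right (by linarith) hTN
      _ = _ := by ring
  -- the good set
  obtain ⟨G, hG⟩ : ∃ G : Set ℝ, G = {t | (T + L ≤ t ∧ t ≤ 2 * T - L) ∧ ‖dp Y (pc Y) t - α * (S : ℂ)‖ ≤ A₀ * Real.sqrt S ∧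
    ‖dp X (pc X) t - α * (S : ℂ)‖ ≤ A₀ * Real.sqrt S ∧ ‖dp (Y ^ 2) (cq Y) t‖ ≤ A₀ ∧ M t ≤ A₀ ∧
      |Real.log ‖zt t‖ - EP Y t| ≤ A₀} := ⟨_, rfl⟩
  have hGm : MeasurableSet G := by
    rw [hG]
    have m4 : Measurable (fun t => |Real.log ‖zt t‖ - EP Y t|) :=
      ((Real.measurable_log.comp Pool.Agent.Q247.UM.zt_cont.norm.measurable).sub (Pool.Agent.Q247.UM.EP_cont Y).measurable).abs
    have k1 : MeasurableSet {t : ℝ | ‖dp Y (pc Y) t - α * (S : ℂ)‖ ≤ A₀ * Real.sqrt S} :=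
      measurableSet_le (by fun_prop) measurable_const
    have k2 : MeasurableSet {t : ℝ | ‖dp X (pc X) t - α * (S : ℂ)‖ ≤ A₀ * Real.sqrt S} :=
      measurableSet_le (by fun_prop) measurable_const
    have k3 : MeasurableSet {t : ℝ | ‖dp (Y ^ 2) (cq Y) t‖ ≤ A₀} := measurableSet_le (by fun_prop) measurable_const
    have k4 : MeasurableSet {t : ℝ | M t ≤ A₀} := measurableSet_le hMc.measurable measurable_const
    have k5 : MeasurableSet {t : ℝ | |Real.log ‖zt t‖ - EP Y t| ≤ A₀} := measurableSet_le m4 measurable_const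
    exact measurableSet_Icc.inter (k1.inter (k2.inter (k3.inter (k4.inter k5))))
  have hGsub : G ⊆ Set.Icc T (2 * T) := by
    rw [hG]
    rintro t ⟨⟨h1, h2⟩, -⟩
    exact ⟨by linarith, by linarith⟩
  have hGfin : volume G ≠ ⊤ := ((measure_mono hGsub).trans_lt (by simp)).ne
  obtain ⟨K₀, hK₀⟩ : ∃ K₀, K₀ = 4 * Real.exp (2 * k ^ 2 * S + 2 * k * A₀ * Real.sqrt S) := ⟨_, rfl⟩
  have hK₀0 : 0 ≤ K₀ := by rw [hK₀]; positivity
  -- pointwise bound
  have hGpt : ∀ t ∈ G, ‖dp N e t‖ ^ 2 ≤ K₀ := by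
    intro t ht
    rw [hG] at ht
    have h1 := ht.2.2.1
    have h2 : ‖dp X (pc X) t‖ ≤ 2 * (|k| + 1) * S := by
      rw [abs_of_nonneg hk0]
      have h3 : ‖dp X (pc X) t‖ ≤ ‖dp X (pc X) t - (α * (S : ℂ))‖ + ‖(α * (S : ℂ))‖ := by
        have := norm_add_le (dp X (pc X) t - (α * (S : ℂ))) (α * (S : ℂ))
        rwa [sub_add_cancel] at this
      have h4 : ‖(α * (S : ℂ))‖ = k * S := by
        rw [norm_mul, Complex.norm_real, Real.norm_eq_abs, abs_of_pos hS0, ← hk]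
      rw [h4] at h3
      have h5 : A₀ * Real.sqrt S ≤ S := by
        calc A₀ * Real.sqrt S ≤ Real.sqrt S * Real.sqrt S := by gcongr
          _ = S := by rw [← sq, hSS]
      have h6 : 0 ≤ k * S := mul_nonneg hk0 (by linarith)
      linarith
    have h3 := hpt t h2
    have h4 : |(ω * dp X (pc X) t).re - k * S| ≤ A₀ * Real.sqrt S := by
      have e1 : ω * (dp X (pc X) t - α * (S : ℂ)) = ω * dp X (pc X) t - (k : ℂ) * (S : ℂ) := by
        rw [mul_sub, ← mul_assoc, hωα2]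
      have e2 : (ω * dp X (pc X) t).re - k * S = (ω * (dp X (pc X) t - α * (S : ℂ))).re := by
        rw [e1]
        simp
      rw [e2]
      refine (Complex.abs_re_le_norm _).trans ?_
      rw [norm_mul, hω, one_mul]
      exact h1
    have h5 : k * (ω * dp X (pc X) t).re ≤ k ^ 2 * S + k * A₀ * Real.sqrt S := by
      have h6 : k * (ω * dp X (pc X) t).re = k ^ 2 * S + k * ((ω * dp X (pc X) t).re - k * S) := by ring
      rw [h6]
      have h7 : k * ((ω * dp X (pc X) t).re - k * S) ≤ k * (A₀ * Real.sqrt S) :=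
        mul_le_mul_of_nonneg_left ((le_abs_self _).trans h4) hk0
      linarith
    rw [hK₀]
    calc ‖dp N e t‖ ^ 2 ≤ (2 * Real.exp (k * (ω * dp X (pc X) t).re)) ^ 2 := by gcongr
      _ ≤ (2 * Real.exp (k ^ 2 * S + k * A₀ * Real.sqrt S)) ^ 2 := by gcongr
      _ = 4 * Real.exp (2 * k ^ 2 * S + 2 * k * A₀ * Real.sqrt S) := by
        rw [mul_pow, ← Real.exp_nat_mul]
        norm_num
        ring
  have hg0 : ∀ t, 0 ≤ g t := by
    intro t
    rw [hg]
    positivity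
  have hcase : ∀ (u v f : ℝ), 0 ≤ f → 0 < u → u < v → f ≤ 1 / u ^ 2 * (v ^ 2 * f) := by
    intro u v f hf hu huv
    have h1 : 1 ≤ 1 / u ^ 2 * v ^ 2 := by
      rw [one_div_mul_eq_div, le_div_iff₀ (by positivity), one_mul]
      exact pow_le_pow_left₀ hu.le huv.le 2
    rw [← mul_assoc]
    exact le_mul_of_one_le_left hf h1
  have hpw : ∀ t, T + L ≤ t → t ≤ 2 * T - L → ‖dp N e t‖ ^ 2 ≤ G.indicator (fun _ => K₀) t + g t := by
    intro t ht1 ht2
    have hind : 0 ≤ G.indicator (fun _ => K₀) t := Set.indicator_nonneg (fun _ _ => hK₀0) t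
    have hf : 0 ≤ ‖dp N e t‖ ^ 2 := by positivity
    have hA0 : 0 < A₀ := by linarith
    have hgt : g t = (1 / A₀ ^ 2) * (1 / S * (‖dp Y (pc Y) t - α * (S : ℂ)‖ ^ 2 * ‖dp N e t‖ ^ 2)) +
      (1 / A₀ ^ 2) * (1 / S * (‖dp X (pc X) t - α * (S : ℂ)‖ ^ 2 * ‖dp N e t‖ ^ 2)) +
      (1 / A₀ ^ 2) * (‖dp (Y ^ 2) (cq Y) t‖ ^ 2 * ‖dp N e t‖ ^ 2) + (1 / A₀ ^ 2) * (M t ^ 2 * ‖dp N e t‖ ^ 2) +
      (1 / A₀ ^ 2) * (|Real.log ‖zt t‖ - EP Y t| ^ 2 * ‖dp N e t‖ ^ 2) := by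
      rw [hg]
      ring
    have p1 : 0 ≤ (1 / A₀ ^ 2) * (1 / S * (‖dp Y (pc Y) t - α * (S : ℂ)‖ ^ 2 * ‖dp N e t‖ ^ 2)) := by positivity
    have p2 : 0 ≤ (1 / A₀ ^ 2) * (1 / S * (‖dp X (pc X) t - α * (S : ℂ)‖ ^ 2 * ‖dp N e t‖ ^ 2)) := by positivity
    have p3 : 0 ≤ (1 / A₀ ^ 2) * (‖dp (Y ^ 2) (cq Y) t‖ ^ 2 * ‖dp N e t‖ ^ 2) := by positivity
    have p4 : 0 ≤ (1 / A₀ ^ 2) * (M t ^ 2 * ‖dp N e t‖ ^ 2) := by positivity
    have p5 : 0 ≤ (1 / A₀ ^ 2) * (|Real.log ‖zt t‖ - EP Y t| ^ 2 * ‖dp N e t‖ ^ 2) := by positivity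
    have hcS : ∀ v : ℝ, A₀ * Real.sqrt S < v → ‖dp N e t‖ ^ 2 ≤ (1 / A₀ ^ 2) * (1 / S * (v ^ 2 * ‖dp N e t‖ ^ 2)) := by
      intro v hv
      refine (hcase (A₀ * Real.sqrt S) v _ hf (by positivity) hv).trans (le_of_eq ?_)
      rw [mul_pow, hSS]
      field_simp
    by_cases c1 : A₀ * Real.sqrt S < ‖dp Y (pc Y) t - α * (S : ℂ)‖
    · have := hcS _ c1
      linarith
    by_cases c2 : A₀ * Real.sqrt S < ‖dp X (pc X) t - α * (S : ℂ)‖
    · have := hcS _ c2
      linarith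
    by_cases c3 : A₀ < ‖dp (Y ^ 2) (cq Y) t‖
    · have := hcase _ _ _ hf hA0 c3
      linarith
    by_cases c4 : A₀ < M t
    · have := hcase _ _ _ hf hA0 c4
      linarith
    by_cases c5 : A₀ < |Real.log ‖zt t‖ - EP Y t|
    · have := hcase _ _ _ hf hA0 c5
      linarith
    rw [not_lt] at c1 c2 c3 c4 c5
    have htG : t ∈ G := by
      rw [hG]
      exact ⟨⟨ht1, ht2⟩, c1, c2, c3, c4, c5⟩
    rw [Set.indicator_of_mem htG]
    have := hGpt t htG
    have := hg0 t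
    linarith
  -- integration
  have hab : T + L ≤ 2 * T - L := by linarith
  have hgi' : IntervalIntegrable g volume (T + L) (2 * T - L) := by
    refine hgi.mono_set ?_
    rw [Set.uIcc_of_le hab, Set.uIcc_of_le (by linarith)]
    exact Set.Icc_subset_Icc (by linarith) (by linarith)
  have hmain := vol_ge hab hK₀0 (f := fun t => ‖dp N e t‖ ^ 2) (by fun_prop) hGm hGfin hgi' hpw
  have hg1 : ∫ t in (T + L)..(2 * T - L), g t ≤ 1 / 8 * (T * N2 N e) := by
    refine le_trans ?_ hgI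
    exact intervalIntegral.integral_mono_interval (by linarith) (by linarith) (by linarith)
      (Eventually.of_forall fun t => hg0 t) hgi
  -- the edges
  have hBle : ∀ t : ℝ, ‖dp N e t‖ ^ 2 ≤ T ^ (1 / 4 : ℝ) * N2 N e := fun t =>
    (hDPM.2.2 N e t).1.trans (mul_le_mul_of_nonneg_right hN4 hN2.le)
  have hedge : ∀ x : ℝ, ∫ t in x..(x + L), ‖dp N e t‖ ^ 2 ≤ 1 / 16 * (T * N2 N e) := by
    intro x
    have h1 : ∫ t in x..(x + L), ‖dp N e t‖ ^ 2 ≤ ∫ _ in x..(x + L), T ^ (1 / 4 : ℝ) * N2 N e :=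
      intervalIntegral.integral_mono_on (by linarith) (Continuous.intervalIntegrable (by fun_prop) _ _)
        (by simp) fun t _ => hBle t
    rw [intervalIntegral.integral_const, smul_eq_mul, add_sub_cancel_left] at h1
    refine h1.trans ?_
    have h2 : L * T ^ (1 / 4 : ℝ) ≤ 1 / 16 * T := by
      calc L * T ^ (1 / 4 : ℝ) ≤ (1 / 16 * T ^ (1 / 2 : ℝ)) * T ^ (1 / 2 : ℝ) :=
            mul_le_mul hlit2 (hmono (by norm_num)) (by positivity) (by positivity)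
        _ = 1 / 16 * T := by
            rw [mul_assoc, ← Real.rpow_add hT0]
            norm_num
    calc L * (T ^ (1 / 4 : ℝ) * N2 N e) = L * T ^ (1 / 4 : ℝ) * N2 N e := by ring
      _ ≤ 1 / 16 * T * N2 N e := mul_le_mul_of_nonneg_right h2 hN2.le
      _ = _ := by ring
  have hsplit : ∫ t in T..(2 * T), ‖dp N e t‖ ^ 2 = (∫ t in T..(T + L), ‖dp N e t‖ ^ 2) +
      (∫ t in (T + L)..(2 * T - L), ‖dp N e t‖ ^ 2) + ∫ t in (2 * T - L)..(2 * T), ‖dp N e t‖ ^ 2 := by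
    rw [intervalIntegral.integral_add_adjacent_intervals (Continuous.intervalIntegrable (by fun_prop) _ _)
      (Continuous.intervalIntegrable (by fun_prop) _ _),
      intervalIntegral.integral_add_adjacent_intervals (Continuous.intervalIntegrable (by fun_prop) _ _)
      (Continuous.intervalIntegrable (by fun_prop) _ _)]
  have he1 := hedge T
  have he2 := hedge (2 * T - L)
  rw [sub_add_cancel] at he2
  have hvol : T / 4 * N2 N e ≤ K₀ * volume.real G := by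
    have hmain' : ∫ t in (T + L)..(2 * T - L), ‖dp N e t‖ ^ 2 ≤ K₀ * volume.real G + ∫ t in (T + L)..(2 * T - L), g t := hmain
    linarith
  -- the good set is contained in the level set
  have hsub : G ⊆ LevT α (5 * A₀) T := by
    intro t ht
    have htI := hGsub ht
    rw [hG] at ht
    obtain ⟨⟨ht1, ht2⟩, b1, b2, b3, b4, b5⟩ := ht
    have hA0 : 0 < A₀ := by linarith
    have hAS : A₀ ≤ A₀ * Real.sqrt S := le_mul_of_one_le_right (by linarith) hSq1
    refine ⟨htI, ?_, ?_⟩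
    · have h1 := Pool.Agent.Q151.UM.EP_lin Y t
      have h1' : |EP Y t - (dp Y (pc Y) t).re - 1 / 2 * (dp (Y ^ 2) (cq Y) t).re| ≤ 2 * Pool.Agent.Q96.UM.Z0 := h1
      have h2 : |(dp Y (pc Y) t).re - α.re * S| ≤ A₀ * Real.sqrt S := by
        have : (dp Y (pc Y) t).re - α.re * S = (dp Y (pc Y) t - (α * (S : ℂ))).re := by simp
        rw [this]
        exact (Complex.abs_re_le_norm _).trans b1
      have h3 : |(dp (Y ^ 2) (cq Y) t).re| ≤ A₀ := (Complex.abs_re_le_norm _).trans b3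
      rw [abs_le] at h1' h2 h3 b5 ⊢
      constructor <;> linarith [h1'.1, h1'.2, h2.1, h2.2, h3.1, h3.2, b5.1, b5.2]
    · have h1 := (hMpt t ht1 ht2).trans b4
      rw [Py_eq, ← hY] at h1
      have h2 : |(dp Y (pc Y) t).im - α.im * S| ≤ A₀ * Real.sqrt S := by
        have : (dp Y (pc Y) t).im - α.im * S = (dp Y (pc Y) t - α * (S : ℂ)).im := by simp
        rw [this]
        exact (Complex.abs_im_le_norm _).trans b1
      have e1 : Real.pi * E1 t - α.im * S = Real.pi * (E1 t - (dp Y (pc Y) t).im / Real.pi) +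
          ((dp Y (pc Y) t).im - α.im * S) := by
        have := Real.pi_ne_zero
        field_simp
        ring
      rw [e1]
      refine (abs_add_le _ _).trans ?_
      rw [abs_mul, abs_of_pos Real.pi_pos]
      have h3 : Real.pi * |E1 t - (dp Y (pc Y) t).im / Real.pi| ≤ 4 * A₀ :=
        mul_le_mul Real.pi_lt_four.le h1 (abs_nonneg _) (by norm_num)
      linarith
  refine ⟨G, hGm, hsub, ?_⟩
  -- conclusion
  set Ex := Real.exp (2 * k ^ 2 * S + 2 * k * A₀ * Real.sqrt S) with hEx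
  have hExp : 0 < Ex := Real.exp_pos _
  rw [hK₀] at hvol
  have h4 : T / 16 * N2 N e / Ex ≤ volume.real G := by
    rw [div_le_iff₀ hExp]
    linarith
  refine le_trans ?_ h4
  rw [le_div_iff₀ hExp]
  have hlogS : Real.log S ≤ 2 * Real.sqrt S := by
    have h5 : Real.log S = 2 * Real.log (Real.sqrt S) := by
      rw [← Real.log_rpow hSq]
      congr 1
      rw [Real.rpow_two, hSS]
    rw [h5]
    have := Real.log_le_sub_one_of_pos hSq
    linarith
  calc T * Real.exp (-(k ^ 2) * S - (2 * C + 2 * k * A₀ + C₃) * Real.sqrt S) * Ex =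
        T * Real.exp (k ^ 2 * S - 2 * C * Real.sqrt S - C₃ * Real.sqrt S) := by
        rw [hEx, mul_assoc, ← Real.exp_add]
        congr 2
        ring
    _ ≤ T * Real.exp (-C₃ + (k ^ 2 * S - C * Real.log S)) := by
        have h6 : C * Real.log S ≤ C * (2 * Real.sqrt S) := by gcongr
        have h7 : C₃ ≤ C₃ * Real.sqrt S := le_mul_of_one_le_right hC₃0 hSq1
        gcongr
        linarith
    _ = T * (Real.exp (-C₃) * Real.exp (k ^ 2 * S - C * Real.log S)) := by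
        rw [Real.exp_add]
    _ ≤ T * (1 / 16 * N2 N e) := by
        gcongr
    _ = T / 16 * N2 N e := by ring

end

end Pool.Agent.H313.SL
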