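import Pool.Graph.R_pool_sql_team_seeded_c8625f6e.K4H8.JG.PPow

set_option autoImplicit false

/-! The sum of the inverse square roots of the proper powers of exponent at least three. -/

namespace Pool.Agent.H313.SL

open Finset

lemma geo3 {r : ℝ} (h0 : 0 ≤ r) (h1 : r ≤ 3 / 4) (X : ℕ) : ∑ k ∈ Icc 3 X, r ^ k ≤ 4 * r ^ 3 := by
  have h2 : ∑ k ∈ Icc 3 X, r ^ k = r ^ 3 * ∑ j ∈ range (X - 2), r ^ j := by
    rw [mul_sum]
    refine Finset.sum_nbij' (fun k => k - 3) (fun j => j + 3) ?_ ?_ ?_ ?_ ?_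
    · intro k hk; rw [mem_Icc] at hk; rw [mem_range]; omega
    · intro j hj; rw [mem_range] at hj; rw [mem_Icc]; omega
    · intro k hk; rw [mem_Icc] at hk; omega
    · intro j _; simp
    · intro k hk
      rw [mem_Icc] at hk
      rw [← pow_add]
      congr 1
      omega
  have h3 : ∑ j ∈ range (X - 2), r ^ j ≤ (1 - r)⁻¹ := by
    have hs := summable_geometric_of_lt_one h0 (by linarith : r < 1)
    rw [← tsum_geometric_of_lt_one h0 (by linarith : r < 1)]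
    exact hs.sum_le_tsum _ (fun i _ => by positivity)
  have h4 : (1 - r)⁻¹ ≤ 4 := by
    rw [inv_le_comm₀ (by linarith) (by norm_num)]
    norm_num
    linarith
  rw [h2]
  have h5 : 0 ≤ r ^ 3 := by positivity
  nlinarith

/-- a constant -/
noncomputable def Z32 : ℝ := ∑' n : ℕ, (n : ℝ) ^ (-(3 / 2) : ℝ)

lemma Z32_nonneg : 0 ≤ Z32 := tsum_nonneg fun n => by positivity

open Classical in
theorem cub_sum (X : ℕ) :
    ∑ n ∈ (Icc 1 X).filter (fun n => ∃ p k : ℕ, p.Prime ∧ 3 ≤ k ∧ n = p ^ k), (Real.sqrt n)⁻¹ ≤ 4 * Z32 := by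
  have h1 : ∑ n ∈ (Icc 1 X).filter (fun n => ∃ p k : ℕ, p.Prime ∧ 3 ≤ k ∧ n = p ^ k), (Real.sqrt n)⁻¹ ≤
      ∑ q ∈ (Icc 2 X) ×ˢ (Icc 3 X), ((Real.sqrt (q.1 : ℝ))⁻¹) ^ q.2 := by
    have hsub : (Icc 1 X).filter (fun n => ∃ p k : ℕ, p.Prime ∧ 3 ≤ k ∧ n = p ^ k) ⊆
        ((Icc 2 X) ×ˢ (Icc 3 X)).image (fun q : ℕ × ℕ => q.1 ^ q.2) := by
      intro n hn
      rw [mem_filter, mem_Icc] at hn
      obtain ⟨⟨h1, h2⟩, p, k, hp, hk, rfl⟩ := hn
      rw [mem_image]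
      have hp2 := hp.two_le
      refine ⟨(p, k), ?_, rfl⟩
      rw [mem_product, mem_Icc, mem_Icc]
      refine ⟨⟨hp2, ?_⟩, ⟨hk, ?_⟩⟩
      · exact le_trans (Nat.le_self_pow (by omega) p) h2
      · exact le_trans (Nat.lt_pow_self hp.one_lt).le h2
    calc ∑ n ∈ (Icc 1 X).filter (fun n => ∃ p k : ℕ, p.Prime ∧ 3 ≤ k ∧ n = p ^ k), (Real.sqrt n)⁻¹ ≤
        ∑ n ∈ ((Icc 2 X) ×ˢ (Icc 3 X)).image (fun q : ℕ × ℕ => q.1 ^ q.2), (Real.sqrt (n : ℝ))⁻¹ :=
          sum_le_sum_of_subset_of_nonneg hsub fun n _ _ => by positivity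
      _ ≤ ∑ q ∈ (Icc 2 X) ×ˢ (Icc 3 X), (Real.sqrt ((q.1 ^ q.2 : ℕ) : ℝ))⁻¹ := by
          refine Finset.sum_image_le_of_nonneg (s := (Icc 2 X) ×ˢ (Icc 3 X))
            (g := fun q : ℕ × ℕ => q.1 ^ q.2) (f := fun n : ℕ => (Real.sqrt (n : ℝ))⁻¹) ?_
          intro n _
          positivity
      _ = _ := by
          refine sum_congr rfl fun q _ => ?_
          push_cast
          rw [inv_pow]
          congr 1
          rw [Real.sqrt_eq_iff_mul_self_eq (by positivity) (by positivity), ← mul_pow, Real.mul_self_sqrt (by positivity)]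
  refine h1.trans ?_
  rw [sum_product]
  have h2 : ∀ m ∈ Icc 2 X, ∑ k ∈ Icc 3 X, ((Real.sqrt (m : ℝ))⁻¹) ^ k ≤ 4 * (m : ℝ) ^ (-(3 / 2) : ℝ) := by
    intro m hm
    rw [mem_Icc] at hm
    have hm2 : (2 : ℝ) ≤ m := by exact_mod_cast hm.1
    have hm0 : (0 : ℝ) < m := by linarith
    have h4 : (4 / 3 : ℝ) ≤ Real.sqrt m := by
      refine Real.le_sqrt_of_sq_le ?_
      norm_num
      linarith
    have h3 := geo3 (r := (Real.sqrt (m : ℝ))⁻¹) (by positivity) (by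
      rw [inv_le_comm₀ (by linarith) (by norm_num)]
      norm_num
      exact h4) X
    refine h3.trans (le_of_eq ?_)
    congr 1
    rw [Real.sqrt_eq_rpow, ← Real.rpow_neg hm0.le, ← Real.rpow_natCast, ← Real.rpow_mul hm0.le]
    norm_num
  refine (sum_le_sum h2).trans ?_
  rw [← mul_sum]
  refine mul_le_mul_of_nonneg_left ?_ (by norm_num)
  exact (Real.summable_nat_rpow.2 (by norm_num)).sum_le_tsum _ fun i _ => by positivity

end Pool.Agent.H313.SL
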