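import Pool.Agent.H313.SL.Arg3
import Pool.Graph.R_pool_sql_team_seeded_3997aac3.Q97.UM.Base16

set_option autoImplicit false

/-! Small and large gaps at every joint level. -/

namespace Pool.Agent.H313.SL

open Filter Topology MeasureTheory Complex
open Pool.Agent.Q97.UM
open Pool.Agent.K4H8.JG (E1)
open Pool.Agent.Y745.SW (Py)

noncomputable section

lemma Py_eq (y t : ℝ) : Py y t = dp ⌊y⌋₊ (pc ⌊y⌋₊) t := by
  unfold Py dp pc
  rw [Finset.sum_filter]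
  refine Finset.sum_congr rfl fun n hn => ?_
  have h := (Finset.mem_Icc.1 hn).2
  by_cases hp : n.Prime
  · rw [if_pos hp, if_pos ⟨hp, h⟩, one_mul]
  · rw [if_neg hp, if_neg (fun hh => hp hh.1), zero_mul]

/-- closeness of the argument -/
lemma arg_close {δ T A : ℝ} {s : ℂ} (hA : A < T ^ (1 / 4 : ℝ)) (h : |DA δ T s| ≤ A) :
    |Real.pi * E1 s.im - (dp ⌊T ^ δ⌋₊ (pc ⌊T ^ δ⌋₊) s.im).im| ≤ 4 * A := by
  have hpi := Real.pi_pos
  unfold DA at h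
  split_ifs at h with hc
  · rw [abs_abs, Py_eq] at h
    have e : Real.pi * E1 s.im - (dp ⌊T ^ δ⌋₊ (pc ⌊T ^ δ⌋₊) s.im).im =
        Real.pi * (E1 s.im - (dp ⌊T ^ δ⌋₊ (pc ⌊T ^ δ⌋₊) s.im).im / Real.pi) := by
      field_simp
    rw [e, abs_mul, abs_of_pos hpi]
    exact mul_le_mul Real.pi_lt_four.le h (abs_nonneg _) (by norm_num)
  · exact absurd (le_abs_self _) (not_le.2 (lt_of_le_of_lt h hA))

/-- the hypothesis of `coh_core2` for the difference -/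
lemma hD_of {η : ℝ} (Z : ℝ → Finset ℂ) (w : ℝ → ℂ → ℝ) (hZs : ∀ T, Z T ⊆ H370.Zf riemannZeta T (2 * T))
    (_hw0 : ∀ T, ∀ s ∈ Z T, 0 ≤ w T s) (hw : ∀ᶠ T : ℝ in atTop, ∀ s ∈ Z T, w T s ≤ mz s) (_hη : 0 ≤ η)
    (hSS : ∃ θ C : ℝ, 0 < θ ∧ 0 ≤ C ∧ ∀ᶠ T : ℝ in atTop, ∀ N : ℕ, (N : ℝ) ≤ T ^ θ →
      ∀ b : ℕ → ℂ, ∑ s ∈ H370.Zf riemannZeta T (2 * T), (mz s : ℝ) * (SS η T s.im ^ 2 * ‖dp N b s.im‖ ^ 2) ≤ C * Real.log T * (T * N2 N b)) :
    ∃ θ δ₀ : ℝ, 0 < θ ∧ 0 < δ₀ ∧ ∀ δ : ℝ, 0 < δ → δ ≤ δ₀ → ∀ C' : ℝ, 0 ≤ C' → ∃ C : ℝ, 0 ≤ C ∧ ∀ᶠ T : ℝ in atTop,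
      ∀ N : ℕ, (N : ℝ) ≤ T ^ θ → ∀ b : ℕ → ℂ, (∀ n, b n ≠ 0 → 1 ≤ n ∧ n ≤ N) → SqB C' ⌊T ^ δ⌋₊ N b →
        ∑ s ∈ Z T, w T s * ((DA δ T s + SS η T s.im) ^ 2 * ‖dp N b s.im‖ ^ 2) ≤ C * Real.log T * (T * N2 N b) := by
  obtain ⟨θ₁, δ₁, hθ₁, hδ₁, h1⟩ := arg_ms
  obtain ⟨θ₂, C₂, hθ₂, hC₂, h2⟩ := hSS
  refine ⟨min θ₁ θ₂, δ₁, by positivity, hδ₁, fun δ hδ hδ' C' hC' => ?_⟩
  obtain ⟨C₁, hC₁, h1⟩ := h1 δ hδ hδ' C' hC'
  refine ⟨2 * C₁ + 2 * C₂, by positivity, ?_⟩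
  filter_upwards [h1, h2, hw, eventually_ge_atTop (1 : ℝ)] with T h1 h2 hw hT N hN b hb hq
  have hN1 : (N : ℝ) ≤ T ^ θ₁ := hN.trans (Real.rpow_le_rpow_of_exponent_le hT (min_le_left _ _))
  have hN2 : (N : ℝ) ≤ T ^ θ₂ := hN.trans (Real.rpow_le_rpow_of_exponent_le hT (min_le_right _ _))
  have k1 := h1 N hN1 b hb hq
  have k2 := h2 N hN2 b
  calc ∑ s ∈ Z T, w T s * ((DA δ T s + SS η T s.im) ^ 2 * ‖dp N b s.im‖ ^ 2) ≤
      ∑ s ∈ Z T, (mz s : ℝ) * ((DA δ T s + SS η T s.im) ^ 2 * ‖dp N b s.im‖ ^ 2) :=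
        Finset.sum_le_sum fun s hs => mul_le_mul_of_nonneg_right (hw s hs) (by positivity)
    _ ≤ ∑ s ∈ H370.Zf riemannZeta T (2 * T), (mz s : ℝ) * ((DA δ T s + SS η T s.im) ^ 2 * ‖dp N b s.im‖ ^ 2) :=
        Finset.sum_le_sum_of_subset_of_nonneg (hZs T) fun s _ _ => by positivity
    _ ≤ ∑ s ∈ H370.Zf riemannZeta T (2 * T), (2 * ((mz s : ℝ) * (DA δ T s ^ 2 * ‖dp N b s.im‖ ^ 2)) +
        2 * ((mz s : ℝ) * (SS η T s.im ^ 2 * ‖dp N b s.im‖ ^ 2))) := by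
        refine Finset.sum_le_sum fun s _ => ?_
        have e1 : (DA δ T s + SS η T s.im) ^ 2 ≤ 2 * DA δ T s ^ 2 + 2 * SS η T s.im ^ 2 := by
          nlinarith [sq_nonneg (DA δ T s - SS η T s.im)]
        have e2 : 0 ≤ (mz s : ℝ) * ‖dp N b s.im‖ ^ 2 := by positivity
        have e3 := mul_le_mul_of_nonneg_right e1 e2
        refine (le_of_eq ?_).trans (e3.trans (le_of_eq ?_))
        · ring
        · ring
    _ = 2 * (∑ s ∈ H370.Zf riemannZeta T (2 * T), (mz s : ℝ) * (DA δ T s ^ 2 * ‖dp N b s.im‖ ^ 2)) +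
        2 * (∑ s ∈ H370.Zf riemannZeta T (2 * T), (mz s : ℝ) * (SS η T s.im ^ 2 * ‖dp N b s.im‖ ^ 2)) := by
        rw [Finset.sum_add_distrib, ← Finset.mul_sum, ← Finset.mul_sum]
    _ ≤ 2 * (C₁ * Real.log T * (T * N2 N b)) + 2 * (C₂ * Real.log T * (T * N2 N b)) := by gcongr
    _ = _ := by ring

/-- the difference is nonnegative -/
lemma DA_nonneg {δ T : ℝ} (hT : 0 ≤ T) (s : ℂ) : 0 ≤ DA δ T s := by
  unfold DA
  split_ifs
  · exact abs_nonneg _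
  · positivity

lemma SS_nonneg (η T t : ℝ) : 0 ≤ SS η T t := by
  unfold SS
  exact Finset.sum_nonneg fun s _ => by positivity

open Classical in
/-- the level set -/
def Lev (α : ℂ) (A T : ℝ) (s : ℂ) : Prop :=
  |LM T s.im - α.re * Real.log (Real.log T)| ≤ A * Real.sqrt (Real.log (Real.log T)) ∧
  |Real.pi * E1 s.im - α.im * Real.log (Real.log T)| ≤ A * Real.sqrt (Real.log (Real.log T))

lemma Lev_of {α : ℂ} {A₁ δ η T : ℝ} {Z : ℝ → Finset ℂ} (hA : 0 < A₁) (hT : 0 ≤ T) (hAT : A₁ < T ^ (1 / 4 : ℝ))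
    (hS1 : 1 ≤ Real.log (Real.log T)) {s : ℂ} (hs : s ∈ Gdc α A₁ δ (fun δ T s => DA δ T s + SS η T s.im) Z T) :
    s ∈ Z T ∧ Lev α (5 * A₁) T s ∧ SS η T s.im ≤ A₁ := by
  have hSq1 : 1 ≤ Real.sqrt (Real.log (Real.log T)) := Real.one_le_sqrt.2 hS1
  unfold Gdc at hs
  rw [Finset.mem_filter] at hs
  obtain ⟨g0, g1, g2, g3, g4⟩ := hs
  have h0 := DA_nonneg (δ := δ) hT s
  have h0' := SS_nonneg η T s.im
  have h4 : DA δ T s + SS η T s.im ≤ A₁ := (le_abs_self _).trans g4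
  have hDA : |DA δ T s| ≤ A₁ := by
    rw [abs_of_nonneg h0]
    linarith
  have h5 := arg_close hAT hDA
  have hAs : A₁ ≤ A₁ * Real.sqrt (Real.log (Real.log T)) := le_mul_of_one_le_right hA.le hSq1
  refine ⟨g0, ⟨?_, ?_⟩, by linarith⟩
  · have e1 : LM T s.im - α.re * Real.log (Real.log T) = (LM T s.im - EP ⌊T ^ δ⌋₊ s.im) +
        (EP ⌊T ^ δ⌋₊ s.im - α.re * Real.log (Real.log T)) := by ring
    rw [e1]
    refine (abs_add_le _ _).trans ?_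
    linarith
  · have e1 : Real.pi * E1 s.im - α.im * Real.log (Real.log T) =
        (Real.pi * E1 s.im - (dp ⌊T ^ δ⌋₊ (pc ⌊T ^ δ⌋₊) s.im).im) +
        ((dp ⌊T ^ δ⌋₊ (pc ⌊T ^ δ⌋₊) s.im).im - α.im * Real.log (Real.log T)) := by ring
    rw [e1]
    refine (abs_add_le _ _).trans ?_
    linarith

open Classical in
/-- small and large gaps at every joint level -/
theorem gaps_level2 : ∃ η : ℝ, 0 < η ∧ η ≤ 1 / 2 ∧ ∀ α : ℂ, ∃ A C : ℝ, 0 < A ∧ 0 ≤ C ∧ ∀ᶠ T : ℝ in atTop,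
      T * Real.exp ((1 - ‖α‖ ^ 2) * Real.log (Real.log T) - C * Real.sqrt (Real.log (Real.log T))) ≤
        (((Zcl η T).filter (fun s => Lev α A T s)).card : ℝ) ∧
      T * Real.exp ((1 - ‖α‖ ^ 2) * Real.log (Real.log T) - C * Real.sqrt (Real.log (Real.log T))) ≤
        (((Zap η T).filter (fun s => Lev α A T s)).card : ℝ) := by
  obtain ⟨θ, c, η, hθ, hc, hη, hη1, hUG⟩ := b_UG2
  obtain ⟨θ', δ', C', hθ', hδ', hC', hSS⟩ := b_SSZ
  refine ⟨η, hη, hη1, fun α => ?_⟩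
  have hsub1 : ∀ T, Zcl η T ⊆ H370.Zf riemannZeta T (2 * T) := fun T => Finset.filter_subset _ _
  have hsub2 : ∀ T, Zap η T ⊆ H370.Zf riemannZeta T (2 * T) := fun T => Finset.filter_subset _ _
  have hmzev : ∀ᶠ T : ℝ in atTop, ∀ s ∈ H370.Zf riemannZeta T (2 * T), (1 : ℝ) ≤ mz s := by
    filter_upwards [eventually_ge_atTop (1 : ℝ)] with T hT
    exact mz_ge hT
  have hD1 := hD_of (η := δ') (Zcl η) (fun _ s => (mz s : ℝ)) hsub1 (fun T s _ => Nat.cast_nonneg _)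
    (Eventually.of_forall fun T s _ => le_rfl) hδ'.le ⟨θ', C', hθ', hC', hSS⟩
  have hD2 := hD_of (η := δ') (Zap η) (fun _ _ => 1) hsub2 (fun T s _ => zero_le_one) (by
      filter_upwards [hmzev] with T h s hs
      exact h s (hsub2 T hs)) hδ'.le ⟨θ', C', hθ', hC', hSS⟩
  obtain ⟨A₁, C₁, δ₁, hA₁, hC₁, hδ₁, h1⟩ := coh_core2 (t_COHC Pool.Agent.Q84.UM.t_DPM b_TEX) b_CLW Pool.Agent.Q84.UM.t_DPM b_SAMP α
    (Zcl η) (fun _ s => (mz s : ℝ)) hsub1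
    (fun T s _ => Nat.cast_nonneg _) (Eventually.of_forall fun T s _ => le_rfl) (by
      refine ⟨θ, c, hθ, hc, ?_⟩
      filter_upwards [hUG] with T h N hN b
      exact (h N hN b).1) (fun δ T s => DA δ T s + SS δ' T s.im) hD1
  obtain ⟨A₂, C₂, δ₂, hA₂, hC₂, hδ₂, h2⟩ := coh_core2 (t_COHC Pool.Agent.Q84.UM.t_DPM b_TEX) b_CLW Pool.Agent.Q84.UM.t_DPM b_SAMP α
    (Zap η) (fun _ _ => 1) hsub2
    (fun T s _ => zero_le_one) (by
      filter_upwards [hmzev] with T h s hs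
      exact h s (hsub2 T hs)) (by
      refine ⟨θ, c, hθ, hc, ?_⟩
      filter_upwards [hUG] with T h N hN b
      refine (h N hN b).2.trans (le_of_eq ?_)
      unfold Zap
      exact Finset.sum_congr rfl fun s _ => (one_mul _).symm) (fun δ T s => DA δ T s + SS δ' T s.im) hD2
  obtain ⟨A, hA⟩ : ∃ A, A = 5 * (A₁ + A₂) := ⟨_, rfl⟩
  obtain ⟨C, hC⟩ : ∃ C, C = C₁ + |Real.log (1 / A₁)| + C₂ := ⟨_, rfl⟩
  have hlA := abs_nonneg (Real.log (1 / A₁))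
  refine ⟨A, C, by rw [hA]; positivity, by rw [hC]; positivity, ?_⟩
  have hll : Tendsto (fun T : ℝ => Real.log (Real.log T)) atTop atTop :=
    Real.tendsto_log_atTop.comp Real.tendsto_log_atTop
  filter_upwards [h1, h2, eventually_ge_atTop (16 : ℝ), hll.eventually_ge_atTop 1,
    (tendsto_rpow_atTop (show (0:ℝ) < 1 / 4 by norm_num)).eventually_gt_atTop (A₁ + A₂)] with T h1 h2 hT hS1 hTA
  set S := Real.log (Real.log T) with hS
  have hSq1 : 1 ≤ Real.sqrt S := Real.one_le_sqrt.2 hS1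
  have hT0 : 0 < T := by linarith
  have hlev : ∀ {A' : ℝ} {s : ℂ}, A' ≤ A → Lev α A' T s → Lev α A T s := by
    intro A' s hAA h
    have : A' * Real.sqrt S ≤ A * Real.sqrt S := mul_le_mul_of_nonneg_right hAA (by linarith)
    exact ⟨h.1.trans this, h.2.trans this⟩
  constructor
  · have h3 : Gdc α A₁ δ₁ (fun δ T s => DA δ T s + SS δ' T s.im) (Zcl η) T ⊆ (Zcl η T).filter (fun s => Lev α A T s) := by
      intro s hs
      obtain ⟨g0, g1, _⟩ := Lev_of hA₁ hT0.le (by linarith) hS1 hs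
      rw [Finset.mem_filter]
      exact ⟨g0, hlev (by rw [hA]; linarith) g1⟩
    have h4 : ∑ s ∈ Gdc α A₁ δ₁ (fun δ T s => DA δ T s + SS δ' T s.im) (Zcl η) T, (mz s : ℝ) ≤
        A₁ * ((Gdc α A₁ δ₁ (fun δ T s => DA δ T s + SS δ' T s.im) (Zcl η) T).card : ℝ) := by
      rw [mul_comm, ← nsmul_eq_mul]
      refine Finset.sum_le_card_nsmul _ _ _ fun s hs => ?_
      obtain ⟨g0, _, g2⟩ := Lev_of hA₁ hT0.le (by linarith) hS1 hs
      exact (mz_le_SS hT hδ'.le (hsub1 T g0)).trans g2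
    have h5 : T * Real.exp ((1 - ‖α‖ ^ 2) * S - C₁ * Real.sqrt S) ≤
        A₁ * (((Zcl η T).filter (fun s => Lev α A T s)).card : ℝ) := by
      refine (h1.trans h4).trans ?_
      have := Finset.card_le_card h3
      gcongr
    have h6 := absorb (T := T) (S := S) (E := (1 - ‖α‖ ^ 2) * S) (C := C₁) (a := 1 / A₁) hT0 hS1 (by positivity)
    have h7 : T * Real.exp ((1 - ‖α‖ ^ 2) * S - C * Real.sqrt S) ≤
        T * Real.exp ((1 - ‖α‖ ^ 2) * S - (C₁ + |Real.log (1 / A₁)|) * Real.sqrt S) := by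
      apply mul_le_mul_of_nonneg_left _ hT0.le
      apply Real.exp_le_exp.2
      rw [hC]
      have : 0 ≤ C₂ * Real.sqrt S := by positivity
      linarith
    refine (h7.trans h6).trans ?_
    rw [one_div, inv_mul_le_iff₀ hA₁]
    exact h5
  · have h3 : Gdc α A₂ δ₂ (fun δ T s => DA δ T s + SS δ' T s.im) (Zap η) T ⊆ (Zap η T).filter (fun s => Lev α A T s) := by
      intro s hs
      obtain ⟨g0, g1, _⟩ := Lev_of hA₂ hT0.le (by linarith) hS1 hs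
      rw [Finset.mem_filter]
      exact ⟨g0, hlev (by rw [hA]; linarith) g1⟩
    have h4 : T * Real.exp ((1 - ‖α‖ ^ 2) * S - C * Real.sqrt S) ≤ T * Real.exp ((1 - ‖α‖ ^ 2) * S - C₂ * Real.sqrt S) := by
      apply mul_le_mul_of_nonneg_left _ hT0.le
      apply Real.exp_le_exp.2
      rw [hC]
      have : 0 ≤ (C₁ + |Real.log (1 / A₁)|) * Real.sqrt S := by positivity
      linarith
    refine h4.trans (h2.trans ?_)
    rw [Finset.sum_const, nsmul_eq_mul, mul_one]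
    exact_mod_cast Finset.card_le_card h3

end

end Pool.Agent.H313.SL
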