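import Pool.Graph.R_pool_sql_team_seeded_3997aac3.Q38.UM.COH

set_option autoImplicit false

/-! Complex coherent states, part 1: the twist by a completely multiplicative function of modulus one. -/

namespace Pool.Agent.H313.SL

open Filter Topology Complex
open Pool.Agent.Q97.UM Pool.Agent.Q190.UM Pool.Agent.Q38.UM

noncomputable section

/-- the twist -/
def tw (ω : ℂ) (b : ℕ → ℂ) (n : ℕ) : ℂ := ω ^ n.primeFactorsList.length * b n

lemma tw_norm {ω : ℂ} (hω : ‖ω‖ = 1) (b : ℕ → ℂ) (n : ℕ) : ‖tw ω b n‖ = ‖b n‖ := by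
  unfold tw
  rw [norm_mul, norm_pow, hω, one_pow, one_mul]

lemma N2_tw {ω : ℂ} (hω : ‖ω‖ = 1) (b : ℕ → ℂ) (N : ℕ) : N2 N (tw ω b) = N2 N b := by
  unfold N2
  exact Finset.sum_congr rfl fun n _ => by rw [tw_norm hω]

lemma tw_ne {ω : ℂ} {b : ℕ → ℂ} {n : ℕ} (h : tw ω b n ≠ 0) : b n ≠ 0 := right_ne_zero_of_mul h

lemma length_div {p n : ℕ} (hp : p.Prime) (hn : 1 ≤ n) (hd : p ∣ n) :
    n.primeFactorsList.length = (n / p).primeFactorsList.length + 1 := by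
  obtain ⟨m, rfl⟩ := hd
  have hm : m ≠ 0 := by
    rintro rfl
    simp at hn
  rw [Nat.mul_div_cancel_left _ hp.pos]
  have h1 := (Nat.perm_primeFactorsList_mul hp.ne_zero hm).length_eq
  rw [h1, List.length_append, Nat.primeFactorsList_prime hp]
  simp [add_comm]

lemma cv_pc_tw (ω : ℂ) (X' : ℕ) (b : ℕ → ℂ) {n : ℕ} (hn : 1 ≤ n) :
    ω * cv (pc X') (tw ω b) n = ω ^ n.primeFactorsList.length * cv (pc X') b n := by
  rw [cv_pc X' _ hn, cv_pc X' _ hn, Finset.mul_sum, Finset.mul_sum]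
  refine Finset.sum_congr rfl fun p hp => ?_
  rw [Finset.mem_filter, Finset.mem_filter] at hp
  unfold tw
  rw [length_div hp.1.2 hn hp.2, pow_succ]
  ring

lemma N2_main_tw {ω : ℂ} (hω : ‖ω‖ = 1) (X' M : ℕ) (b : ℕ → ℂ) (a : ℂ) :
    N2 M (fun n => cv (pc X') (tw ω b) n - (starRingEnd ℂ ω * a) * tw ω b n) =
      N2 M (fun n => cv (pc X') b n - a * b n) := by
  have hω2 : ω * starRingEnd ℂ ω = 1 := by
    rw [Complex.mul_conj, Complex.normSq_eq_norm_sq, hω]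
    norm_num
  unfold N2
  refine Finset.sum_congr rfl fun n hn => ?_
  have hn1 := (Finset.mem_Icc.1 hn).1
  have e1 : ω * (cv (pc X') (tw ω b) n - (starRingEnd ℂ ω * a) * tw ω b n) =
      ω ^ n.primeFactorsList.length * (cv (pc X') b n - a * b n) := by
    rw [mul_sub, cv_pc_tw ω X' b hn1]
    have e2 : ω * (starRingEnd ℂ ω * a * tw ω b n) = (ω * starRingEnd ℂ ω) * (a * tw ω b n) := by ring
    rw [e2, hω2, one_mul]
    unfold tw
    ring
  have e3 := congrArg norm e1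
  rw [norm_mul, norm_mul, norm_pow, hω, one_pow, one_mul, one_mul] at e3
  rw [e3]

/-- bounded coefficients on the squares of the primes -/
def SqB (C : ℝ) (X' N : ℕ) (e : ℕ → ℂ) : Prop := ∀ g : ℕ → ℂ, (∀ n, ‖g n‖ ≤ 1) →
  (∀ n, g n ≠ 0 → ∃ p : ℕ, p.Prime ∧ p ≤ X' ∧ n = p ^ 2) → N2 (X' ^ 2 * N) (cv g e) ≤ C * N2 N e

lemma cv_g_le (X' : ℕ) {g : ℕ → ℂ} (hg : ∀ n, ‖g n‖ ≤ 1) (hgs : ∀ n, g n ≠ 0 → ∃ p : ℕ, p.Prime ∧ p ≤ X' ∧ n = p ^ 2)
    (b : ℕ → ℂ) {n : ℕ} (hn : 1 ≤ n) :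
    ‖cv g b n‖ ≤ ∑ p ∈ (PX X').filter (fun p => p ^ 2 ∣ n), ‖b (n / p ^ 2)‖ := by
  classical
  have h1 := cv_cq X' (fun m => ((‖b m‖ : ℝ) : ℂ)) hn
  have h2 : cv (cq X') (fun m => ((‖b m‖ : ℝ) : ℂ)) n =
      ((∑ p ∈ n.divisorsAntidiagonal, (if ∃ q : ℕ, q.Prime ∧ q ≤ X' ∧ p.1 = q ^ 2 then ‖b p.2‖ else 0) : ℝ) : ℂ) := by
    unfold cv cq
    push_cast
    refine Finset.sum_congr rfl fun p _ => ?_
    split_ifs <;> simp
  rw [h2, ← Complex.ofReal_sum] at h1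
  have h3 := Complex.ofReal_injective h1
  rw [← h3]
  unfold cv
  refine (norm_sum_le _ _).trans (Finset.sum_le_sum fun p _ => ?_)
  rw [norm_mul]
  by_cases h : g p.1 = 0
  · rw [h, norm_zero, zero_mul]
    split_ifs
    · exact norm_nonneg _
    · exact le_rfl
  · rw [if_pos (hgs _ h)]
    exact mul_le_of_le_one_left (norm_nonneg _) (hg _)

lemma SqB_tw {ω : ℂ} (hω : ‖ω‖ = 1) (k : ℝ) {X K X' : ℕ} (hX : 1 ≤ X) {C : ℝ} (hC : 2 + 4 * k ^ 4 ≤ C) :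
    SqB C X' (X ^ K) (tw ω (ee k X K)) := by
  intro g hg hgs
  rw [N2_tw hω]
  have hL0 : 0 ≤ N2 (X ^ K) (ee k X K) := by
    rw [N2_ee]
    exact Finset.sum_nonneg fun _ _ => by positivity
  refine le_trans ?_ (mul_le_mul_of_nonneg_right hC hL0)
  rw [N2_ee]
  refine le_trans ?_ (est3 k (X' := X') (M := X' ^ 2 * X ^ K) hX)
  unfold N2
  refine Finset.sum_le_sum fun n hn => ?_
  refine div_le_div_of_nonneg_right ?_ (by positivity)
  refine pow_le_pow_left₀ (norm_nonneg _) ((cv_g_le X' hg hgs _ (Finset.mem_Icc.1 hn).1).trans (le_of_eq ?_)) 2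
  exact Finset.sum_congr rfl fun p _ => by rw [tw_norm hω, norm_ee]

lemma tw_ck (ω : ℂ) (X r n : ℕ) : ω ^ n.primeFactorsList.length * (ck X r n : ℂ) = ω ^ r * (ck X r n : ℂ) := by
  by_cases h : ck X r n = 0
  · rw [h]; simp
  · rw [(ck_supp h).2.2.1]

/-- the twisted coherent state as a Dirichlet polynomial -/
lemma dp_tw (hD : S_DPM) (ω : ℂ) (k : ℝ) {X K : ℕ} (hX : 1 ≤ X) (t : ℝ) :
    dp (X ^ K) (tw ω (ee k X K)) t = TEx K ((k : ℂ) * (ω * dp X (pc X) t)) := by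
  have hP := (Pool.Agent.Q190.UM.t_PWK hD).1
  unfold TEx
  have h1 : ∀ r ∈ Finset.range (K + 1), ((k : ℂ) * (ω * dp X (pc X) t)) ^ r / (r.factorial : ℂ) =
      ∑ n ∈ Finset.Icc 1 (X ^ K), (ec k r : ℂ) * (ω ^ n.primeFactorsList.length * (ck X r n : ℂ) * (n : ℂ) ^ (-(1 / 2 + t * I))) := by
    intro r hr
    have hrK : r ≤ K := Nat.lt_succ_iff.1 (Finset.mem_range.1 hr)
    rw [mul_pow, mul_pow, ← hP r X t]
    have h2 : dp (X ^ r) (pk X r) t = ∑ n ∈ Finset.Icc 1 (X ^ K), (ck X r n : ℂ) * (n : ℂ) ^ (-(1 / 2 + t * I)) := by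
      unfold dp
      have h3 : ∀ n ∈ Finset.Icc 1 (X ^ r), pk X r n * (n : ℂ) ^ (-(1 / 2 + t * I)) =
          (ck X r n : ℂ) * (n : ℂ) ^ (-(1 / 2 + t * I)) := fun n _ => by rw [pk_eq]
      rw [Finset.sum_congr rfl h3]
      refine Finset.sum_subset (Finset.Icc_subset_Icc_right (Nat.pow_le_pow_right hX hrK)) fun n _ hn2 => ?_
      have h4 : ck X r n = 0 := by
        by_contra hne
        obtain ⟨i1, i2, _⟩ := ck_supp hne
        exact hn2 (Finset.mem_Icc.2 ⟨i1, i2⟩)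
      rw [h4]; simp
    rw [h2, ← Finset.mul_sum]
    have h5 : ∀ n ∈ Finset.Icc 1 (X ^ K), ω ^ n.primeFactorsList.length * (ck X r n : ℂ) * (n : ℂ) ^ (-(1 / 2 + t * I)) =
        ω ^ r * ((ck X r n : ℂ) * (n : ℂ) ^ (-(1 / 2 + t * I))) := fun n _ => by rw [tw_ck]; ring
    rw [Finset.sum_congr rfl h5, ← Finset.mul_sum]
    unfold ec
    push_cast
    ring
  rw [Finset.sum_congr rfl h1, Finset.sum_comm]
  unfold dp
  refine Finset.sum_congr rfl fun n _ => ?_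
  unfold tw ee LC
  push_cast
  rw [Finset.mul_sum, Finset.sum_mul]
  exact Finset.sum_congr rfl fun r _ => by ring

end

end Pool.Agent.H313.SL
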